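import Pool.Agent.Work.MP_7794fd_co.T.Stmts

/-! Project MP_7794fd_co, module T: item 3, an end of the forced chord moves over an end of a free
chord (adapted from R/Chord.lean). -/

set_option autoImplicit false
set_option linter.unusedSectionVars false

namespace Pool.Agent.Work.MP_7794fd_co.T

open Finset Matrix
open Pool.Agent.Work.MP_7794fd_co.R

namespace BChord

theorem two : (2 : ZMod 2) = 0 := rfl

theorem away_lt {c' c p z : ℚ} (h1 : c' < p) (h2 : p < c) (h : Away c' c z) :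
    lt2 c z = lt2 p z ∧ lt2 c' z = lt2 p z := by
  unfold lt2
  rcases h with h | h
  · rw [if_neg (by linarith), if_neg (by linarith), if_neg (by linarith)]
    exact ⟨rfl, rfl⟩
  · rw [if_pos (by linarith), if_pos (by linarith), if_pos (by linarith)]
    exact ⟨rfl, rfl⟩

theorem away_lt' {c' c p z : ℚ} (h1 : c' < p) (h2 : p < c) (h : Away c' c z) :
    lt2 z c = lt2 z p ∧ lt2 z c' = lt2 z p := by
  unfold lt2
  rcases h with h | h
  · rw [if_pos (by linarith), if_pos (by linarith), if_pos (by linarith)]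
    exact ⟨rfl, rfl⟩
  · rw [if_neg (by linarith), if_neg (by linarith), if_neg (by linarith)]
    exact ⟨rfl, rfl⟩

theorem lt_anti {a b : ℚ} (h : a ≠ b) : lt2 a b + lt2 b a = 1 := by
  unfold lt2
  rcases lt_or_gt_of_ne h with h | h
  · rw [if_pos h, if_neg (by linarith)]; rfl
  · rw [if_neg (by linarith), if_pos h]; rfl

theorem lt_one {a b : ℚ} (h : a < b) : lt2 a b = 1 := if_pos h

theorem lt_zero {a b : ℚ} (h : b ≤ a) : lt2 a b = 0 := if_neg (by linarith)

theorem away_ne {c' c p z : ℚ} (h1 : c' < p) (h2 : p < c) (h : Away c' c z) :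
    z ≠ p ∧ z ≠ c ∧ z ≠ c' := by
  rcases h with h | h <;> refine ⟨?_, ?_, ?_⟩ <;> intro e <;> linarith

/-- chords with both ends away from the interval: crossing with the moving chord -/
theorem cr_left {c' c p r : ℚ} {w : ℚ × ℚ} (h1 : c' < p) (h2 : p < c) (hw1 : Away c' c w.1)
    (hw2 : Away c' c w.2) : cr (r, c) w = cr (r, c') w := by
  unfold cr pt
  simp only [(away_lt' h1 h2 hw1).1, (away_lt' h1 h2 hw1).2, (away_lt' h1 h2 hw2).1,
    (away_lt' h1 h2 hw2).2]

theorem pt_away {c' c p r z : ℚ} (h1 : c' < p) (h2 : p < c) (hz : Away c' c z) :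
    pt (r, c) z = pt (r, c') z := by
  unfold pt
  simp only [(away_lt h1 h2 hz).1, (away_lt h1 h2 hz).2]

theorem cr_right {c' c p r : ℚ} {w : ℚ × ℚ} (h1 : c' < p) (h2 : p < c) (hw1 : Away c' c w.1)
    (hw2 : Away c' c w.2) : cr w (r, c) = cr w (r, c') := by
  unfold cr
  rw [pt_away h1 h2 hw1, pt_away h1 h2 hw2]

variable {ι : Type} [Fintype ι] [DecidableEq ι]

/-- values of the colour with `g` and without `u` -/
theorem kap0 (pos : ι → ℚ × ℚ) (β : ℚ → ZMod 2) (M : Finset ι) (g : ι) (x : ℚ × ℚ) (z : ℚ) (hg : g ∉ M) :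
    kb β (Function.update pos g x) (M ∪ {g}) z =
      β z + (pt x z + ∑ m ∈ M, pt (pos m) z) := by
  unfold kb
  rw [show M ∪ {g} = insert g M by rw [union_comm]; rfl, sum_insert hg, Function.update_self]
  congr 2
  refine sum_congr rfl fun m hm => ?_
  have hne : m ≠ g := by
    rintro rfl
    exact hg hm
  rw [Function.update_of_ne hne]

/-- values of the colour with `g` and with `u` -/
theorem kap1 (pos : ι → ℚ × ℚ) (β : ℚ → ZMod 2) (M : Finset ι) (g u : ι) (x : ℚ × ℚ) (z : ℚ) (hg : g ∉ M)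
    (hu : u ∉ M) (hgu : u ≠ g) :
    kb β (Function.update pos g x) (insert u M ∪ {g}) z =
      β z + (pt x z + (pt (pos u) z + ∑ m ∈ M, pt (pos m) z)) := by
  have hg' : g ∉ insert u M := by
    rw [mem_insert, not_or]
    exact ⟨hgu.symm, hg⟩
  rw [kap0 pos β (insert u M) g x z hg', sum_insert hu]

theorem bm_diag (pos : ι → ℚ × ℚ) (β : ℚ → ZMod 2) (V M : Finset ι) (a : ι) (h : a ∈ V) :
    BB β pos V M a a = 1 + kb β pos M (pos a).1 + kb β pos M (pos a).2 := by
  unfold BB
  rw [if_pos rfl, if_pos h]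

theorem bm_diag_out (pos : ι → ℚ × ℚ) (β : ℚ → ZMod 2) (V M : Finset ι) (a : ι) (h : a ∉ V) :
    BB β pos V M a a = 1 := by
  unfold BB
  rw [if_pos rfl, if_neg h]

theorem bm_off (pos : ι → ℚ × ℚ) (β : ℚ → ZMod 2) (V M : Finset ι) (a b : ι) (hab : a ≠ b)
    (h1 : a ∈ M) (h2 : b ∈ M) : BB β pos V M a b = cr (pos a) (pos b) := by
  unfold BB
  rw [if_neg hab, if_pos ⟨h1, h2⟩]

theorem bm_off_out (pos : ι → ℚ × ℚ) (β : ℚ → ZMod 2) (V M : Finset ι) (a b : ι) (hab : a ≠ b)
    (h : ¬ (a ∈ M ∧ b ∈ M)) : BB β pos V M a b = 0 := by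
  unfold BB
  rw [if_neg hab, if_neg h]

/-- the hypotheses on a set `M` of chords -/
structure Ctx (pos : ι → ℚ × ℚ) (β : ℚ → ZMod 2) (V0 M : Finset ι) (g u : ι) (r c' c p q : ℚ) : Prop where
  hcp : c' < p
  hpc : p < c
  hq : Away c' c q
  hy : ∀ z, c' ≤ z → z ≤ c → β z = β c
  hr : Away c' c r
  hrq : r ≠ q
  hug : u ≠ g
  hg0 : g ∉ V0
  hu0 : u ∉ V0
  hE : EndsOf pos u p q
  hAw : ∀ w ∈ V0, Away c' c (pos w).1 ∧ Away c' c (pos w).2
  hM : M ⊆ V0

variable {pos : ι → ℚ × ℚ} {β : ℚ → ZMod 2} {V0 M : Finset ι} {g u : ι} {r c' c p q : ℚ}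

theorem Ctx.gM (H : Ctx pos β V0 M g u r c' c p q) : g ∉ M := fun h => H.hg0 (H.hM h)

theorem Ctx.uM (H : Ctx pos β V0 M g u r c' c p q) : u ∉ M := fun h => H.hu0 (H.hM h)

theorem Ctx.bc (H : Ctx pos β V0 M g u r c' c p q) : β c = β p :=
  (H.hy p H.hcp.le H.hpc.le).symm

theorem Ctx.bc' (H : Ctx pos β V0 M g u r c' c p q) : β c' = β p :=
  (H.hy c' le_rfl (H.hcp.trans H.hpc).le).trans H.bc

theorem Ctx.sum_u (H : Ctx pos β V0 M g u r c' c p q) (κ : ℚ → ZMod 2) :
    κ (pos u).1 + κ (pos u).2 = κ p + κ q := by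
  rcases H.hE with h | h
  · rw [h]
  · rw [h]
    exact add_comm _ _

theorem Ctx.pt_u (H : Ctx pos β V0 M g u r c' c p q) (z : ℚ) :
    pt (pos u) z = lt2 p z + lt2 q z := H.sum_u (fun a => lt2 a z)

theorem Ctx.diag_u (H : Ctx pos β V0 M g u r c' c p q) (V' N : Finset ι) (x : ℚ × ℚ)
    (h : u ∈ V') : BB β (Function.update pos g x) V' N u u =
      1 + (kb β (Function.update pos g x) N p + kb β (Function.update pos g x) N q) := by
  rw [bm_diag _ _ _ _ _ h, Function.update_of_ne H.hug, add_assoc, H.sum_u]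

theorem Ctx.S_c (H : Ctx pos β V0 M g u r c' c p q) :
    ∑ m ∈ M, pt (pos m) c = ∑ m ∈ M, pt (pos m) p := by
  refine sum_congr rfl fun m hm => ?_
  obtain ⟨h1, h2⟩ := H.hAw m (H.hM hm)
  unfold pt
  rw [(away_lt' H.hcp H.hpc h1).1, (away_lt' H.hcp H.hpc h2).1]

theorem Ctx.S_c' (H : Ctx pos β V0 M g u r c' c p q) :
    ∑ m ∈ M, pt (pos m) c' = ∑ m ∈ M, pt (pos m) p := by
  refine sum_congr rfl fun m hm => ?_
  obtain ⟨h1, h2⟩ := H.hAw m (H.hM hm)
  unfold pt
  rw [(away_lt' H.hcp H.hpc h1).2, (away_lt' H.hcp H.hpc h2).2]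

/-- off-diagonal entries do not change as long as one index is in `V0` -/
theorem Ctx.cr_eq (H : Ctx pos β V0 M g u r c' c p q) {a b : ι} (hab : a ≠ b)
    (ha : a = g ∨ a = u ∨ a ∈ V0) (hb : b = g ∨ b = u ∨ b ∈ V0)
    (h : ¬ (a = g ∧ b = u) ∧ ¬ (a = u ∧ b = g)) :
    cr (Function.update pos g (r, c') a) (Function.update pos g (r, c') b) =
      cr (Function.update pos g (r, c) a) (Function.update pos g (r, c) b) := by
  by_cases hag : a = g
  · subst hag
    have hbV : b ∈ V0 := by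
      rcases hb with hb | hb | hb
      · exact absurd hb.symm hab
      · exact absurd ⟨rfl, hb⟩ h.1
      · exact hb
    rw [Function.update_self, Function.update_self, Function.update_of_ne hab.symm,
      Function.update_of_ne hab.symm]
    exact (cr_left H.hcp H.hpc (H.hAw b hbV).1 (H.hAw b hbV).2).symm
  · rw [Function.update_of_ne hag, Function.update_of_ne hag]
    by_cases hbg : b = g
    · subst hbg
      have haV : a ∈ V0 := by
        rcases ha with ha | ha | ha
        · exact absurd ha hag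
        · exact absurd ⟨ha, rfl⟩ h.2
        · exact ha
      rw [Function.update_self, Function.update_self]
      exact (cr_right H.hcp H.hpc (H.hAw a haV).1 (H.hAw a haV).2).symm
    · rw [Function.update_of_ne hbg, Function.update_of_ne hbg]

theorem memN0 {M : Finset ι} {g a : ι} : a ∈ M ∪ {g} ↔ a ∈ M ∨ a = g := by
  rw [mem_union, mem_singleton]

theorem Ctx.kap0_away (H : Ctx pos β V0 M g u r c' c p q) {z : ℚ} (hz : Away c' c z) :
    kb β (Function.update pos g (r, c')) (M ∪ {g}) z =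
      kb β (Function.update pos g (r, c)) (M ∪ {g}) z := by
  rw [kap0 _ _ _ _ _ _ H.gM, kap0 _ _ _ _ _ _ H.gM, pt_away H.hcp H.hpc hz]

theorem Ctx.kap1_away (H : Ctx pos β V0 M g u r c' c p q) {z : ℚ} (hz : Away c' c z) :
    kb β (Function.update pos g (r, c')) (insert u M ∪ {g}) z =
      kb β (Function.update pos g (r, c)) (insert u M ∪ {g}) z := by
  rw [kap1 _ _ _ _ _ _ _ H.gM H.uM H.hug, kap1 _ _ _ _ _ _ _ H.gM H.uM H.hug,
    pt_away H.hcp H.hpc hz]

theorem Ctx.pt3 (H : Ctx pos β V0 M g u r c' c p q) {z : ℚ} (hz : Away c' c z) :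
    pt (r, c) z + pt (pos u) z = pt (r, q) z := by
  rw [H.pt_u]
  unfold pt
  simp only [(away_lt H.hcp H.hpc hz).1]
  linear_combination (lt2 p z) * two

theorem Ctx.kap3_away (H : Ctx pos β V0 M g u r c' c p q) {z : ℚ} (hz : Away c' c z) :
    kb β (Function.update pos g (r, c)) (insert u M ∪ {g}) z =
      kb β (Function.update pos g (r, q)) (M ∪ {g}) z := by
  rw [kap1 _ _ _ _ _ _ _ H.gM H.uM H.hug, kap0 _ _ _ _ _ _ H.gM, ← add_assoc (pt (r, c) z),
    H.pt3 hz]

/-- the unused case -/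
theorem Ctx.det_a (H : Ctx pos β V0 M g u r c' c p q) (h1 : StDiag) :
    (BB β (Function.update pos g (r, c)) (insert u V0 ∪ {g}) (M ∪ {g})).det +
      (BB β (Function.update pos g (r, c')) (insert u V0 ∪ {g}) (M ∪ {g})).det =
    (BB β (Function.update pos g (r, c)) (V0 ∪ {g}) (M ∪ {g})).det := by
  have huN : u ∉ M ∪ {g} := by
    rw [memN0, not_or]
    exact ⟨H.uM, H.hug⟩
  have huV : u ∈ insert u V0 ∪ {g} := mem_union_left _ (mem_insert_self _ _)
  have hgV : g ∈ insert u V0 ∪ {g} := mem_union_right _ (mem_singleton_self _)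
  have e1 : (BB β (Function.update pos g (r, c')) (insert u V0 ∪ {g}) (M ∪ {g})) u u =
      (BB β (Function.update pos g (r, c)) (insert u V0 ∪ {g}) (M ∪ {g})) u u + 1 := by
    rw [H.diag_u _ _ _ huV, H.diag_u _ _ _ huV, H.kap0_away H.hq,
      kap0 _ _ _ _ _ p H.gM, kap0 _ _ _ _ _ p H.gM]
    unfold pt
    simp only [lt_one H.hcp, lt_zero H.hpc.le]
    ring
  rw [h1 _ _ u e1]
  · congr 1
    funext a b
    by_cases ha : a = u
    · subst ha
      rw [if_pos (Or.inl rfl)]
      by_cases hb : a = b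
      · subst hb
        rw [if_pos rfl, bm_diag_out]
        rw [memN0, not_or]
        exact ⟨H.hu0, H.hug⟩
      · rw [if_neg hb, bm_off_out _ _ _ _ _ _ hb (fun hh => huN hh.1)]
    · by_cases hb : b = u
      · subst hb
        rw [if_pos (Or.inr rfl), if_neg ha, bm_off_out _ _ _ _ _ _ ha (fun hh => huN hh.2)]
      · rw [if_neg (not_or.2 ⟨ha, hb⟩)]
        unfold BB
        have hiff : a ∈ insert u V0 ∪ {g} ↔ a ∈ V0 ∪ {g} := by
          rw [memN0, memN0, mem_insert]
          tauto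
        simp only [hiff]
  · intro a b hab
    by_cases hE : a = b
    · subst hE
      have hau : a ≠ u := by tauto
      by_cases haV : a ∈ insert u V0 ∪ {g}
      · rw [bm_diag _ _ _ _ _ haV, bm_diag _ _ _ _ _ haV]
        by_cases hag : a = g
        · subst hag
          rw [Function.update_self, Function.update_self]
          simp only
          rw [H.kap0_away H.hr, kap0 _ _ _ _ _ c' H.gM, kap0 _ _ _ _ _ c H.gM, H.S_c, H.S_c',
            H.bc, H.bc']
          unfold pt
          simp only [lt_zero (le_refl c), lt_zero (le_refl c'), (away_lt' H.hcp H.hpc H.hr).1,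
            (away_lt' H.hcp H.hpc H.hr).2]
        · rw [Function.update_of_ne hag, Function.update_of_ne hag]
          have haV0 : a ∈ V0 := by
            rw [memN0, mem_insert] at haV
            tauto
          rw [H.kap0_away (H.hAw a haV0).1, H.kap0_away (H.hAw a haV0).2]
      · rw [bm_diag_out _ _ _ _ _ haV, bm_diag_out _ _ _ _ _ haV]
    · by_cases hN : a ∈ M ∪ {g} ∧ b ∈ M ∪ {g}
      · rw [bm_off _ _ _ _ _ _ hE hN.1 hN.2, bm_off _ _ _ _ _ _ hE hN.1 hN.2]
        have hau : a ≠ u := fun e => huN (e ▸ hN.1)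
        have hbu : b ≠ u := fun e => huN (e ▸ hN.2)
        refine H.cr_eq hE ?_ ?_ ⟨fun hh => hbu hh.2, fun hh => hau hh.1⟩
        · rcases memN0.1 hN.1 with hh | hh
          · exact Or.inr (Or.inr (H.hM hh))
          · exact Or.inl hh
        · rcases memN0.1 hN.2 with hh | hh
          · exact Or.inr (Or.inr (H.hM hh))
          · exact Or.inl hh
      · rw [bm_off_out _ _ _ _ _ _ hE hN, bm_off_out _ _ _ _ _ _ hE hN]

/-- the used case -/
theorem Ctx.det_b (H : Ctx pos β V0 M g u r c' c p q) (h2 : StContr) :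
    (BB β (Function.update pos g (r, c)) (insert u V0 ∪ {g}) (insert u M ∪ {g})).det +
      (BB β (Function.update pos g (r, c')) (insert u V0 ∪ {g}) (insert u M ∪ {g})).det =
    (BB β (Function.update pos g (r, q)) (V0 ∪ {g}) (M ∪ {g})).det := by
  have huN : u ∉ M ∪ {g} := by
    rw [memN0, not_or]
    exact ⟨H.uM, H.hug⟩
  have huV : u ∈ insert u V0 ∪ {g} := mem_union_left _ (mem_insert_self _ _)
  have hgV : g ∈ insert u V0 ∪ {g} := mem_union_right _ (mem_singleton_self _)
  have huN1 : u ∈ insert u M ∪ {g} := mem_union_left _ (mem_insert_self _ _)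
  have hgN1 : g ∈ insert u M ∪ {g} := mem_union_right _ (mem_singleton_self _)
  have hgN0 : g ∈ M ∪ {g} := mem_union_right _ (mem_singleton_self _)
  have hgV0 : g ∈ V0 ∪ {g} := mem_union_right _ (mem_singleton_self _)
  have hu1 : Function.update pos g (r, c) u = pos u := Function.update_of_ne H.hug _ _
  have hu2 : Function.update pos g (r, c') u = pos u := Function.update_of_ne H.hug _ _
  have hg1 : Function.update pos g (r, c) g = (r, c) := Function.update_self _ _ _
  have hg2 : Function.update pos g (r, c') g = (r, c') := Function.update_self _ _ _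
  have hg3 : Function.update pos g (r, q) g = (r, q) := Function.update_self _ _ _
  have hiN : ∀ a, a ≠ u → (a ∈ insert u M ∪ {g} ↔ a ∈ M ∪ {g}) := by
    intro a ha
    rw [memN0, memN0, mem_insert]
    tauto
  have hiV : ∀ a, a ≠ u → (a ∈ insert u V0 ∪ {g} ↔ a ∈ V0 ∪ {g}) := by
    intro a ha
    rw [memN0, memN0, mem_insert]
    tauto
  have hyc := H.bc
  have hyc' := H.bc'
  have hrc := (away_lt' H.hcp H.hpc H.hr).1
  have hrc' := (away_lt' H.hcp H.hpc H.hr).2
  have hqc := (away_lt' H.hcp H.hpc H.hq).1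
  have hqc' := (away_lt' H.hcp H.hpc H.hq).2
  refine h2 _ _ _ u g H.hug ?_ ?_ ?_ ?_ ?_ ?_ ?_ ?_ ?_
  · rw [H.diag_u _ _ _ huV, H.diag_u _ _ _ huV, H.kap1_away H.hq,
      kap1 _ _ _ _ _ _ p H.gM H.uM H.hug, kap1 _ _ _ _ _ _ p H.gM H.uM H.hug]
    unfold pt
    simp only [lt_one H.hcp, lt_zero H.hpc.le]
    ring
  · rw [bm_diag _ _ _ _ _ hgV, bm_diag _ _ _ _ _ hgV, hg1, hg2]
    simp only
    rw [H.kap1_away H.hr, kap1 _ _ _ _ _ _ c' H.gM H.uM H.hug,
      kap1 _ _ _ _ _ _ c H.gM H.uM H.hug, H.S_c, H.S_c', hyc, hyc', H.pt_u, H.pt_u, hqc, hqc',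
      lt_one H.hpc, lt_zero H.hcp.le]
    unfold pt
    simp only [lt_zero (le_refl c), lt_zero (le_refl c'), hrc, hrc']
    linear_combination (-1 : ZMod 2) * two
  · rw [bm_off _ _ _ _ _ _ H.hug huN1 hgN1, bm_off _ _ _ _ _ _ H.hug huN1 hgN1, hu1, hu2, hg1, hg2]
    unfold cr
    rw [H.sum_u, H.sum_u, pt_away H.hcp H.hpc H.hq]
    unfold pt
    simp only [lt_one H.hcp, lt_zero H.hpc.le]
    ring
  · rw [bm_off _ _ _ _ _ _ H.hug.symm hgN1 huN1, bm_off _ _ _ _ _ _ H.hug.symm hgN1 huN1, hu1, hu2,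
      hg1, hg2]
    unfold cr
    simp only [H.pt_u]
    rw [hqc, hqc', lt_one H.hpc, lt_zero H.hcp.le]
    linear_combination (-1 : ZMod 2) * two
  · intro a b hab
    by_cases hE : a = b
    · subst hE
      have hau : a ≠ u := by tauto
      have hag : a ≠ g := by tauto
      by_cases haV : a ∈ insert u V0 ∪ {g}
      · rw [bm_diag _ _ _ _ _ haV, bm_diag _ _ _ _ _ haV]
        rw [Function.update_of_ne hag, Function.update_of_ne hag]
        have haV0 : a ∈ V0 := by
          rw [memN0, mem_insert] at haV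
          tauto
        rw [H.kap1_away (H.hAw a haV0).1, H.kap1_away (H.hAw a haV0).2]
      · rw [bm_diag_out _ _ _ _ _ haV, bm_diag_out _ _ _ _ _ haV]
    · by_cases hN : a ∈ insert u M ∪ {g} ∧ b ∈ insert u M ∪ {g}
      · rw [bm_off _ _ _ _ _ _ hE hN.1 hN.2, bm_off _ _ _ _ _ _ hE hN.1 hN.2]
        refine H.cr_eq hE ?_ ?_ ⟨fun hh => ?_, fun hh => ?_⟩
        · have := hN.1
          rw [memN0, mem_insert] at this
          rcases this with (hh | hh) | hh
          · exact Or.inr (Or.inl hh)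
          · exact Or.inr (Or.inr (H.hM hh))
          · exact Or.inl hh
        · have := hN.2
          rw [memN0, mem_insert] at this
          rcases this with (hh | hh) | hh
          · exact Or.inr (Or.inl hh)
          · exact Or.inr (Or.inr (H.hM hh))
          · exact Or.inl hh
        · rcases hab with hab | hab
          · exact hab.2 hh.1
          · exact hab.1 hh.2
        · rcases hab with hab | hab
          · exact hab.1 hh.1
          · exact hab.2 hh.2
      · rw [bm_off_out _ _ _ _ _ _ hE hN, bm_off_out _ _ _ _ _ _ hE hN]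
  · intro a b hab
    by_cases hE : a = b
    · subst hE
      rw [if_pos rfl, bm_diag_out]
      have hau : a = u := by tauto
      subst hau
      rw [memN0, not_or]
      exact ⟨H.hu0, H.hug⟩
    · rw [if_neg hE, bm_off_out _ _ _ _ _ _ hE]
      rintro ⟨ha, hb⟩
      rcases hab with hh | hh
      · exact huN (hh ▸ ha)
      · exact huN (hh ▸ hb)
  · intro a b hau hag hbu hbg
    by_cases hE : a = b
    · subst hE
      by_cases haV : a ∈ V0 ∪ {g}
      · rw [bm_diag _ _ _ _ _ haV, bm_diag _ _ _ _ _ ((hiV a hau).2 haV),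
          Function.update_of_ne hag, Function.update_of_ne hag]
        have haV0 : a ∈ V0 := by
          rw [memN0] at haV
          tauto
        rw [H.kap3_away (H.hAw a haV0).1, H.kap3_away (H.hAw a haV0).2]
      · rw [bm_diag_out _ _ _ _ _ haV, bm_diag_out _ _ _ _ _ (fun hh => haV ((hiV a hau).1 hh))]
    · by_cases hN : a ∈ M ∪ {g} ∧ b ∈ M ∪ {g}
      · rw [bm_off _ _ _ _ _ _ hE hN.1 hN.2,
          bm_off _ _ _ _ _ _ hE ((hiN a hau).2 hN.1) ((hiN b hbu).2 hN.2),
          Function.update_of_ne hag, Function.update_of_ne hag, Function.update_of_ne hbg,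
          Function.update_of_ne hbg]
      · rw [bm_off_out _ _ _ _ _ _ hE hN, bm_off_out _ _ _ _ _ _ hE
          (fun hh => hN ⟨(hiN a hau).1 hh.1, (hiN b hbu).1 hh.2⟩)]
  · intro b hbu hbg
    by_cases hb : b ∈ M
    · have hbN0 : b ∈ M ∪ {g} := mem_union_left _ hb
      have hbN1 : b ∈ insert u M ∪ {g} := (hiN b hbu).2 hbN0
      have hb3 : ∀ x : ℚ × ℚ, Function.update pos g x b = pos b :=
        fun x => Function.update_of_ne hbg _ _
      obtain ⟨w1, w2⟩ := H.hAw b (H.hM hb)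
      constructor
      · rw [bm_off _ _ _ _ _ _ (Ne.symm hbg) hgN0 hbN0, bm_off _ _ _ _ _ _ (Ne.symm hbg) hgN1 hbN1,
          bm_off _ _ _ _ _ _ (Ne.symm hbu) huN1 hbN1, hg1, hg3, hb3, hb3, hu1]
        have e1 : cr (pos u) (pos b) = pt (pos b) p + pt (pos b) q := H.sum_u _
        have e2 : pt (pos b) c = pt (pos b) p := by
          unfold pt
          rw [(away_lt' H.hcp H.hpc w1).1, (away_lt' H.hcp H.hpc w2).1]
        rw [e1]
        unfold cr
        simp only [e2]
        linear_combination (-(pt (pos b) p)) * two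
      · rw [bm_off _ _ _ _ _ _ hbg hbN0 hgN0, bm_off _ _ _ _ _ _ hbg hbN1 hgN1,
          bm_off _ _ _ _ _ _ hbu hbN1 huN1, hg1, hg3, hb3, hb3, hu1]
        unfold cr
        rw [← H.pt3 w1, ← H.pt3 w2]
        ring
    · have hbN0 : b ∉ M ∪ {g} := by
        rw [memN0, not_or]
        exact ⟨hb, hbg⟩
      have hbN1 : b ∉ insert u M ∪ {g} := fun hh => hbN0 ((hiN b hbu).1 hh)
      constructor
      · rw [bm_off_out _ _ _ _ _ _ (Ne.symm hbg) (fun hh => hbN0 hh.2),
          bm_off_out _ _ _ _ _ _ (Ne.symm hbg) (fun hh => hbN1 hh.2),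
          bm_off_out _ _ _ _ _ _ (Ne.symm hbu) (fun hh => hbN1 hh.2), add_zero]
      · rw [bm_off_out _ _ _ _ _ _ hbg (fun hh => hbN0 hh.1),
          bm_off_out _ _ _ _ _ _ hbg (fun hh => hbN1 hh.1),
          bm_off_out _ _ _ _ _ _ hbu (fun hh => hbN1 hh.1), add_zero]
  · rw [bm_diag _ _ _ _ _ hgV0, bm_diag _ _ _ _ _ hgV, H.diag_u _ _ _ huV,
      bm_off _ _ _ _ _ _ H.hug huN1 hgN1, bm_off _ _ _ _ _ _ H.hug.symm hgN1 huN1, hg1, hg3, hu1]
    simp only
    rw [← H.kap3_away H.hr, ← H.kap3_away H.hq]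
    have e1 : cr (pos u) (r, c) = pt (r, c) p + pt (r, c) q := H.sum_u _
    rw [e1]
    unfold cr
    simp only [H.pt_u]
    rw [kap1 _ _ _ _ _ _ c H.gM H.uM H.hug, kap1 _ _ _ _ _ _ p H.gM H.uM H.hug, H.S_c, hyc, H.pt_u,
      H.pt_u, lt_one H.hpc, lt_zero (le_refl p), hqc]
    unfold pt
    simp only [lt_zero (le_refl c), hrc, lt_zero H.hpc.le]
    have a1 : lt2 p r + lt2 r p = 1 := lt_anti (away_ne H.hcp H.hpc H.hr).1.symm
    have a2 : lt2 q r + lt2 r q = 1 := lt_anti H.hrq.symm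
    have a3 : lt2 q c + lt2 c q = 1 := lt_anti (away_ne H.hcp H.hpc H.hq).2.1
    rw [hqc] at a3
    linear_combination -a1 - a2 - a3 - (3 + β p +
      (∑ m ∈ M, (lt2 (pos m).1 p + lt2 (pos m).2 p)) + lt2 r p + lt2 q p) * two

end BChord

open BChord in
theorem I_BChord (h1 : StDiag) (h2 : StContr) : StBChord := by
  intro ι _ _ β pos V g u r c' c p q h hgV huV hE hcp hpc hq hy hr hrq hAw hInd
  have hug : u ≠ g := by
    rintro rfl
    exact hgV huV
  have hV : insert u (V.erase u) = V := insert_erase huV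
  have hu0 : u ∉ V.erase u := notMem_erase u V
  have hg0 : g ∉ V.erase u := fun e => hgV (mem_of_mem_erase e)
  have HC : ∀ M ⊆ V.erase u, Ctx pos β (V.erase u) M g u r c' c p q := fun M hM =>
    ⟨hcp, hpc, hq, hy, hr, hrq, hug, hg0, hu0, hE,
      fun w hw => hAw w (mem_of_mem_erase hw) (ne_of_mem_erase hw), hM⟩
  generalize hV0 : V.erase u = V0 at *
  unfold SB
  rw [← hV, sum_powerset_insert hu0, sum_powerset_insert hu0, add_add_add_comm,
    ← sum_add_distrib, ← sum_add_distrib]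
  congr 1
  · refine sum_congr rfl fun M hM => ?_
    have H := HC M (mem_powerset.1 hM)
    rw [hInd _ _ (fun z hz => H.kap0_away hz), ← add_mul, H.det_a h1]
  · refine sum_congr rfl fun M hM => ?_
    have H := HC M (mem_powerset.1 hM)
    rw [hInd _ _ (fun z hz => H.kap1_away hz), ← add_mul, H.det_b h2,
      hInd _ _ (fun z hz => H.kap3_away hz)]

end Pool.Agent.Work.MP_7794fd_co.T
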