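import Pool.Agent.Work.MP_7794fd_co.T.Stmts

/-! Project MP_7794fd_co, module T: item BFar, all free chords lie behind all forced chords. -/

set_option autoImplicit false

namespace Pool.Agent.Work.MP_7794fd_co.T

open Finset Matrix
open Pool.Agent.Work.MP_7794fd_co.R

namespace BFar

lemma two (x : ZMod 2) : x + x = 0 := CharTwo.add_self_eq_zero x

/-- a chord behind `z` does not contribute -/
lemma pt_far {p : ℚ × ℚ} {z t : ℚ} (h : t < p.1 ∧ t < p.2) (hz : z < t) : pt p z = 0 := by
  unfold pt lt2
  rw [if_neg (not_lt.2 (hz.le.trans h.1.le)), if_neg (not_lt.2 (hz.le.trans h.2.le))]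
  rfl

/-- a chord before `z` does not contribute -/
lemma pt_near {p : ℚ × ℚ} {z t : ℚ} (h : p.1 < t ∧ p.2 < t) (hz : t < z) : pt p z = 0 := by
  unfold pt lt2
  rw [if_pos (h.1.trans hz), if_pos (h.2.trans hz)]
  rfl

variable {ι : Type} [Fintype ι] [DecidableEq ι]

omit [Fintype ι] in
lemma kb_lt {b : ℚ → ZMod 2} {pos : ι → ℚ × ℚ} {V W M : Finset ι} {t z : ℚ} (hVW : Disjoint V W)
    (hV : ∀ u ∈ V, t < (pos u).1 ∧ t < (pos u).2) (hM : M ⊆ V) (hz : z < t) :
    kb b pos (M ∪ W) z = kb b pos W z := by
  unfold kb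
  rw [sum_union (hVW.mono_left hM), sum_eq_zero (s := M) fun m hm => pt_far (hV m (hM hm)) hz,
    zero_add]

omit [Fintype ι] in
lemma kb_gt {b : ℚ → ZMod 2} {pos : ι → ℚ × ℚ} {V W M : Finset ι} {t z : ℚ} (hVW : Disjoint V W)
    (hW : ∀ w ∈ W, (pos w).1 < t ∧ (pos w).2 < t) (hM : M ⊆ V) (hb : ∀ z, t < z → b z = 0)
    (hz : t < z) : kb b pos (M ∪ W) z = kap pos t M z := by
  unfold kb kap
  rw [sum_union (hVW.mono_left hM), sum_eq_zero (s := W) fun m hm => pt_near (hW m hm) hz,
    hb z hz, lt2, if_pos hz, two, add_zero]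

/-- the matrix is block diagonal -/
lemma mat {b : ℚ → ZMod 2} {pos : ι → ℚ × ℚ} {V W M : Finset ι} {t : ℚ} (hVW : Disjoint V W)
    (hV : ∀ u ∈ V, t < (pos u).1 ∧ t < (pos u).2)
    (hW : ∀ w ∈ W, (pos w).1 < t ∧ (pos w).2 < t) (hM : M ⊆ V) (hb : ∀ z, t < z → b z = 0) :
    BB b pos (V ∪ W) (M ∪ W) = BB b pos W W * BM pos t V M := by
  have hVn : ∀ u ∈ W, u ∉ V := fun u hu hu' => (disjoint_left.1 hVW) hu' hu
  have hL : ∀ u v, (BB b pos W W * BM pos t V M) u v =
      if u ∈ W then BB b pos W W u v else BM pos t V M u v := by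
    intro u v
    rw [Matrix.mul_apply]
    by_cases hu : u ∈ W
    · rw [if_pos hu]
      rw [sum_eq_single v]
      · by_cases hv : v ∈ W
        · have h1 : BM pos t V M v v = 1 := by
            unfold BM
            rw [if_pos rfl, if_neg (hVn v hv)]
          rw [h1, mul_one]
        · have h1 : BB b pos W W u v = 0 := by
            unfold BB
            rw [if_neg (fun h : u = v => hv (h ▸ hu)),
              if_neg (show ¬(u ∈ W ∧ v ∈ W) from fun h => hv h.2)]
          rw [h1, zero_mul]
      · intro k _ hk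
        by_cases hkW : k ∈ W
        · have h1 : BM pos t V M k v = 0 := by
            unfold BM
            rw [if_neg hk, if_neg (fun h => hVn k hkW (hM h.1))]
          rw [h1, mul_zero]
        · have h1 : BB b pos W W u k = 0 := by
            unfold BB
            rw [if_neg (fun h : u = k => hkW (h ▸ hu)),
              if_neg (show ¬(u ∈ W ∧ k ∈ W) from fun h => hkW h.2)]
          rw [h1, zero_mul]
      · intro h
        exact absurd (mem_univ v) h
    · rw [if_neg hu]
      rw [sum_eq_single u]
      · have h1 : BB b pos W W u u = 1 := by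
          unfold BB
          rw [if_pos rfl, if_neg hu]
        rw [h1, one_mul]
      · intro k _ hk
        have h1 : BB b pos W W u k = 0 := by
          unfold BB
          rw [if_neg (fun h => hk h.symm), if_neg (fun h => hu h.1)]
        rw [h1, zero_mul]
      · intro h
        exact absurd (mem_univ u) h
  ext u v
  rw [hL]
  by_cases hu : u ∈ W
  · rw [if_pos hu]
    unfold BB
    by_cases huv : u = v
    · rw [if_pos huv, if_pos huv, if_pos (mem_union_right _ hu), if_pos hu,
        kb_lt hVW hV hM (hW u hu).1, kb_lt hVW hV hM (hW u hu).2]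
    · rw [if_neg huv, if_neg huv]
      by_cases hv : v ∈ W
      · rw [if_pos ⟨mem_union_right _ hu, mem_union_right _ hv⟩, if_pos ⟨hu, hv⟩]
      · rw [if_neg (show ¬(u ∈ W ∧ v ∈ W) from fun h => hv h.2)]
        by_cases hv' : v ∈ M
        · rw [if_pos ⟨mem_union_right _ hu, mem_union_left _ hv'⟩]
          unfold cr
          rw [pt_far (hV v (hM hv')) (hW u hu).1, pt_far (hV v (hM hv')) (hW u hu).2, add_zero]
        · rw [if_neg]
          rintro ⟨-, h⟩
          rcases mem_union.1 h with h | h
          · exact hv' h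
          · exact hv h
  · rw [if_neg hu]
    unfold BB BM
    by_cases huv : u = v
    · rw [if_pos huv, if_pos huv]
      by_cases huV : u ∈ V
      · rw [if_pos (mem_union_left _ huV), if_pos huV, kb_gt hVW hW hM hb (hV u huV).1,
          kb_gt hVW hW hM hb (hV u huV).2]
      · rw [if_neg huV, if_neg]
        intro h
        rcases mem_union.1 h with h | h
        · exact huV h
        · exact hu h
    · rw [if_neg huv, if_neg huv]
      by_cases huM : u ∈ M
      · by_cases hv : v ∈ M
        · rw [if_pos ⟨mem_union_left _ huM, mem_union_left _ hv⟩, if_pos ⟨huM, hv⟩]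
        · rw [if_neg (show ¬(u ∈ M ∧ v ∈ M) from fun h => hv h.2)]
          by_cases hvW : v ∈ W
          · rw [if_pos ⟨mem_union_left _ huM, mem_union_right _ hvW⟩]
            unfold cr
            rw [pt_near (hW v hvW) (hV u (hM huM)).1, pt_near (hW v hvW) (hV u (hM huM)).2,
              add_zero]
          · rw [if_neg]
            rintro ⟨-, h⟩
            rcases mem_union.1 h with h | h
            · exact hv h
            · exact hvW h
      · rw [if_neg (show ¬(u ∈ M ∧ v ∈ M) from fun h => huM h.1), if_neg]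
        rintro ⟨h, -⟩
        rcases mem_union.1 h with h | h
        · exact huM h
        · exact hu h

end BFar

open BFar in
theorem I_BFar (hbase : StBase) : StBFar := by
  intro ι _ _ b pos V W t h hVW hgen hV hW hb hh
  have h1 : SS pos t V ∅ (fun _ => 1) = 1 := hbase pos t V (fun _ => 1) hgen hV
  unfold SS at h1
  simp only [union_empty, mul_one] at h1
  have h2 : SB b pos V W h = ∑ M ∈ V.powerset,
      (BB b pos W W).det * h (kb b pos W) * (BM pos t V M).det := by
    unfold SB
    refine sum_congr rfl fun M hM => ?_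
    have hM' := mem_powerset.1 hM
    rw [mat hVW hV hW hM' hb, Matrix.det_mul,
      hh (kb b pos (M ∪ W)) (kb b pos W) fun z hz => kb_lt hVW hV hM' hz]
    ring
  rw [h2, ← mul_sum, h1, mul_one]
  unfold SB
  rw [powerset_empty, sum_singleton, empty_union]

end Pool.Agent.Work.MP_7794fd_co.T
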