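import Pool.Agent.Work.MP_7794fd_co.R.Stmts

/-! Project MP_7794fd_co, module T: circuits with three bridges of three attachments.
Definitions and statements of the items.  Every item is a theorem with the given name and
signature, in its own file. -/

set_option autoImplicit false

namespace Pool.Agent.Work.MP_7794fd_co.T

open Finset Matrix
open Pool.Agent.Work.MP_7794fd_co.R

/-! ### State sums with an arbitrary base colouring

The circle is cut open in the gap before all points.  The root chord `(r, s)` is given by the base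
colouring `b = pt (r, s)`. -/

section Chords

variable {ι : Type} [Fintype ι] [DecidableEq ι]

/-- the colour of the point `z` if the chords of `M` are used, with the base colouring `b` -/
def kb (b : ℚ → ZMod 2) (pos : ι → ℚ × ℚ) (M : Finset ι) (z : ℚ) : ZMod 2 :=
  b z + ∑ m ∈ M, pt (pos m) z

/-- the matrix of the set `M` of used chords among the chords `V` -/
def BB (b : ℚ → ZMod 2) (pos : ι → ℚ × ℚ) (V M : Finset ι) : Matrix ι ι (ZMod 2) := fun u v =>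
  if u = v then (if u ∈ V then 1 + kb b pos M (pos u).1 + kb b pos M (pos u).2 else 1)
  else if u ∈ M ∧ v ∈ M then cr (pos u) (pos v) else 0

/-- the state sum: the chords of `W` are forced, the chords of `V` are free -/
def SB (b : ℚ → ZMod 2) (pos : ι → ℚ × ℚ) (V W : Finset ι) (h : (ℚ → ZMod 2) → ZMod 2) :
    ZMod 2 :=
  ∑ M ∈ V.powerset, (BB b pos (V ∪ W) (M ∪ W)).det * h (kb b pos (M ∪ W))

/-- all points of `A` have colour zero -/
def noc (A : Finset ℚ) (κ : ℚ → ZMod 2) : ZMod 2 := ∏ a ∈ A, (1 + κ a)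

/-- `A` without the ends of the pair `p` -/
def rest (A : Finset ℚ) (p : ℚ × ℚ) : Finset ℚ := (A.erase p.1).erase p.2

/-- a functional of the colours of a set of points which is a multilinear polynomial -/
structure Multi (H : Finset ℚ → (ℚ → ZMod 2) → ZMod 2) : Prop where
  loc : ∀ (A : Finset ℚ) (κ₁ κ₂ : ℚ → ZMod 2), (∀ a ∈ A, κ₁ a = κ₂ a) → H A κ₁ = H A κ₂
  ins : ∀ (A : Finset ℚ) (c c' : ℚ) (κ : ℚ → ZMod 2), c ∉ A → c' ∉ A →
    H (insert c A) κ + H (insert c' A) κ = (κ c + κ c') * H A κ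

/-- one bridge used: the root chord is a pair of `A` -/
def T1 (pos : ι → ℚ × ℚ) (V : Finset ι) (H₁ H₂ H₃ : Finset ℚ → (ℚ → ZMod 2) → ZMod 2)
    (A B C : Finset ℚ) : ZMod 2 :=
  ∑ p ∈ pairs A, SB (pt p) pos V ∅ (fun κ => H₁ (rest A p) κ * H₂ B κ * H₃ C κ)

/-- two bridges used: the root chord is a pair of `A`, the forced chord `g` is a pair of `B` -/
def T2 (pos : ι → ℚ × ℚ) (V : Finset ι) (g : ι) (H₁ H₂ H₃ : Finset ℚ → (ℚ → ZMod 2) → ZMod 2)
    (A B C : Finset ℚ) : ZMod 2 :=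
  ∑ p ∈ pairs A, ∑ p' ∈ pairs B, SB (pt p) (Function.update pos g p') V {g}
    (fun κ => H₁ (rest A p) κ * H₂ (rest B p') κ * H₃ C κ)

/-- the functional of three bridges -/
def FF (pos : ι → ℚ × ℚ) (V : Finset ι) (g : ι) (A B C : Finset ℚ) : ZMod 2 :=
  T1 pos V mono mono mono A B C + T1 pos V mono mono mono B A C + T1 pos V mono mono mono C A B +
    T2 pos V g allc mono mono A B C + T2 pos V g mono allc mono A B C +
    T2 pos V g mono mono noc B C A + T2 pos V g allc mono mono B C A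

/-- the value of the functional; `i, j, k` are the numbers of points of the bridges -/
def gam (i j k : ℕ) : ZMod 2 :=
  if (i = 3 ∧ j = 3 ∧ k = 3) ∨ (i = 3 ∧ (j = 1 ∨ j = 2) ∧ (k = 1 ∨ k = 2)) ∨
    (j = 3 ∧ (i = 1 ∨ i = 2) ∧ (k = 1 ∨ k = 2)) ∨ (k = 3 ∧ (i = 1 ∨ i = 2) ∧ (j = 1 ∨ j = 2))
  then 1 else 0

/-- the point moves from `c'` to `c` over the end `p` of the chord `u` with the other end `q`; the
other marked points are those of `Z` -/
structure Sl (pos : ι → ℚ × ℚ) (V : Finset ι) (u : ι) (c' c p q : ℚ) (Z : Finset ℚ) : Prop where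
  mem : u ∈ V
  ends : EndsOf pos u p q
  lt : c' < p
  lt' : p < c
  away : Away c' c q
  other : ∀ w ∈ V, w ≠ u → Away c' c (pos w).1 ∧ Away c' c (pos w).2
  out : ∀ z ∈ Z, Away c' c z
  gen : Gen pos V Z

/-- the slide equation for a functional `f` of the free chords and of a set of points -/
def SlEq (V : Finset ι) (u : ι) (c' c q : ℚ) (A : Finset ℚ)
    (f : Finset ι → Finset ℚ → ZMod 2) : Prop :=
  f V (insert c A) + f V (insert c' A) =
    f (V.erase u) (insert c A) + f (V.erase u) (insert q A) + f V A + f (V.erase u) A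

end Chords

/-! ### Statements: the state sums -/

/-- 1: the chord `u` is used or not. -/
def StBSplit : Prop := ∀ {ι : Type} [Fintype ι] [DecidableEq ι] (b : ℚ → ZMod 2)
  (pos : ι → ℚ × ℚ) (V W : Finset ι) (u : ι) (h : (ℚ → ZMod 2) → ZMod 2), u ∈ V → Disjoint V W →
    SB b pos V W h = SB b pos (V.erase u) (insert u W) h +
      SB b pos (V.erase u) W (fun κ => (1 + κ (pos u).1 + κ (pos u).2) * h κ)

/-- 2: the colour change of a point which moves over an end of the free chord `u`. -/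
def StBPoint : Prop := ∀ {ι : Type} [Fintype ι] [DecidableEq ι] (b : ℚ → ZMod 2)
  (pos : ι → ℚ × ℚ) (V W : Finset ι) (u : ι) (c' c p q : ℚ) (h : (ℚ → ZMod 2) → ZMod 2),
  u ∈ V → Disjoint V W → EndsOf pos u p q → c' < p → p < c → Away c' c q → b c = b c' →
  (∀ w ∈ V ∪ W, w ≠ u → Away c' c (pos w).1 ∧ Away c' c (pos w).2) →
    SB b pos V W (fun κ => (κ c + κ c') * h κ) = SB b pos (V.erase u) (insert u W) h

/-- 3: an end of the forced chord `g` moves over an end of the free chord `u`. -/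
def StBChord : Prop := ∀ {ι : Type} [Fintype ι] [DecidableEq ι] (b : ℚ → ZMod 2)
  (pos : ι → ℚ × ℚ) (V : Finset ι) (g u : ι) (r c' c p q : ℚ) (h : (ℚ → ZMod 2) → ZMod 2),
  g ∉ V → u ∈ V → EndsOf pos u p q → c' < p → p < c → Away c' c q →
  (∀ z, c' ≤ z → z ≤ c → b z = b c) → Away c' c r → r ≠ q →
  (∀ w ∈ V, w ≠ u → Away c' c (pos w).1 ∧ Away c' c (pos w).2) → Indep c' c h →
    SB b (Function.update pos g (r, c)) V {g} h + SB b (Function.update pos g (r, c')) V {g} h =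
    SB b (Function.update pos g (r, c)) (V.erase u) {g} h +
      SB b (Function.update pos g (r, q)) (V.erase u) {g} h

/-- 4: an end of the root chord moves over an end of the free chord `u`. -/
def StBRoot : Prop := ∀ {ι : Type} [Fintype ι] [DecidableEq ι] (pos : ι → ℚ × ℚ)
  (V W : Finset ι) (u : ι) (r c' c p q : ℚ) (h : (ℚ → ZMod 2) → ZMod 2),
  u ∈ V → Disjoint V W → EndsOf pos u p q → c' < p → p < c → Away c' c q → Away c' c r → r ≠ q →
  (∀ w ∈ V ∪ W, w ≠ u → Away c' c (pos w).1 ∧ Away c' c (pos w).2) → Indep c' c h →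
    SB (pt (r, c)) pos V W h + SB (pt (r, c')) pos V W h =
    SB (pt (r, c)) pos (V.erase u) W h + SB (pt (r, q)) pos (V.erase u) W h

/-- 5: all free chords lie behind all forced chords and all marked points. -/
def StBFar : Prop := ∀ {ι : Type} [Fintype ι] [DecidableEq ι] (b : ℚ → ZMod 2)
  (pos : ι → ℚ × ℚ) (V W : Finset ι) (t : ℚ) (h : (ℚ → ZMod 2) → ZMod 2), Disjoint V W →
  Gen pos V ∅ → (∀ u ∈ V, t < (pos u).1 ∧ t < (pos u).2) →
  (∀ w ∈ W, (pos w).1 < t ∧ (pos w).2 < t) → (∀ z, t < z → b z = 0) →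
  (∀ κ₁ κ₂ : ℚ → ZMod 2, (∀ z < t, κ₁ z = κ₂ z) → h κ₁ = h κ₂) →
    SB b pos V W h = SB b pos ∅ W h

/-- 6: the three functionals. -/
def StMulti : Prop := Multi mono ∧ Multi allc ∧ Multi noc

/-- 7: the symmetry of a chord. -/
def StBSwap : Prop := ∀ {ι : Type} [Fintype ι] [DecidableEq ι] (b : ℚ → ZMod 2)
  (pos pos' : ι → ℚ × ℚ) (V W : Finset ι) (h : (ℚ → ZMod 2) → ZMod 2),
  (∀ u ∈ V ∪ W, pos' u = pos u ∨ pos' u = (pos u).swap) → SB b pos V W h = SB b pos' V W h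

/-- 8: a point which does not belong to a used pair moves over an end of a free chord. -/
def StSlP : Prop := ∀ {ι : Type} [Fintype ι] [DecidableEq ι] (b : ℚ → ZMod 2)
  (pos : ι → ℚ × ℚ) (V W : Finset ι) (u : ι) (c' c p q : ℚ) (C : Finset ℚ)
  (H : Finset ℚ → (ℚ → ZMod 2) → ZMod 2) (h : (ℚ → ZMod 2) → ZMod 2), Multi H → Disjoint V W →
  Sl pos V u c' c p q C → (∀ z, c' ≤ z → z ≤ c → b z = b c) →
  (∀ w ∈ W, Away c' c (pos w).1 ∧ Away c' c (pos w).2) →
    SB b pos V W (fun κ => H (insert c C) κ * h κ) +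
        SB b pos V W (fun κ => H (insert c' C) κ * h κ) =
      SB b pos (V.erase u) W (fun κ => H (insert c C) κ * h κ) +
        SB b pos (V.erase u) W (fun κ => H (insert q C) κ * h κ) +
        SB b pos V W (fun κ => H C κ * h κ) + SB b pos (V.erase u) W (fun κ => H C κ * h κ)

/-- 9: a point of the first set of `T1` moves. -/
def StT1a : Prop := ∀ {ι : Type} [Fintype ι] [DecidableEq ι] (pos : ι → ℚ × ℚ) (V : Finset ι)
  (u : ι) (c' c p q : ℚ) (H₁ H₂ H₃ : Finset ℚ → (ℚ → ZMod 2) → ZMod 2) (A B C : Finset ℚ),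
  Multi H₁ → Multi H₂ → Multi H₃ → Sl pos V u c' c p q (A ∪ B ∪ C) →
    SlEq V u c' c q A (fun V' A' => T1 pos V' H₁ H₂ H₃ A' B C)

/-- 10: a point of the second or third set of `T1` moves. -/
def StT1b : Prop := ∀ {ι : Type} [Fintype ι] [DecidableEq ι] (pos : ι → ℚ × ℚ) (V : Finset ι)
  (u : ι) (c' c p q : ℚ) (H₁ H₂ H₃ : Finset ℚ → (ℚ → ZMod 2) → ZMod 2) (A B C : Finset ℚ),
  Multi H₁ → Multi H₂ → Multi H₃ → Sl pos V u c' c p q (A ∪ B ∪ C) →
    SlEq V u c' c q B (fun V' B' => T1 pos V' H₁ H₂ H₃ A B' C) ∧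
    SlEq V u c' c q C (fun V' C' => T1 pos V' H₁ H₂ H₃ A B C')

/-- 11: a point of the first set of `T2` moves. -/
def StT2a : Prop := ∀ {ι : Type} [Fintype ι] [DecidableEq ι] (pos : ι → ℚ × ℚ) (V : Finset ι)
  (g u : ι) (c' c p q : ℚ) (H₁ H₂ H₃ : Finset ℚ → (ℚ → ZMod 2) → ZMod 2) (A B C : Finset ℚ),
  g ∉ V → Multi H₁ → Multi H₂ → Multi H₃ → Sl pos V u c' c p q (A ∪ B ∪ C) →
    SlEq V u c' c q A (fun V' A' => T2 pos V' g H₁ H₂ H₃ A' B C)

/-- 12: a point of the second set of `T2` moves. -/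
def StT2b : Prop := ∀ {ι : Type} [Fintype ι] [DecidableEq ι] (pos : ι → ℚ × ℚ) (V : Finset ι)
  (g u : ι) (c' c p q : ℚ) (H₁ H₂ H₃ : Finset ℚ → (ℚ → ZMod 2) → ZMod 2) (A B C : Finset ℚ),
  g ∉ V → Multi H₁ → Multi H₂ → Multi H₃ → Sl pos V u c' c p q (A ∪ B ∪ C) →
    SlEq V u c' c q B (fun V' B' => T2 pos V' g H₁ H₂ H₃ A B' C)

/-- 13: a point of the third set of `T2` moves. -/
def StT2c : Prop := ∀ {ι : Type} [Fintype ι] [DecidableEq ι] (pos : ι → ℚ × ℚ) (V : Finset ι)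
  (g u : ι) (c' c p q : ℚ) (H₁ H₂ H₃ : Finset ℚ → (ℚ → ZMod 2) → ZMod 2) (A B C : Finset ℚ),
  g ∉ V → Multi H₁ → Multi H₂ → Multi H₃ → Sl pos V u c' c p q (A ∪ B ∪ C) →
    SlEq V u c' c q C (fun V' C' => T2 pos V' g H₁ H₂ H₃ A B C')

/-- 14: the slide equations of the functional. -/
def StFSl : Prop := ∀ {ι : Type} [Fintype ι] [DecidableEq ι] (pos : ι → ℚ × ℚ) (V : Finset ι)
  (g u : ι) (c' c p q : ℚ) (A B C : Finset ℚ), g ∉ V → Sl pos V u c' c p q (A ∪ B ∪ C) →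
    SlEq V u c' c q A (fun V' A' => FF pos V' g A' B C) ∧
    SlEq V u c' c q B (fun V' B' => FF pos V' g A B' C) ∧
    SlEq V u c' c q C (fun V' C' => FF pos V' g A B C')

/-- the functional without free chords: one bridge used -/
def E1 (H₁ H₂ H₃ : Finset ℚ → (ℚ → ZMod 2) → ZMod 2) (A B C : Finset ℚ) : ZMod 2 :=
  ∑ p ∈ pairs A, H₁ (rest A p) (pt p) * H₂ B (pt p) * H₃ C (pt p)

/-- the functional without free chords: two bridges used -/
def E2 (H₁ H₂ H₃ : Finset ℚ → (ℚ → ZMod 2) → ZMod 2) (A B C : Finset ℚ) : ZMod 2 :=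
  ∑ p ∈ pairs A, ∑ p' ∈ pairs B, cr p p' *
    (H₁ (rest A p) (fun z => pt p z + pt p' z) * H₂ (rest B p') (fun z => pt p z + pt p' z) *
      H₃ C (fun z => pt p z + pt p' z))

/-- 15: the functional without free chords. -/
def StEval : Prop := ∀ {ι : Type} [Fintype ι] [DecidableEq ι] (pos : ι → ℚ × ℚ) (g : ι)
  (H₁ H₂ H₃ : Finset ℚ → (ℚ → ZMod 2) → ZMod 2) (A B C : Finset ℚ), Disjoint A B →
  T1 pos ∅ H₁ H₂ H₃ A B C = E1 H₁ H₂ H₃ A B C ∧ T2 pos ∅ g H₁ H₂ H₃ A B C = E2 H₁ H₂ H₃ A B C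

/-- the functional of three bridges without free chords -/
def E0 (A B C : Finset ℚ) : ZMod 2 :=
  E1 mono mono mono A B C + E1 mono mono mono B A C + E1 mono mono mono C A B +
    E2 allc mono mono A B C + E2 mono allc mono A B C + E2 mono mono noc B C A +
    E2 allc mono mono B C A

/-- 16: words without free chords. -/
def StWord : Prop := ∀ A B C : Finset ℚ, A.card ≤ 3 → B.card ≤ 3 → C.card ≤ 3 → Disjoint A B →
  Disjoint A C → Disjoint B C → E0 A B C = gam A.card B.card C.card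

/-- 16b: the finite computation. -/
def StWordN : Prop := ∀ (n : ℕ) (A B C : Finset ℕ), A.card ≤ 3 → B.card ≤ 3 → C.card ≤ 3 →
  Disjoint A B → Disjoint A C → Disjoint B C → A ∪ B ∪ C = range n →
    E0 (A.image fun i : ℕ => (i : ℚ)) (B.image fun i : ℕ => (i : ℚ))
      (C.image fun i : ℕ => (i : ℚ)) = gam A.card B.card C.card

/-- 17: all free chords lie behind all marked points. -/
def StFFar : Prop := ∀ {ι : Type} [Fintype ι] [DecidableEq ι] (pos : ι → ℚ × ℚ) (V : Finset ι)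
  (g : ι) (t : ℚ) (A B C : Finset ℚ), g ∉ V → Gen pos V ∅ →
  (∀ u ∈ V, t < (pos u).1 ∧ t < (pos u).2) → (∀ z ∈ A ∪ B ∪ C, z < t) →
    FF pos V g A B C = FF pos ∅ g A B C

/-- 18: the functional is constant. -/
def StFF : Prop := ∀ {ι : Type} [Fintype ι] [DecidableEq ι] (pos : ι → ℚ × ℚ) (V : Finset ι)
  (g : ι) (A B C : Finset ℚ), g ∉ V → A.card ≤ 3 → B.card ≤ 3 → C.card ≤ 3 → Disjoint A B →
  Disjoint A C → Disjoint B C → Gen pos V (A ∪ B ∪ C) →
    FF pos V g A B C = gam A.card B.card C.card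

/-! ### Good pairings -/

/-- the position of `i` after the rotation which moves `r` to `0` -/
def rot (n r i : ℕ) : ℕ := if r ≤ i then i - r else i + n - r

/-- the pair of the positions of the ends of a chord after the rotation, in increasing order -/
def rotp (n r : ℕ) (p : ℕ × ℕ) : ℕ × ℕ :=
  (min (rot n r p.1) (rot n r p.2), max (rot n r p.1) (rot n r p.2))

/-- the positions as rational numbers -/
def PQ {ι : Type} (e : ι → ℕ × ℕ) : ι → ℚ × ℚ := fun u => (((e u).1 : ℚ), ((e u).2 : ℚ))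

/-- 19: rotation of the circle. -/
def StRot : Prop := ∀ {ι : Type} [Fintype ι] [DecidableEq ι] (n r s : ℕ) (V M : Finset ι)
  (e : ι → ℕ × ℕ), r < s → s < n → M ⊆ V →
  (∀ u ∈ V, (e u).1 < n ∧ (e u).2 < n ∧ (e u).1 ≠ (e u).2 ∧ (e u).1 ≠ r ∧ (e u).1 ≠ s ∧
    (e u).2 ≠ r ∧ (e u).2 ≠ s) →
  (∀ u ∈ V, ∀ v ∈ V, u ≠ v → (e u).1 ≠ (e v).1 ∧ (e u).1 ≠ (e v).2 ∧ (e u).2 ≠ (e v).1 ∧
    (e u).2 ≠ (e v).2) →
  ∃ δ : ZMod 2,
    (BM (PQ fun u => rotp n r (e u)) ((rot n r s : ℕ) : ℚ) V M).det =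
      (BB (pt ((r : ℚ), (s : ℚ))) (PQ e) V M).det ∧
    ∀ i < n, i ≠ r → i ≠ s → (∀ u ∈ M, i ≠ (e u).1 ∧ i ≠ (e u).2) →
      kap (PQ fun u => rotp n r (e u)) ((rot n r s : ℕ) : ℚ) M ((rot n r i : ℕ) : ℚ) =
        kb (pt ((r : ℚ), (s : ℚ))) (PQ e) M (i : ℚ) + δ

/-- 20: from a state with nonzero determinant to a good pairing.  `N` is the set of used chords
(without the root chord `(r, s)`). -/
def StGood : Prop := ∀ (n r s : ℕ) (R : ℕ → ℕ → Prop) (e : Fin n → ℕ × ℕ) (V N : Finset (Fin n)),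
  r < s → s < n → N ⊆ V → (∀ i, R i i) → (∀ i j, R i j → R j i) →
  (∀ i j k, R i j → R j k → R i k) → R r s →
  (∀ u ∈ V, (e u).1 < (e u).2 ∧ (e u).2 < n ∧ (e u).1 ≠ r ∧ (e u).1 ≠ s ∧
    (e u).2 ≠ r ∧ (e u).2 ≠ s ∧ R (e u).1 (e u).2) →
  (∀ u ∈ V, ∀ v ∈ V, u ≠ v → (e u).1 ≠ (e v).1 ∧ (e u).1 ≠ (e v).2 ∧ (e u).2 ≠ (e v).1 ∧
    (e u).2 ≠ (e v).2) →
  (∀ u ∈ N, ∀ v ∈ N, R (e u).1 (e v).1 → u = v) → (BB (pt ((r : ℚ), (s : ℚ))) (PQ e) V N).det ≠ 0 →
  (∀ i < n, ∀ j < n, i ≠ r → i ≠ s → j ≠ r → j ≠ s → i < j → R i j →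
    (∀ u ∈ N, i ≠ (e u).1 ∧ i ≠ (e u).2) → (∀ u ∈ N, j ≠ (e u).1 ∧ j ≠ (e u).2) →
    (∃ w ∈ V, w ∉ N ∧ e w = (i, j)) ∨
      kb (pt ((r : ℚ), (s : ℚ))) (PQ e) N (i : ℚ) = kb (pt ((r : ℚ), (s : ℚ))) (PQ e) N (j : ℚ)) →
  ∃ (pr : ℕ → ℕ) (col : ℕ → ZMod 2),
    GoodPairing n (s - r) (fun i j => R ((i + r) % n) ((j + r) % n)) pr col

/-- 21: the combinatorial theorem for three classes with three elements. -/
def StCore3 : Prop := ∀ (n : ℕ) (R : ℕ → ℕ → Prop), (∀ i, R i i) → (∀ i j, R i j → R j i) →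
  (∀ i j k, R i j → R j k → R i k) →
  ∀ A B C : Finset ℕ, A.card = 3 → B.card = 3 → C.card = 3 → A ⊆ range n → B ⊆ range n →
  C ⊆ range n → Disjoint A B → Disjoint A C → Disjoint B C →
  (∀ i ∈ A, ∀ j < n, R i j ↔ j ∈ A) → (∀ i ∈ B, ∀ j < n, R i j ↔ j ∈ B) →
  (∀ i ∈ C, ∀ j < n, R i j ↔ j ∈ C) →
  (∀ i < n, ∀ j < n, ∀ k < n, i ∉ A ∪ B ∪ C → i ≠ j → R i j → R i k → k = i ∨ k = j) →
  ∃ r s, r < s ∧ s < n ∧ r ∈ A ∪ B ∪ C ∧ s ∈ A ∪ B ∪ C ∧ R r s ∧
    ∃ (pr : ℕ → ℕ) (col : ℕ → ZMod 2),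
      GoodPairing n (s - r) (fun i j => R ((i + r) % n) ((j + r) % n)) pr col

/-! ### Graphs -/

/-- 22: two neighbours of an outside component are joined by a path in it. -/
def StCPath : Prop := ∀ {V E : Type} [Fintype V] [DecidableEq V] [Fintype E] [DecidableEq E]
  (G : MG V E) (C : Finset E) (u x y : V), Cubic G → IsCircuit G C → u ∉ verts G C →
  x ∈ att G C ∅ u → y ∈ att G C ∅ u → x ≠ y →
    ∃ P, IsCPath G C P x y ∧
      ∀ v ∈ verts G P, v ≠ x → v ≠ y → Reach G (verts G C)ᶜ Finset.univ u v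

/-- 23: the bridges of `C ∪ P`, where `P` is a path through the outside component of `u`, which
has exactly three neighbours. -/
def StRel : Prop := ∀ {V E : Type} [Fintype V] [DecidableEq V] [Fintype E] [DecidableEq E]
  (G : MG V E) (C P : Finset E) (u x y : V), Cubic G → IsCircuit G C → u ∉ verts G C →
  IsCPath G C P x y → x ∈ att G C ∅ u → y ∈ att G C ∅ u → (att G C ∅ u).ncard = 3 →
  (∀ v ∈ verts G P, v ≠ x → v ≠ y → Reach G (verts G C)ᶜ Finset.univ u v) →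
  (∀ v w, v ∈ verts G C → w ∈ verts G C → SameBridge G C P v w → SameBridge G C ∅ v w) ∧
  (∀ v w, v ∈ verts G C → w ∈ verts G C → v ∉ att G C ∅ u → SameBridge G C ∅ v w →
    SameBridge G C P v w) ∧
  (∀ v, v ∉ verts G (C ∪ P) → v ∉ verts G C ∧ (att G C P v ⊆ att G C ∅ v) ∧
    (Reach G (verts G C)ᶜ Finset.univ u v → (att G C P v).ncard ≤ 1) ∧
    (¬ Reach G (verts G C)ᶜ Finset.univ u v → ∀ w, Reach G (verts G C)ᶜ Finset.univ v w →
      Reach G (verts G (C ∪ P))ᶜ Finset.univ v w))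

/-- 24: the relation is an equivalence on the vertices of `C`. -/
def StEq0 : Prop := ∀ {V E : Type} [Fintype V] [DecidableEq V] [Fintype E] [DecidableEq E]
  (G : MG V E) (C : Finset E), Cubic G → IsCircuit G C →
  (∀ v w, SameBridge G C ∅ v w → SameBridge G C ∅ w v) ∧
  (∀ v w z, v ∈ verts G C → w ∈ verts G C → z ∈ verts G C → SameBridge G C ∅ v w →
    SameBridge G C ∅ w z → SameBridge G C ∅ v z) ∧
  (∀ v ∈ verts G C, ∀ w ∈ verts G C, ∀ z ∈ verts G C, v ≠ w → w ≠ z → v ≠ z →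
    SameBridge G C ∅ v w → SameBridge G C ∅ w z →
      ∃ u, u ∉ verts G C ∧ v ∈ att G C ∅ u ∧ w ∈ att G C ∅ u ∧ z ∈ att G C ∅ u) ∧
  (∀ u, u ∉ verts G C → ∀ v ∈ att G C ∅ u, ∀ w ∈ verts G C,
    SameBridge G C ∅ v w → w ∈ att G C ∅ u)

/-- 25: exactly three outside components with three neighbours, all others have fewer. -/
def StThree : Prop := ∀ {V E : Type} [Fintype V] [DecidableEq V] [Fintype E] [DecidableEq E]
  (G : MG V E), Cubic G → ∀ C : Finset E, IsCircuit G C → ∀ a b c : V,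
  a ∉ verts G C → b ∉ verts G C → c ∉ verts G C →
  ¬ Reach G (verts G C)ᶜ Finset.univ a b → ¬ Reach G (verts G C)ᶜ Finset.univ a c →
  ¬ Reach G (verts G C)ᶜ Finset.univ b c →
  (att G C ∅ a).ncard = 3 → (att G C ∅ b).ncard = 3 → (att G C ∅ c).ncard = 3 →
  (∀ u, u ∉ verts G C → 3 ≤ (att G C ∅ u).ncard → Reach G (verts G C)ᶜ Finset.univ a u ∨
    Reach G (verts G C)ᶜ Finset.univ b u ∨ Reach G (verts G C)ᶜ Finset.univ c u) →
    ∃ D, IsSemiExt G C D

/-- 26: at most three outside components with three or more neighbours, each of them with exactly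
three. -/
def StMain3 : Prop := ∀ {V E : Type} [Fintype V] [DecidableEq V] [Fintype E] [DecidableEq E]
  (G : MG V E), Cubic G → ∀ C : Finset E, IsCircuit G C → (∃ P x y, IsCPath G C P x y) →
  (∀ u, u ∉ verts G C → (att G C ∅ u).ncard ≤ 3) →
  (∀ f : Fin 4 → V, (∀ i, f i ∉ verts G C ∧ (att G C ∅ (f i)).ncard = 3) →
    ∃ i j, i ≠ j ∧ Reach G (verts G C)ᶜ Finset.univ (f i) (f j)) →
    ∃ D, IsSemiExt G C D

/-- 27: circuits which miss at most three vertices. -/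
def StMiss3 : Prop := ∀ {V E : Type} [Fintype V] [DecidableEq V] [Fintype E] [DecidableEq E]
  (G : MG V E), Cubic G → ∀ C : Finset E, IsCircuit G C → ((verts G C)ᶜ).ncard ≤ 3 →
    ∃ D, IsSemiExt G C D

end Pool.Agent.Work.MP_7794fd_co.T
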