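import Mathlib
import Pool.Agent.Work.MP_7794fd_co.T.Stmts

/-! Project MP_7794fd_co, module T, item BRoot: an end of the root chord moves over an end of a
free chord. -/

set_option autoImplicit false

namespace Pool.Agent.Work.MP_7794fd_co.T

open Finset Matrix
open Pool.Agent.Work.MP_7794fd_co.R

namespace BRoot

theorem lt2_away {c' c z t : ℚ} (hz : Away c' c z) (h1 : c' ≤ t) (h2 : t ≤ c) :
    lt2 t z = lt2 c z := by
  unfold lt2
  rcases hz with hz | hz
  · rw [if_neg (not_lt.mpr (by linarith)), if_neg (not_lt.mpr (by linarith))]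
  · rw [if_pos (by linarith), if_pos hz]

variable {ι : Type} [Fintype ι] [DecidableEq ι]

omit [Fintype ι] [DecidableEq ι] in
theorem pt_ends {pos : ι → ℚ × ℚ} {u : ι} {p q : ℚ} (h : EndsOf pos u p q) (z : ℚ) :
    pt (pos u) z = lt2 p z + lt2 q z := by
  unfold pt
  rcases h with h | h
  · rw [h]
  · rw [h]; exact add_comm _ _

omit [Fintype ι] [DecidableEq ι] in
theorem kb_away (r : ℚ) (pos : ι → ℚ × ℚ) {c' c z : ℚ} (hc : c' ≤ c) (hz : Away c' c z)
    (N : Finset ι) : kb (pt (r, c')) pos N z = kb (pt (r, c)) pos N z := by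
  unfold kb pt
  dsimp only
  rw [lt2_away hz le_rfl hc]

omit [Fintype ι] [DecidableEq ι] in
theorem kb_p (r : ℚ) (pos : ι → ℚ × ℚ) {c' c p : ℚ} (h1 : c' < p) (h2 : p < c)
    (N : Finset ι) : kb (pt (r, c')) pos N p = kb (pt (r, c)) pos N p + 1 := by
  have e1 : lt2 c' p = 1 := by unfold lt2; rw [if_pos h1]
  have e2 : lt2 c p = 0 := by unfold lt2; rw [if_neg (not_lt.mpr h2.le)]
  unfold kb
  have e3 : pt (r, c') p = pt (r, c) p + 1 := by
    show lt2 r p + lt2 c' p = lt2 r p + lt2 c p + 1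
    rw [e1, e2]; ring
  rw [e3]; ring

omit [Fintype ι] in
theorem BB_diag (b : ℚ → ZMod 2) (pos : ι → ℚ × ℚ) {V : Finset ι} (N : Finset ι) {u : ι}
    (hu : u ∈ V) : BB b pos V N u u = 1 + kb b pos N (pos u).1 + kb b pos N (pos u).2 := by
  simp [BB, hu]

theorem key (h1 : StDiag) (pos : ι → ℚ × ℚ) (V : Finset ι) (u : ι) (r c' c p q : ℚ)
    (N : Finset ι) (hu : u ∈ V) (he : EndsOf pos u p q) (hp1 : c' < p) (hp2 : p < c)
    (hq : Away c' c q)
    (hw : ∀ w ∈ V, w ≠ u → Away c' c (pos w).1 ∧ Away c' c (pos w).2) :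
    (BB (pt (r, c)) pos V N).det + (BB (pt (r, c')) pos V N).det =
      Matrix.det (fun a b => if a = u ∨ b = u then (if a = b then (1 : ZMod 2) else 0)
        else BB (pt (r, c)) pos V N a b) := by
  have hc : c' ≤ c := by linarith
  refine h1 (BB (pt (r, c)) pos V N) (BB (pt (r, c')) pos V N) u ?_ ?_
  · rw [BB_diag (pt (r, c')) pos N hu, BB_diag (pt (r, c)) pos N hu]
    have e1 := kb_p r pos hp1 hp2 N
    have e2 := kb_away r pos hc hq N
    rcases he with he | he
    · rw [he]
      dsimp only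
      rw [e1, e2]; ring
    · rw [he]
      dsimp only
      rw [e1, e2]; ring
  · intro a b hab
    unfold BB
    by_cases h : a = b
    · subst h
      rw [if_pos rfl, if_pos rfl]
      by_cases ha : a ∈ V
      · rw [if_pos ha, if_pos ha]
        have hau : a ≠ u := by rcases hab with h | h <;> exact h
        obtain ⟨w1, w2⟩ := hw a ha hau
        rw [kb_away r pos hc w1 N, kb_away r pos hc w2 N]
      · rw [if_neg ha, if_neg ha]
    · rw [if_neg h, if_neg h]

theorem partA (h1 : StDiag) (pos : ι → ℚ × ℚ) (V : Finset ι) (u : ι) (r c' c p q : ℚ)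
    (h : (ℚ → ZMod 2) → ZMod 2)
    (M : Finset ι) (hu : u ∈ V) (he : EndsOf pos u p q) (hp1 : c' < p) (hp2 : p < c)
    (hq : Away c' c q)
    (hw : ∀ w ∈ V, w ≠ u → Away c' c (pos w).1 ∧ Away c' c (pos w).2) (hi : Indep c' c h)
    (huM : u ∉ M) :
    (BB (pt (r, c)) pos V M).det * h (kb (pt (r, c)) pos M) +
      (BB (pt (r, c')) pos V M).det * h (kb (pt (r, c')) pos M) =
      (BB (pt (r, c)) pos (V.erase u) M).det * h (kb (pt (r, c)) pos M) := by
  have hc : c' ≤ c := by linarith
  have e1 : h (kb (pt (r, c')) pos M) = h (kb (pt (r, c)) pos M) :=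
    hi _ _ (fun z hz => kb_away r pos hc hz M)
  rw [e1, ← add_mul, key h1 pos V u r c' c p q M hu he hp1 hp2 hq hw]
  congr 2
  funext a b
  unfold BB
  by_cases hau : a = u
  · subst hau
    rw [if_pos (Or.inl rfl)]
    by_cases hab : a = b
    · subst hab
      simp
    · rw [if_neg hab, if_neg hab, if_neg (fun h => huM h.1)]
  · by_cases hbu : b = u
    · subst hbu
      rw [if_pos (Or.inr rfl), if_neg hau, if_neg hau, if_neg (fun h => huM h.2)]
    · rw [if_neg (by rintro (h | h); exacts [hau h, hbu h])]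
      by_cases hab : a = b
      · subst hab
        rw [if_pos rfl, if_pos rfl]
        by_cases ha : a ∈ V
        · rw [if_pos ha, if_pos (Finset.mem_erase.mpr ⟨hau, ha⟩)]
        · rw [if_neg ha, if_neg (fun h => ha (Finset.mem_of_mem_erase h))]
      · rw [if_neg hab, if_neg hab]

omit [Fintype ι] in
theorem kb_q {r : ℚ} {pos : ι → ℚ × ℚ} {u : ι} {c' c p q z : ℚ} {M : Finset ι}
    (he : EndsOf pos u p q) (hp1 : c' < p) (hp2 : p < c) (huM : u ∉ M) (hz : Away c' c z) :
    kb (pt (r, c)) pos (insert u M) z = kb (pt (r, q)) pos M z := by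
  unfold kb
  rw [Finset.sum_insert huM, pt_ends he, lt2_away hz hp1.le hp2.le]
  show lt2 r z + lt2 c z + (lt2 c z + lt2 q z + ∑ m ∈ M, pt (pos m) z) =
    lt2 r z + lt2 q z + ∑ m ∈ M, pt (pos m) z
  have : lt2 c z + lt2 c z = 0 := CharTwo.add_self_eq_zero _
  linear_combination this

theorem partB (h1 : StDiag) (pos : ι → ℚ × ℚ) (V : Finset ι) (u : ι) (r c' c p q : ℚ)
    (h : (ℚ → ZMod 2) → ZMod 2)
    (M : Finset ι) (hu : u ∈ V) (he : EndsOf pos u p q) (hp1 : c' < p) (hp2 : p < c)
    (hq : Away c' c q)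
    (hw : ∀ w ∈ V, w ≠ u → Away c' c (pos w).1 ∧ Away c' c (pos w).2) (hi : Indep c' c h)
    (huM : u ∉ M) :
    (BB (pt (r, c)) pos V (insert u M)).det * h (kb (pt (r, c)) pos (insert u M)) +
      (BB (pt (r, c')) pos V (insert u M)).det * h (kb (pt (r, c')) pos (insert u M)) =
      (BB (pt (r, q)) pos (V.erase u) M).det * h (kb (pt (r, q)) pos M) := by
  have hc : c' ≤ c := by linarith
  have e1 : h (kb (pt (r, c')) pos (insert u M)) = h (kb (pt (r, q)) pos M) :=
    hi _ _ (fun z hz => by rw [kb_away r pos hc hz, kb_q he hp1 hp2 huM hz])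
  have e2 : h (kb (pt (r, c)) pos (insert u M)) = h (kb (pt (r, q)) pos M) :=
    hi _ _ (fun z hz => by rw [kb_q he hp1 hp2 huM hz])
  rw [e1, e2, ← add_mul, key h1 pos V u r c' c p q (insert u M) hu he hp1 hp2 hq hw]
  congr 2
  funext a b
  unfold BB
  by_cases hau : a = u
  · subst hau
    rw [if_pos (Or.inl rfl)]
    by_cases hab : a = b
    · subst hab
      simp
    · rw [if_neg hab, if_neg hab, if_neg (fun h => huM h.1)]
  · by_cases hbu : b = u
    · subst hbu
      rw [if_pos (Or.inr rfl), if_neg hau, if_neg hau, if_neg (fun h => huM h.2)]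
    · rw [if_neg (by rintro (h | h); exacts [hau h, hbu h])]
      by_cases hab : a = b
      · subst hab
        rw [if_pos rfl, if_pos rfl]
        by_cases ha : a ∈ V
        · rw [if_pos ha, if_pos (Finset.mem_erase.mpr ⟨hau, ha⟩)]
          obtain ⟨w1, w2⟩ := hw a ha hau
          rw [kb_q he hp1 hp2 huM w1, kb_q he hp1 hp2 huM w2]
        · rw [if_neg ha, if_neg (fun h => ha (Finset.mem_of_mem_erase h))]
      · rw [if_neg hab, if_neg hab]
        have m1 : a ∈ insert u M ↔ a ∈ M := by simp [hau]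
        have m2 : b ∈ insert u M ↔ b ∈ M := by simp [hbu]
        simp only [m1, m2]

end BRoot

/-- Item 4: an end of the root chord moves over an end of a free chord. -/
theorem I_BRoot (h1 : StDiag) : StBRoot := by
  intro ι _ _ pos V W u r c' c p q h hu hVW he hp1 hp2 hq _ _ hw hi
  unfold SB
  have huW : u ∉ W := fun hW => (Finset.disjoint_left.1 hVW) hu hW
  have hV : V = insert u (V.erase u) := (Finset.insert_erase hu).symm
  have hn : u ∉ V.erase u := Finset.notMem_erase u V
  have hE : (V ∪ W).erase u = V.erase u ∪ W := by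
    rw [Finset.erase_union_distrib, Finset.erase_eq_of_notMem huW]
  have huV : u ∈ V ∪ W := Finset.mem_union_left _ hu
  have split : ∀ f : Finset ι → ZMod 2, ∑ M ∈ V.powerset, f M =
      ∑ M ∈ (V.erase u).powerset, f M + ∑ M ∈ (V.erase u).powerset, f (insert u M) := by
    intro f
    conv_lhs => rw [hV]
    exact Finset.sum_powerset_insert hn f
  rw [split, split]
  have hnM : ∀ M ∈ (V.erase u).powerset, u ∉ M ∪ W := fun M hM hm =>
    (Finset.mem_union.1 hm).elim (fun hm => hn (Finset.mem_powerset.mp hM hm)) huW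
  have eA : ∑ M ∈ (V.erase u).powerset, (BB (pt (r, c)) pos (V ∪ W) (M ∪ W)).det *
        h (kb (pt (r, c)) pos (M ∪ W)) +
      ∑ M ∈ (V.erase u).powerset, (BB (pt (r, c')) pos (V ∪ W) (M ∪ W)).det *
        h (kb (pt (r, c')) pos (M ∪ W)) =
      ∑ M ∈ (V.erase u).powerset, (BB (pt (r, c)) pos (V.erase u ∪ W) (M ∪ W)).det *
        h (kb (pt (r, c)) pos (M ∪ W)) := by
    rw [← Finset.sum_add_distrib]
    refine Finset.sum_congr rfl (fun M hM => ?_)
    rw [BRoot.partA h1 pos (V ∪ W) u r c' c p q h (M ∪ W) huV he hp1 hp2 hq hw hi (hnM M hM), hE]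
  have eB : ∑ M ∈ (V.erase u).powerset,
        (BB (pt (r, c)) pos (V ∪ W) (insert u M ∪ W)).det *
          h (kb (pt (r, c)) pos (insert u M ∪ W)) +
      ∑ M ∈ (V.erase u).powerset,
        (BB (pt (r, c')) pos (V ∪ W) (insert u M ∪ W)).det *
          h (kb (pt (r, c')) pos (insert u M ∪ W)) =
      ∑ M ∈ (V.erase u).powerset, (BB (pt (r, q)) pos (V.erase u ∪ W) (M ∪ W)).det *
        h (kb (pt (r, q)) pos (M ∪ W)) := by
    rw [← Finset.sum_add_distrib]
    refine Finset.sum_congr rfl (fun M hM => ?_)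
    rw [Finset.insert_union,
      BRoot.partB h1 pos (V ∪ W) u r c' c p q h (M ∪ W) huV he hp1 hp2 hq hw hi (hnM M hM), hE]
  rw [← eA, ← eB]
  ring

end Pool.Agent.Work.MP_7794fd_co.T
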