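import Pool.Agent.Work.MP_7794fd_co.T.Stmts

/-! Project MP_7794fd_co, module T: item 1, a chord is used or not. -/

set_option autoImplicit false

namespace Pool.Agent.Work.MP_7794fd_co.T

open Finset Matrix
open Pool.Agent.Work.MP_7794fd_co.R

theorem BSplit.sets {ι : Type} [DecidableEq ι] (u : ι) (A B : Finset ι) :
    insert u A ∪ B = A ∪ insert u B := by
  ext x
  simp only [Finset.mem_union, Finset.mem_insert]
  tauto

theorem BSplit.det {ι : Type} [Fintype ι] [DecidableEq ι] (h : StIso) (b : ℚ → ZMod 2)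
    (pos : ι → ℚ × ℚ) (V W M : Finset ι) (u : ι) (hV : u ∈ V) (hVW : Disjoint V W)
    (hM : M ⊆ V.erase u) :
    (BB b pos (V ∪ W) (M ∪ W)).det =
      (1 + kb b pos (M ∪ W) (pos u).1 + kb b pos (M ∪ W) (pos u).2) *
        (BB b pos (V.erase u ∪ W) (M ∪ W)).det := by
  have hW : u ∉ W := Finset.disjoint_left.mp hVW hV
  have hM' : u ∉ M := fun hu => (Finset.mem_erase.mp (hM hu)).1 rfl
  have hMW : u ∉ M ∪ W := by
    rw [Finset.mem_union]
    tauto
  rw [h (BB b pos (V ∪ W) (M ∪ W)) (BB b pos (V.erase u ∪ W) (M ∪ W)) u ?_ ?_ ?_ ?_]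
  · congr 1
    have h1 : u ∈ V ∪ W := Finset.mem_union_left _ hV
    simp [BB, h1]
  · intro c hc
    simp [BB, Ne.symm hc, hc, hMW]
  · intro a c ha hc
    have h1 : a ∈ V.erase u ∪ W ↔ a ∈ V ∪ W := by
      simp [ha]
    simp only [BB, h1]
  · intro c hc
    simp [BB, Ne.symm hc, hc, hMW]
  · have h1 : u ∉ V.erase u ∪ W := by
      simp [hW]
    simp [BB, h1]

theorem I_BSplit (h : StIso) : StBSplit := by
  intro ι _ _ b pos V W u f hV hVW
  have hu : u ∉ V.erase u := Finset.notMem_erase u V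
  unfold SB
  have h1 : V.powerset = (insert u (V.erase u)).powerset := by rw [Finset.insert_erase hV]
  rw [h1, Finset.sum_powerset_insert hu, add_comm]
  congr 1
  · refine Finset.sum_congr rfl fun M _ => ?_
    rw [← BSplit.sets u M W, ← BSplit.sets u (V.erase u) W, Finset.insert_erase hV]
  · refine Finset.sum_congr rfl fun M hM => ?_
    rw [Finset.mem_powerset] at hM
    rw [BSplit.det h b pos V W M u hV hVW hM]
    ring

end Pool.Agent.Work.MP_7794fd_co.T
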