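import Pool.Agent.Work.MP_7794fd_co.T.Stmts

/-! Item 22: two neighbours of an outside component are joined by a path in it. -/

set_option autoImplicit false
set_option linter.unusedSectionVars false

namespace Pool.Agent.Work.MP_7794fd_co.T

open Finset
open Pool.Agent.Work.MP_7794fd_co.R

namespace CPath

variable {V E : Type} [Fintype V] [DecidableEq V] [Fintype E] [DecidableEq E] (G : MG V E)

theorem reach_mem {W : Set V} {X : Finset E} {u v : V} (hu : u ∈ W) (h : Reach G W X u v) :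
    v ∈ W := by
  rcases Relation.ReflTransGen.cases_tail h with h1 | ⟨_, _, h2⟩
  · rw [h1]; exact hu
  · exact h2.2.1

theorem reach_symm {W : Set V} {X : Finset E} {u v : V} (h : Reach G W X u v) :
    Reach G W X v u := by
  induction h with
  | refl => exact Relation.ReflTransGen.refl
  | tail _ hs ih =>
    obtain ⟨ha, hb, e, he, hab⟩ := hs
    exact (Relation.ReflTransGen.single ⟨hb, ha, e, he, by rw [hab, Sym2.eq_swap]⟩).trans ih

end CPath

theorem I_CPath (h : StPath) : StCPath := by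
  intro V E _ _ _ _ G C u x y _hG _hC hu hx hy hxy
  obtain ⟨hxC, q1, hr1, e1, he1⟩ := hx
  obtain ⟨hyC, q2, hr2, e2, he2⟩ := hy
  rw [union_empty] at hr1 hr2
  have hu' : u ∈ (verts G C)ᶜ := hu
  have hq1 : q1 ∈ (verts G C)ᶜ := CPath.reach_mem G hu' hr1
  have hq2 : q2 ∈ (verts G C)ᶜ := CPath.reach_mem G hu' hr2
  have hr12 : Reach G (verts G C)ᶜ Finset.univ q1 q2 := (CPath.reach_symm G hr1).trans hr2
  obtain ⟨F, d1, d2, d3, d4, d5, d6⟩ := h G (verts G C)ᶜ x y q1 q2 e1 e2
    (fun h => h hxC) (fun h => h hyC) hxy hq1 hq2 (by rw [he1, Sym2.eq_swap]) he2 hr12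
  refine ⟨F, ⟨?_, hxy, hxC, hyC, d1, d2, ?_, ?_, d6⟩, ?_⟩
  · rw [Finset.disjoint_left]
    intro a haC haF
    obtain ⟨z, hz, hza⟩ := d5 a haF
    exact hz ⟨a, haC, hza⟩
  · intro z hz hz1 hz2
    by_contra hd
    exact (CPath.reach_mem G hq1 (d4 z hz1 hz2 hd)) hz
  · intro z hz
    exact d3 z (by rintro rfl; exact hz hxC) (by rintro rfl; exact hz hyC)
  · rintro z ⟨e, heF, hze⟩ hz1 hz2
    refine hr1.trans (d4 z hz1 hz2 ?_)
    unfold deg
    rw [Finset.card_ne_zero]
    exact ⟨e, Finset.mem_filter.2 ⟨heF, hze⟩⟩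

end Pool.Agent.Work.MP_7794fd_co.T
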