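import Pool.Agent.Work.MP_7794fd_co.T.Stmts

/-! Project MP_7794fd_co, module T: item 21, the combinatorial theorem for three classes with
three elements. -/

set_option autoImplicit false

namespace Pool.Agent.Work.MP_7794fd_co.T

open Finset Matrix
open Pool.Agent.Work.MP_7794fd_co.R

namespace Core3

theorem z2_01 : ∀ a b : ZMod 2, a ≠ b → (a = 0 ∧ b = 1) ∨ (a = 1 ∧ b = 0) := by decide

/-- the positions of a set of points -/
def im (X : Finset ℕ) : Finset ℚ := X.image fun i : ℕ => (i : ℚ)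

theorem mem_im {X : Finset ℕ} {i : ℕ} : (i : ℚ) ∈ im X ↔ i ∈ X := by
  unfold im
  rw [Finset.mem_image]
  constructor
  · rintro ⟨j, hj, h⟩
    have : j = i := by exact_mod_cast h
    rwa [← this]
  · intro h
    exact ⟨i, h, rfl⟩

theorem mem_im' {X : Finset ℕ} {a : ℚ} (h : a ∈ im X) : ∃ i ∈ X, (i : ℚ) = a := by
  unfold im at h
  rw [Finset.mem_image] at h
  exact h

theorem card_im (X : Finset ℕ) : (im X).card = X.card :=
  Finset.card_image_of_injective _ Nat.cast_injective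

theorem disj_im {X Y : Finset ℕ} (h : Disjoint X Y) : Disjoint (im X) (im Y) := by
  rw [Finset.disjoint_left] at h ⊢
  intro a ha hb
  obtain ⟨i, hi, rfl⟩ := mem_im' ha
  exact h hi (mem_im.1 hb)

/-- the weight is zero unless all colours of the set are equal -/
def Eqc (H : Finset ℚ → (ℚ → ZMod 2) → ZMod 2) : Prop :=
  ∀ (A : Finset ℚ) (κ : ℚ → ZMod 2), H A κ ≠ 0 → ∀ a ∈ A, ∀ b ∈ A, κ a = κ b

theorem eqc_mono : Eqc mono := by
  intro A κ h a ha b hb
  by_contra hc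
  apply h
  unfold mono
  have two : (1 : ZMod 2) + 1 = 0 := by decide
  rcases z2_01 _ _ hc with ⟨h0, h1⟩ | ⟨h1, h0⟩
  · rw [Finset.prod_eq_zero ha h0, Finset.prod_eq_zero hb (by rw [h1]; exact two), add_zero]
  · rw [Finset.prod_eq_zero hb h0, Finset.prod_eq_zero ha (by rw [h1]; exact two), add_zero]

theorem eqc_noc : Eqc noc := by
  intro A κ h a ha b hb
  by_contra hc
  apply h
  unfold noc
  have two : (1 : ZMod 2) + 1 = 0 := by decide
  rcases z2_01 _ _ hc with ⟨_, h1⟩ | ⟨h1, _⟩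
  · exact Finset.prod_eq_zero hb (by rw [h1]; exact two)
  · exact Finset.prod_eq_zero ha (by rw [h1]; exact two)

/-- the chords outside the three big classes -/
structure Dat (n : ℕ) (R : ℕ → ℕ → Prop) (U : Finset ℕ) (V : Finset (Fin n))
    (e : Fin n → ℕ × ℕ) : Prop where
  refl : ∀ i, R i i
  symm : ∀ i j, R i j → R j i
  trans : ∀ i j k, R i j → R j k → R i k
  eV : ∀ u ∈ V, (e u).1 < (e u).2 ∧ (e u).2 < n ∧ R (e u).1 (e u).2 ∧ (e u).1 ∉ U ∧ (e u).2 ∉ U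
  dis : ∀ u ∈ V, ∀ v ∈ V, u ≠ v → (e u).1 ≠ (e v).1 ∧ (e u).1 ≠ (e v).2 ∧ (e u).2 ≠ (e v).1 ∧
    (e u).2 ≠ (e v).2
  one : ∀ u ∈ V, ∀ v ∈ V, R (e u).1 (e v).1 → u = v
  chord : ∀ i j, i < j → j < n → R i j → i ∉ U → ∃ w ∈ V, e w = (i, j)

/-- a class with three elements -/
structure Cl (n : ℕ) (R : ℕ → ℕ → Prop) (X : Finset ℕ) : Prop where
  card : X.card = 3
  sub : X ⊆ range n
  cl : ∀ i ∈ X, ∀ j < n, R i j ↔ j ∈ X

/-- four different elements of a set with three elements -/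
theorem four {X : Finset ℕ} (h : X.card = 3) {r s i j : ℕ} (hr : r ∈ X) (hs : s ∈ X) (hi : i ∈ X)
    (hj : j ∈ X) (h1 : r ≠ s) (h2 : i ≠ r) (h3 : i ≠ s) (h4 : j ≠ r) (h5 : j ≠ s) (h6 : i ≠ j) :
    False := by
  have h7 : ({r, s, i, j} : Finset ℕ) ⊆ X := by
    intro x hx
    simp only [Finset.mem_insert, Finset.mem_singleton] at hx
    rcases hx with rfl | rfl | rfl | rfl <;> assumption
  have h8 := Finset.card_le_card h7
  have h9 : ({r, s, i, j} : Finset ℕ).card = 4 := by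
    rw [Finset.card_insert_of_notMem, Finset.card_insert_of_notMem, Finset.card_insert_of_notMem,
      Finset.card_singleton]
    · simpa using h6
    · simp only [Finset.mem_insert, Finset.mem_singleton, not_or]
      exact ⟨h3.symm, h5.symm⟩
    · simp only [Finset.mem_insert, Finset.mem_singleton, not_or]
      exact ⟨h1, h2.symm, h4.symm⟩
  omega

theorem pairs_im {X : Finset ℕ} {p : ℚ × ℚ} (hp : p ∈ pairs (im X)) :
    ∃ r ∈ X, ∃ s ∈ X, r < s ∧ p = ((r : ℚ), (s : ℚ)) := by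
  unfold pairs at hp
  rw [Finset.mem_filter, Finset.mem_product] at hp
  obtain ⟨⟨hp1, hp2⟩, hp3⟩ := hp
  obtain ⟨r, hr, hrp⟩ := mem_im' hp1
  obtain ⟨s, hs, hsp⟩ := mem_im' hp2
  refine ⟨r, hr, s, hs, ?_, Prod.ext hrp.symm hsp.symm⟩
  rw [← hrp, ← hsp] at hp3
  exact_mod_cast hp3

/-- the conclusion -/
def Con (n : ℕ) (R : ℕ → ℕ → Prop) (U : Finset ℕ) : Prop :=
  ∃ r s, r < s ∧ s < n ∧ r ∈ U ∧ s ∈ U ∧ R r s ∧
    ∃ (pr : ℕ → ℕ) (col : ℕ → ZMod 2),
      GoodPairing n (s - r) (fun i j => R ((i + r) % n) ((j + r) % n)) pr col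

section

variable {n : ℕ} {R : ℕ → ℕ → Prop} {U X Y Z : Finset ℕ} {V : Finset (Fin n)}
  {e : Fin n → ℕ × ℕ} {H₁ H₂ H₃ : Finset ℚ → (ℚ → ZMod 2) → ZMod 2}

theorem case1 (hgood : StGood) (D : Dat n R U V e) (hX : Cl n R X) (hY : Cl n R Y) (hZ : Cl n R Z)
    (hU : ∀ i, i ∈ U ↔ i ∈ X ∨ i ∈ Y ∨ i ∈ Z) (h2 : Eqc H₂) (h3 : Eqc H₃)
    (hne : T1 (PQ e) V H₁ H₂ H₃ (im X) (im Y) (im Z) ≠ 0) : Con n R U := by
  unfold T1 at hne
  obtain ⟨p, hp, hne⟩ := Finset.exists_ne_zero_of_sum_ne_zero hne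
  obtain ⟨r, hr, s, hs, hrs, rfl⟩ := pairs_im hp
  unfold SB at hne
  obtain ⟨M, hM, hne⟩ := Finset.exists_ne_zero_of_sum_ne_zero hne
  have hMV := Finset.mem_powerset.1 hM
  rw [Finset.union_empty, Finset.union_empty] at hne
  have hdet := left_ne_zero_of_mul hne
  have hw := right_ne_zero_of_mul hne
  have hw3 := right_ne_zero_of_mul hw
  have hw2 := right_ne_zero_of_mul (left_ne_zero_of_mul hw)
  have hsn : s < n := Finset.mem_range.1 (hX.sub hs)
  have hrU : r ∈ U := (hU r).2 (Or.inl hr)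
  have hsU : s ∈ U := (hU s).2 (Or.inl hs)
  have hRrs : R r s := (hX.cl r hr s hsn).2 hs
  refine ⟨r, s, hrs, hsn, hrU, hsU, hRrs, ?_⟩
  refine hgood n r s R e V M hrs hsn hMV D.refl D.symm D.trans hRrs ?_ D.dis
    (fun u hu v hv => D.one u (hMV hu) v (hMV hv)) hdet ?_
  · intro u hu
    obtain ⟨a1, a2, a3, a4, a5⟩ := D.eV u hu
    refine ⟨a1, a2, ?_, ?_, ?_, ?_, a3⟩
    · rintro h; exact a4 (h ▸ hrU)
    · rintro h; exact a4 (h ▸ hsU)
    · rintro h; exact a5 (h ▸ hrU)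
    · rintro h; exact a5 (h ▸ hsU)
  · intro i hi j hj hir his hjr hjs hij hRij hni hnj
    by_cases hiU : i ∈ U
    · right
      rcases (hU i).1 hiU with h | h | h
      · exact (four hX.card hr hs h ((hX.cl i h j hj).1 hRij) hrs.ne hir his hjr hjs hij.ne).elim
      · exact h2 _ _ hw2 _ (mem_im.2 h) _ (mem_im.2 ((hY.cl i h j hj).1 hRij))
      · exact h3 _ _ hw3 _ (mem_im.2 h) _ (mem_im.2 ((hZ.cl i h j hj).1 hRij))
    · left
      obtain ⟨w, hw, hew⟩ := D.chord i j hij hj hRij hiU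
      refine ⟨w, hw, fun hwM => (hni w hwM).1 ?_, hew⟩
      rw [hew]

theorem case2 (hgood : StGood) (D : Dat n R U V e) (hX : Cl n R X) (hY : Cl n R Y) (hZ : Cl n R Z)
    (hU : ∀ i, i ∈ U ↔ i ∈ X ∨ i ∈ Y ∨ i ∈ Z) (hXY : Disjoint X Y) (h3 : Eqc H₃) {g : Fin n}
    (hg : g ∉ V) (hne : T2 (PQ e) V g H₁ H₂ H₃ (im X) (im Y) (im Z) ≠ 0) : Con n R U := by
  unfold T2 at hne
  obtain ⟨p, hp, hne⟩ := Finset.exists_ne_zero_of_sum_ne_zero hne
  obtain ⟨p', hp', hne⟩ := Finset.exists_ne_zero_of_sum_ne_zero hne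
  obtain ⟨r, hr, s, hs, hrs, rfl⟩ := pairs_im hp
  obtain ⟨r', hr', s', hs', hrs', rfl⟩ := pairs_im hp'
  let e' : Fin n → ℕ × ℕ := Function.update e g (r', s')
  have he'g : e' g = (r', s') := Function.update_self _ _ _
  have he'u : ∀ u, u ≠ g → e' u = e u := fun u hu => Function.update_of_ne hu _ _
  have hPe : Function.update (PQ e) g ((r' : ℚ), (s' : ℚ)) = PQ e' := by
    funext u
    by_cases hu : u = g
    · subst hu
      rw [Function.update_self]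
      show _ = (((e' u).1 : ℚ), ((e' u).2 : ℚ))
      rw [he'g]
    · rw [Function.update_of_ne hu]
      show _ = (((e' u).1 : ℚ), ((e' u).2 : ℚ))
      rw [he'u u hu]
      rfl
  rw [hPe] at hne
  unfold SB at hne
  obtain ⟨M, hM, hne⟩ := Finset.exists_ne_zero_of_sum_ne_zero hne
  have hMV := Finset.mem_powerset.1 hM
  have hdet := left_ne_zero_of_mul hne
  have hw := right_ne_zero_of_mul hne
  have hw3 := right_ne_zero_of_mul hw
  have hsn : s < n := Finset.mem_range.1 (hX.sub hs)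
  have hsn' : s' < n := Finset.mem_range.1 (hY.sub hs')
  have hrU : r ∈ U := (hU r).2 (Or.inl hr)
  have hsU : s ∈ U := (hU s).2 (Or.inl hs)
  have hrU' : r' ∈ U := (hU r').2 (Or.inr (Or.inl hr'))
  have hsU' : s' ∈ U := (hU s').2 (Or.inr (Or.inl hs'))
  have hRrs : R r s := (hX.cl r hr s hsn).2 hs
  have hRrs' : R r' s' := (hY.cl r' hr' s' hsn').2 hs'
  have hVg : ∀ u ∈ V, u ≠ g := fun u hu h => hg (h ▸ hu)
  have hmem : ∀ {W : Finset (Fin n)} u, u ∈ W ∪ {g} ↔ u ∈ W ∨ u = g := by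
    intro W u; rw [Finset.mem_union, Finset.mem_singleton]
  have hXY' : ∀ a ∈ X, ∀ b ∈ Y, a ≠ b := fun a ha b hb h =>
    Finset.disjoint_left.1 hXY ha (h ▸ hb)
  have hgu : ∀ u ∈ V, r' ≠ (e u).1 ∧ r' ≠ (e u).2 ∧ s' ≠ (e u).1 ∧ s' ≠ (e u).2 := by
    intro u hu
    obtain ⟨_, _, _, a4, a5⟩ := D.eV u hu
    exact ⟨fun h => a4 (h ▸ hrU'), fun h => a5 (h ▸ hrU'), fun h => a4 (h ▸ hsU'),
      fun h => a5 (h ▸ hsU')⟩
  have hRr : ∀ u ∈ V, ¬ R r' (e u).1 := by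
    intro u hu h
    obtain ⟨a1, a2, _, a4, _⟩ := D.eV u hu
    exact a4 ((hU _).2 (Or.inr (Or.inl ((hY.cl r' hr' _ (a1.trans a2)).1 h))))
  refine ⟨r, s, hrs, hsn, hrU, hsU, hRrs, ?_⟩
  refine hgood n r s R e' (V ∪ {g}) (M ∪ {g}) hrs hsn
    (Finset.union_subset_union hMV (Finset.Subset.refl _)) D.refl D.symm D.trans hRrs ?_ ?_ ?_
    hdet ?_
  · intro u hu
    rcases (hmem u).1 hu with hu | rfl
    · rw [he'u u (hVg u hu)]
      obtain ⟨a1, a2, a3, a4, a5⟩ := D.eV u hu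
      refine ⟨a1, a2, ?_, ?_, ?_, ?_, a3⟩
      · rintro h; exact a4 (h ▸ hrU)
      · rintro h; exact a4 (h ▸ hsU)
      · rintro h; exact a5 (h ▸ hrU)
      · rintro h; exact a5 (h ▸ hsU)
    · rw [he'g]
      exact ⟨hrs', hsn', (hXY' r hr r' hr').symm, (hXY' s hs r' hr').symm,
        (hXY' r hr s' hs').symm, (hXY' s hs s' hs').symm, hRrs'⟩
  · intro u hu v hv huv
    rcases (hmem u).1 hu with hu1 | hu1 <;> rcases (hmem v).1 hv with hv1 | hv1
    · rw [he'u u (hVg u hu1), he'u v (hVg v hv1)]; exact D.dis u hu1 v hv1 huv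
    · rw [he'u u (hVg u hu1), hv1, he'g]
      obtain ⟨a1, a2, a3, a4⟩ := hgu u hu1
      exact ⟨a1.symm, a3.symm, a2.symm, a4.symm⟩
    · rw [he'u v (hVg v hv1), hu1, he'g]
      exact hgu v hv1
    · exact absurd (hu1.trans hv1.symm) huv
  · intro u hu v hv
    rcases (hmem u).1 hu with hu1 | hu1 <;> rcases (hmem v).1 hv with hv1 | hv1
    · rw [he'u u (hVg u (hMV hu1)), he'u v (hVg v (hMV hv1))]
      exact D.one u (hMV hu1) v (hMV hv1)
    · rw [he'u u (hVg u (hMV hu1)), hv1, he'g]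
      intro h
      exact absurd (D.symm _ _ h) (hRr u (hMV hu1))
    · rw [he'u v (hVg v (hMV hv1)), hu1, he'g]
      intro h
      exact absurd h (hRr v (hMV hv1))
    · intro _; exact hu1.trans hv1.symm
  · intro i hi j hj hir his hjr hjs hij hRij hni hnj
    have hgm : g ∈ M ∪ {g} := (hmem g).2 (Or.inr rfl)
    have b1 := hni g hgm
    have b2 := hnj g hgm
    rw [he'g] at b1 b2
    by_cases hiU : i ∈ U
    · right
      rcases (hU i).1 hiU with h | h | h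
      · exact (four hX.card hr hs h ((hX.cl i h j hj).1 hRij) hrs.ne hir his hjr hjs hij.ne).elim
      · exact (four hY.card hr' hs' h ((hY.cl i h j hj).1 hRij) hrs'.ne b1.1 b1.2 b2.1 b2.2
          hij.ne).elim
      · exact h3 _ _ hw3 _ (mem_im.2 h) _ (mem_im.2 ((hZ.cl i h j hj).1 hRij))
    · left
      obtain ⟨w, hw, hew⟩ := D.chord i j hij hj hRij hiU
      refine ⟨w, Finset.mem_union_left _ hw, fun hwM => ?_, by rw [he'u w (hVg w hw), hew]⟩
      apply (hni w hwM).1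
      rw [he'u w (hVg w hw), hew]

end

/-- the chords exist -/
theorem exDat {n : ℕ} {R : ℕ → ℕ → Prop} (hrefl : ∀ i, R i i) (hsymm : ∀ i j, R i j → R j i)
    (htrans : ∀ i j k, R i j → R j k → R i k) (U : Finset ℕ)
    (hUc : ∀ i ∈ U, ∀ j < n, R i j → j ∈ U)
    (hcl : ∀ i < n, ∀ j < n, ∀ k < n, i ∉ U → i ≠ j → R i j → R i k → k = i ∨ k = j) :
    ∃ (V : Finset (Fin n)) (e : Fin n → ℕ × ℕ), Dat n R U V e ∧ ∀ u ∈ V, (u : ℕ) ∉ U := by
  classical
  let V : Finset (Fin n) := univ.filter fun p => (p : ℕ) ∉ U ∧ ∃ j, j < n ∧ (p : ℕ) < j ∧ R p j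
  have memV : ∀ p : Fin n, p ∈ V ↔ (p : ℕ) ∉ U ∧ ∃ j, j < n ∧ (p : ℕ) < j ∧ R p j := by
    intro p; simp [V]
  have hch : ∀ p : Fin n, ∃ j, p ∈ V → j < n ∧ (p : ℕ) < j ∧ R p j := by
    intro p
    by_cases hp : p ∈ V
    · obtain ⟨-, j, hj⟩ := (memV p).1 hp
      exact ⟨j, fun _ => hj⟩
    · exact ⟨0, fun h => absurd h hp⟩
  choose q hq using hch
  have hVU : ∀ u ∈ V, (u : ℕ) ∉ U := fun u hu => ((memV u).1 hu).1
  have hqU : ∀ u ∈ V, q u ∉ U := fun u hu h =>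
    hVU u hu (hUc _ h _ u.2 (hsymm _ _ (hq u hu).2.2))
  have oneV : ∀ u ∈ V, ∀ v ∈ V, R u v → u = v := by
    intro u hu v hv huv
    by_contra hne
    have hne' : (u : ℕ) ≠ v := fun h => hne (Fin.ext h)
    have b1 := (hq u hu).2.1
    have b2 := (hq v hv).2.1
    have a1 := hcl u u.2 (q u) (hq u hu).1 v v.2 (hVU u hu) b1.ne (hq u hu).2.2 huv
    have a2 := hcl v v.2 (q v) (hq v hv).1 u u.2 (hVU v hv) b2.ne (hq v hv).2.2 (hsymm _ _ huv)
    rcases a1 with a1 | a1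
    · exact hne' a1.symm
    · rcases a2 with a2 | a2
      · exact hne' a2
      · omega
  refine ⟨V, fun p => ((p : ℕ), q p), ⟨hrefl, hsymm, htrans, ?_, ?_, oneV, ?_⟩, hVU⟩
  · intro u hu
    exact ⟨(hq u hu).2.1, (hq u hu).1, (hq u hu).2.2, hVU u hu, hqU u hu⟩
  · intro u hu v hv huv
    refine ⟨fun h => huv (Fin.ext h), fun h => ?_, fun h => ?_, fun h => ?_⟩
    · have h' : (u : ℕ) = q v := h
      have a1 : R v (q v) := (hq v hv).2.2
      rw [← h'] at a1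
      exact huv (oneV u hu v hv (hsymm _ _ a1))
    · have h' : q u = (v : ℕ) := h
      have a1 : R u (q u) := (hq u hu).2.2
      rw [h'] at a1
      exact huv (oneV u hu v hv a1)
    · have h' : q u = q v := h
      have a1 : R u (q u) := (hq u hu).2.2
      have a2 : R v (q v) := (hq v hv).2.2
      rw [h'] at a1
      exact huv (oneV u hu v hv (htrans _ _ _ a1 (hsymm _ _ a2)))
  · intro i j hij hj hRij hiU
    let w : Fin n := ⟨i, hij.trans hj⟩
    have hw : w ∈ V := (memV w).2 ⟨hiU, j, hj, hij, hRij⟩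
    refine ⟨w, hw, ?_⟩
    have b1 : i < q w := (hq w hw).2.1
    have a1 := hcl i (hij.trans hj) j hj (q w) (hq w hw).1 hiU hij.ne hRij (hq w hw).2.2
    rcases a1 with a1 | a1
    · omega
    · exact Prod.ext rfl a1

end Core3

open Core3 in
theorem I_Core3 (h1 : StFF) (h2 : StGood) : StCore3 := by
  classical
  intro n R hrefl hsymm htrans A B C hA3 hB3 hC3 hAn hBn hCn hAB hAC hBC hA hB hC hcl
  have cA : Cl n R A := ⟨hA3, hAn, hA⟩
  have cB : Cl n R B := ⟨hB3, hBn, hB⟩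
  have cC : Cl n R C := ⟨hC3, hCn, hC⟩
  have memU : ∀ i, i ∈ A ∪ B ∪ C ↔ i ∈ A ∨ i ∈ B ∨ i ∈ C := by
    intro i
    rw [Finset.mem_union, Finset.mem_union, or_assoc]
  obtain ⟨V, e, D, hVU⟩ := exDat hrefl hsymm htrans (A ∪ B ∪ C) (by
    intro i hi j hj hij
    rw [memU]
    rcases (memU i).1 hi with h | h | h
    · exact Or.inl ((hA i h j hj).1 hij)
    · exact Or.inr (Or.inl ((hB i h j hj).1 hij))
    · exact Or.inr (Or.inr ((hC i h j hj).1 hij))) hcl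
  obtain ⟨a, ha⟩ : A.Nonempty := by
    rw [← Finset.card_pos]
    omega
  let g : Fin n := ⟨a, Finset.mem_range.1 (hAn ha)⟩
  have hg : g ∉ V := fun h => hVU g h ((memU a).2 (Or.inl ha))
  have castne : ∀ x y : ℕ, x ≠ y → (x : ℚ) ≠ y := fun x y h => by exact_mod_cast h
  have hgen : Gen (PQ e) V (im A ∪ im B ∪ im C) := by
    refine ⟨fun u hu => castne _ _ (D.eV u hu).1.ne, fun u hu v hv huv => ?_, fun u hu => ?_⟩
    · obtain ⟨a1, a2, a3, a4⟩ := D.dis u hu v hv huv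
      exact ⟨castne _ _ a1, castne _ _ a2, castne _ _ a3, castne _ _ a4⟩
    · obtain ⟨_, _, _, a4, a5⟩ := D.eV u hu
      rw [memU] at a4 a5
      have hh : ∀ x : ℕ, ¬ (x ∈ A ∨ x ∈ B ∨ x ∈ C) → (x : ℚ) ∉ im A ∪ im B ∪ im C := by
        intro x hx h
        rw [Finset.mem_union, Finset.mem_union, mem_im, mem_im, mem_im, or_assoc] at h
        exact hx h
      exact ⟨hh _ a4, hh _ a5⟩
  have hFF := h1 (PQ e) V g (im A) (im B) (im C) hg (by rw [card_im, hA3]) (by rw [card_im, hB3])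
    (by rw [card_im, hC3]) (disj_im hAB) (disj_im hAC) (disj_im hBC) hgen
  rw [card_im, card_im, card_im, hA3, hB3, hC3] at hFF
  have hgam : gam 3 3 3 = 1 := by
    unfold gam
    rw [if_pos (Or.inl ⟨rfl, rfl, rfl⟩)]
  rw [hgam] at hFF
  have pBAC : ∀ i, i ∈ A ∪ B ∪ C ↔ i ∈ B ∨ i ∈ A ∨ i ∈ C := by
    intro i; rw [memU]; tauto
  have pCAB : ∀ i, i ∈ A ∪ B ∪ C ↔ i ∈ C ∨ i ∈ A ∨ i ∈ B := by
    intro i; rw [memU]; tauto
  have pBCA : ∀ i, i ∈ A ∪ B ∪ C ↔ i ∈ B ∨ i ∈ C ∨ i ∈ A := by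
    intro i; rw [memU]; tauto
  show Con n R (A ∪ B ∪ C)
  by_contra hcon
  have t1 : T1 (PQ e) V mono mono mono (im A) (im B) (im C) = 0 := by
    by_contra h
    exact hcon (case1 h2 D cA cB cC memU eqc_mono eqc_mono h)
  have t2 : T1 (PQ e) V mono mono mono (im B) (im A) (im C) = 0 := by
    by_contra h
    exact hcon (case1 h2 D cB cA cC pBAC eqc_mono eqc_mono h)
  have t3 : T1 (PQ e) V mono mono mono (im C) (im A) (im B) = 0 := by
    by_contra h
    exact hcon (case1 h2 D cC cA cB pCAB eqc_mono eqc_mono h)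
  have t4 : T2 (PQ e) V g allc mono mono (im A) (im B) (im C) = 0 := by
    by_contra h
    exact hcon (case2 h2 D cA cB cC memU hAB eqc_mono hg h)
  have t5 : T2 (PQ e) V g mono allc mono (im A) (im B) (im C) = 0 := by
    by_contra h
    exact hcon (case2 h2 D cA cB cC memU hAB eqc_mono hg h)
  have t6 : T2 (PQ e) V g mono mono noc (im B) (im C) (im A) = 0 := by
    by_contra h
    exact hcon (case2 h2 D cB cC cA pBCA hBC eqc_noc hg h)
  have t7 : T2 (PQ e) V g allc mono mono (im B) (im C) (im A) = 0 := by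
    by_contra h
    exact hcon (case2 h2 D cB cC cA pBCA hBC eqc_mono hg h)
  unfold FF at hFF
  rw [t1, t2, t3, t4, t5, t6, t7] at hFF
  simp at hFF

end Pool.Agent.Work.MP_7794fd_co.T
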