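import Pool.Agent.Work.MP_7794fd_co.T.Stmts
import Pool.Agent.Work.MP_7794fd_co.R.Equiv

/-! MP_7794fd_co, module T: the relation to lie in the same bridge of a circuit `C`. -/

set_option autoImplicit false

namespace Pool.Agent.Work.MP_7794fd_co.T

open Finset Matrix
open Pool.Agent.Work.MP_7794fd_co.R

open Pool.Agent.Work.MP_7794fd_co.R.Equiv in
theorem I_Eq0 : StEq0 := by
  intro V E _ _ _ _ G C hG hC
  refine ⟨?_, ?_, ?_, ?_⟩
  · rintro v w (h | ⟨e, h1, h2, h3⟩ | ⟨u, h1, h2, h3⟩)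
    · exact Or.inl h.symm
    · exact Or.inr (Or.inl ⟨e, h1, h2, by rw [h3, Sym2.eq_swap]⟩)
    · exact Or.inr (Or.inr ⟨u, h1, h3, h2⟩)
  · rintro v w z hv hw hz (rfl | ⟨e, h1, h2, h3⟩ | ⟨u, h1, h2, h3⟩)
      h'
    · exact h'
    · rcases h' with rfl | ⟨e', k1, k2, k3⟩ | ⟨u', k1, k2, k3⟩
      · exact Or.inr (Or.inl ⟨e, h1, h2, h3⟩)
      · exact Or.inl (chord_chord G hG hC hw h1 k1 h3 k3)
      · exact (chord_att G hG hC k1 hv h1 h3 k2).elim
    · rcases h' with rfl | ⟨e', k1, k2, k3⟩ | ⟨u', k1, k2, k3⟩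
      · exact Or.inr (Or.inr ⟨u, h1, h2, h3⟩)
      · exact (chord_att G hG hC h1 hz k1 (by rw [k3, Sym2.eq_swap]) h3).elim
      · exact Or.inr (Or.inr ⟨u', k1, att_att G hG hC h1 k1 h2 h3 k2, k3⟩)
  · rintro v hv w hw z hz hvw hwz hvz (rfl | ⟨e, h1, h2, h3⟩ | ⟨u, h1, h2, h3⟩) h'
    · exact absurd rfl hvw
    · rcases h' with rfl | ⟨e', k1, k2, k3⟩ | ⟨u', k1, k2, k3⟩
      · exact absurd rfl hwz
      · exact absurd (chord_chord G hG hC hw h1 k1 h3 k3) hvz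
      · exact (chord_att G hG hC k1 hv h1 h3 k2).elim
    · rcases h' with rfl | ⟨e', k1, k2, k3⟩ | ⟨u', k1, k2, k3⟩
      · exact absurd rfl hwz
      · exact (chord_att G hG hC h1 hz k1 (by rw [k3, Sym2.eq_swap]) h3).elim
      · exact ⟨u', by rwa [Finset.union_empty] at k1, att_att G hG hC h1 k1 h2 h3 k2, k2, k3⟩
  · rintro u hu v hv w hw (rfl | ⟨e, h1, h2, h3⟩ | ⟨u', h1, h2, h3⟩)
    · exact hv
    · have hu' : u ∉ verts G (C ∪ ∅) := by rwa [Finset.union_empty]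
      exact (chord_att G hG hC hu' hw h1 (by rw [h3, Sym2.eq_swap]) hv).elim
    · have hu' : u ∉ verts G (C ∪ ∅) := by rwa [Finset.union_empty]
      exact att_att G hG hC h1 hu' h3 h2 hv

end Pool.Agent.Work.MP_7794fd_co.T
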