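import Pool.Agent.Work.MP_7794fd_co.T.Stmts

set_option autoImplicit false

namespace Pool.Agent.Work.MP_7794fd_co.T

open Finset Matrix
open Pool.Agent.Work.MP_7794fd_co.R

namespace Eval

theorem two : (1 : ZMod 2) + 1 = 0 := by decide

theorem lt2_add (x y : ℚ) (h : x ≠ y) : lt2 x y + lt2 y x = 1 := by
  unfold lt2
  rcases lt_trichotomy x y with h' | h' | h'
  · rw [if_pos h', if_neg (not_lt.2 h'.le), add_zero]
  · exact absurd h' h
  · rw [if_neg (not_lt.2 h'.le), if_pos h', zero_add]

theorem cr_comm' (u v : ℚ × ℚ) (h1 : u.1 ≠ v.1) (h2 : u.1 ≠ v.2) (h3 : u.2 ≠ v.1)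
    (h4 : u.2 ≠ v.2) : cr u v = cr v u := by
  unfold cr pt
  have a1 := lt2_add _ _ h1
  have a2 := lt2_add _ _ h2
  have a3 := lt2_add _ _ h3
  have a4 := lt2_add _ _ h4
  have e : ∀ a b c d a' b' c' d' : ZMod 2, a + a' = 1 → b + b' = 1 → c + c' = 1 → d + d' = 1 →
      a' + b' + (c' + d') = a + c + (b + d) := by decide
  have := e _ _ _ _ _ _ _ _ a1 a2 a3 a4
  rw [this]

end Eval

open Eval in
theorem I_Eval : StEval := by
  intro ι _ _ pos g H₁ H₂ H₃ A B C hAB
  constructor
  · unfold T1 E1
    refine sum_congr rfl fun p _ => ?_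
    unfold SB
    rw [powerset_empty, sum_singleton]
    have h1 : BB (pt p) pos (∅ ∪ ∅) (∅ ∪ ∅) = 1 := by
      ext u v
      unfold BB
      rw [Matrix.one_apply]
      by_cases h : u = v
      · rw [if_pos h, if_neg (by simp), if_pos h]
      · rw [if_neg h, if_neg (by simp), if_neg h]
    have h2 : kb (pt p) pos (∅ ∪ ∅) = pt p := by
      funext z
      simp [kb]
    rw [h1, det_one, one_mul, h2]
  · unfold T2 E2
    refine sum_congr rfl fun p hp => sum_congr rfl fun p' hp' => ?_
    unfold pairs at hp hp'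
    rw [mem_filter, mem_product] at hp hp'
    unfold SB
    rw [powerset_empty, sum_singleton, empty_union]
    have h2 : kb (pt p) (Function.update pos g p') {g} = fun z => pt p z + pt p' z := by
      funext z
      simp [kb]
    have h1 : BB (pt p) (Function.update pos g p') {g} {g} =
        Matrix.diagonal (fun u => if u = g then cr p p' else 1) := by
      ext u v
      unfold BB
      by_cases h : u = v
      · subst h
        rw [if_pos rfl, Matrix.diagonal_apply_eq]
        by_cases hu : u = g
        · subst hu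
          rw [if_pos (mem_singleton_self _), if_pos rfl, h2, Function.update_self]
          have hd : ∀ x ∈ A, ∀ y ∈ B, x ≠ y := fun x hx y hy he =>
            (Finset.disjoint_left.1 hAB hx) (he ▸ hy)
          have h5 := cr_comm' p p' (hd _ hp.1.1 _ hp'.1.1) (hd _ hp.1.1 _ hp'.1.2)
            (hd _ hp.1.2 _ hp'.1.1) (hd _ hp.1.2 _ hp'.1.2)
          rw [h5]
          have h6 := lt2_add p'.1 p'.2 hp'.2.ne
          have h7 : lt2 p'.1 p'.1 = 0 := by unfold lt2; rw [if_neg (lt_irrefl _)]
          have h8 : lt2 p'.2 p'.2 = 0 := by unfold lt2; rw [if_neg (lt_irrefl _)]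
          show 1 + (pt p p'.1 + pt p' p'.1) + (pt p p'.2 + pt p' p'.2) = cr p' p
          unfold cr
          have h9 : pt p' p'.1 + pt p' p'.2 = 1 := by
            unfold pt
            rw [h7, h8, zero_add, add_zero, add_comm]
            exact h6
          have e : ∀ a b c d : ZMod 2, b + d = 1 → 1 + (a + b) + (c + d) = a + c := by decide
          exact e _ _ _ _ h9
        · rw [if_neg (by simpa using hu), if_neg hu]
      · rw [if_neg h, Matrix.diagonal_apply_ne _ h, if_neg]
        rintro ⟨h3, h4⟩
        rw [mem_singleton] at h3 h4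
        exact h (h3.trans h4.symm)
    rw [h1, det_diagonal, h2, Finset.prod_ite_eq' univ g (fun _ => cr p p'), if_pos (mem_univ _)]

end Pool.Agent.Work.MP_7794fd_co.T
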