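import Pool.Agent.Work.MP_7794fd_co.T.Stmts
import Pool.Agent.Work.MP_7794fd_co.R.Om

/-! MP_7794fd_co, module T, item FF: the functional of three bridges is constant. -/

set_option autoImplicit false
set_option linter.unusedSectionVars false

namespace Pool.Agent.Work.MP_7794fd_co.T

open Finset Matrix
open Pool.Agent.Work.MP_7794fd_co.R
open Pool.Agent.Work.MP_7794fd_co.R.Om

namespace FFAux

variable {ι : Type} [Fintype ι] [DecidableEq ι]

theorem slide {V : Finset ι} {u : ι} {c' c q : ℚ} {A : Finset ℚ}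
    {f : Finset ι → Finset ℚ → ZMod 2} (h : SlEq V u c' c q A f)
    (h1 : f (V.erase u) (insert c A) = f (V.erase u) (insert q A))
    (h2 : f V A = f (V.erase u) A) : f V (insert c A) = f V (insert c' A) := by
  unfold SlEq at h
  rw [h1, h2, self_add, zero_add, self_add] at h
  exact two_eq h

/-- one step of the induction: the point `c` of `A` moves over the end `p` -/
theorem step {pos : ι → ℚ × ℚ} {V : Finset ι} (F : Finset ι → Finset ℚ → ZMod 2)
    (γ : ℕ → ZMod 2) (A Z : Finset ℚ) (hd : Disjoint A Z) (hG : Gen pos V (A ∪ Z))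
    (c c' p : ℚ) (hc : c ∈ A) (hp : p ∈ ends pos V) (h1 : c' < p) (h2 : p < c)
    (hA : ∀ a ∈ A ∪ Z, a ≠ c → Away c' c a) (hE : ∀ e ∈ ends pos V, e ≠ p → Away c' c e)
    (hsl : ∀ (A0 : Finset ℚ) (u : ι) (q : ℚ), Sl pos V u c' c p q (A0 ∪ Z) →
      SlEq V u c' c q A0 F)
    (i1 : ∀ (V' : Finset ι) (A' : Finset ℚ), V' ⊆ V → A'.card < A.card → Disjoint A' Z →
      Gen pos V' (A' ∪ Z) → F V' A' = γ A'.card)
    (i2 : ∀ (V' : Finset ι) (A' : Finset ℚ), V' ⊆ V → V'.card < V.card → A'.card = A.card →
      Disjoint A' Z → Gen pos V' (A' ∪ Z) → F V' A' = γ A'.card)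
    (i3 : ∀ A' : Finset ℚ, A'.card = A.card →
      pot (ends pos V) (A' ∪ Z) < pot (ends pos V) (A ∪ Z) → Disjoint A' Z →
      Gen pos V (A' ∪ Z) → F V A' = γ A'.card) :
    F V A = γ A.card := by
  obtain ⟨u, hu, q, hpq⟩ := mem_ends hp
  have hpq' : p ≠ q ∧ q ∈ ends pos V ∧ (∀ w ∈ V, w ≠ u → (pos w).1 ≠ p ∧ (pos w).2 ≠ p ∧
      (pos w).1 ≠ q ∧ (pos w).2 ≠ q) := by
    have g1 := hG.ne u hu
    have g2 := fun w hw hwu => hG.dis w hw u hu hwu
    rcases hpq with h | h
    · rw [h] at g1
      refine ⟨g1, ?_, fun w hw hwu => ?_⟩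
      · have := mem_ends2 (pos := pos) hu; rwa [h] at this
      · have := g2 w hw hwu; rw [h] at this
        exact ⟨this.1, this.2.2.1, this.2.1, this.2.2.2⟩
    · rw [h] at g1
      refine ⟨g1.symm, ?_, fun w hw hwu => ?_⟩
      · have := mem_ends1 (pos := pos) hu; rwa [h] at this
      · have := g2 w hw hwu; rw [h] at this
        exact ⟨this.2.1, this.2.2.2, this.1, this.2.2.1⟩
  obtain ⟨hpq1, hqE, hoth⟩ := hpq'
  have hqaw : Away c' c q := hE q hqE hpq1.symm
  have hVaw : ∀ w ∈ V, w ≠ u → Away c' c (pos w).1 ∧ Away c' c (pos w).2 :=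
    fun w hw hwu => ⟨hE _ (mem_ends1 hw) (hoth w hw hwu).1,
      hE _ (mem_ends2 hw) (hoth w hw hwu).2.1⟩
  have hc'aw : ¬ Away c' c c' := by
    rintro (h | h)
    · exact lt_irrefl _ h
    · exact absurd (h1.trans h2) (not_lt.mpr h.le)
  have hcaw : ¬ Away c' c c := by
    rintro (h | h)
    · exact absurd (h1.trans h2) (not_lt.mpr h.le)
    · exact lt_irrefl _ h
  set B := A.erase c with hB
  have hAB : insert c B = A := Finset.insert_erase hc
  have hcB : c ∉ B := Finset.notMem_erase c A
  have hBA : B ⊆ A := Finset.erase_subset _ _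
  have hZaw : ∀ a ∈ Z, Away c' c a := fun a ha =>
    hA a (Finset.mem_union_right _ ha) fun h => Finset.disjoint_left.mp hd hc (h ▸ ha)
  have hBaw : ∀ a ∈ B ∪ Z, Away c' c a := fun a ha => by
    rcases Finset.mem_union.mp ha with ha | ha
    · exact hA a (Finset.mem_union_left _ (hBA ha)) (Finset.ne_of_mem_erase ha)
    · exact hZaw a ha
  have hc'BZ : c' ∉ B ∪ Z := fun h => hc'aw (hBaw c' h)
  have hcBZ : c ∉ B ∪ Z := fun h => hcaw (hBaw c h)
  have hc'B : c' ∉ B := fun h => hc'BZ (Finset.mem_union_left _ h)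
  have hc'Z : c' ∉ Z := fun h => hc'BZ (Finset.mem_union_right _ h)
  have hcZ : c ∉ Z := fun h => hcBZ (Finset.mem_union_right _ h)
  have hqAZ : q ∉ A ∪ Z := fun h => not_mem_of_ends hG h hqE
  have hqZ : q ∉ Z := fun h => hqAZ (Finset.mem_union_right _ h)
  have hqB : q ∉ B := fun h => hqAZ (Finset.mem_union_left _ (hBA h))
  have hBc : B.card + 1 = A.card := by rw [← hAB, Finset.card_insert_of_notMem hcB]
  have hcardc' : (insert c' B).card = A.card := by
    rw [Finset.card_insert_of_notMem hc'B, hBc]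
  have hcardc : (insert c B).card = A.card := by rw [hAB]
  have hcardq : (insert q B).card = A.card := by
    rw [Finset.card_insert_of_notMem hqB, hBc]
  have hcardV : (V.erase u).card < V.card := Finset.card_erase_lt_of_mem hu
  have hVV : V.erase u ⊆ V := Finset.erase_subset _ _
  have hdB : Disjoint B Z := Finset.disjoint_of_subset_left hBA hd
  have hdi : ∀ x : ℚ, x ∉ Z → Disjoint (insert x B) Z := fun x hx =>
    Finset.disjoint_insert_left.mpr ⟨hx, hdB⟩
  have hGB : Gen pos V (B ∪ Z) := gen_mono hG subset_rfl fun w hw =>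
    ⟨fun h => (hG.out w hw).1 (Finset.union_subset_union_left hBA h),
      fun h => (hG.out w hw).2 (Finset.union_subset_union_left hBA h)⟩
  have hc'E : ∀ e ∈ ends pos V, e ≠ c' := by
    intro e he h
    by_cases hep : e = p
    · exact h1.ne (h.symm.trans hep)
    · exact hc'aw (h ▸ hE e he hep)
  have key : ∀ (x e : ℚ), e ≠ x → e ∉ B ∪ Z → e ∉ insert x B ∪ Z := by
    intro x e he he2 he3
    rw [Finset.insert_union] at he3
    rcases Finset.mem_insert.mp he3 with h | h
    · exact he h
    · exact he2 h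
  have hGc' : Gen pos V (insert c' B ∪ Z) := gen_mono hG subset_rfl fun w hw =>
    ⟨key _ _ (hc'E _ (mem_ends1 hw)) (hGB.out w hw).1,
      key _ _ (hc'E _ (mem_ends2 hw)) (hGB.out w hw).2⟩
  have hGq : Gen pos (V.erase u) (insert q B ∪ Z) := gen_mono hG hVV fun w hw => by
    have g1 := hoth w (hVV hw) (Finset.ne_of_mem_erase hw)
    have g2 := hGB.out w (hVV hw)
    exact ⟨key _ _ g1.2.2.1 g2.1, key _ _ g1.2.2.2 g2.2⟩
  have hGc : Gen pos (V.erase u) (insert c B ∪ Z) := by
    rw [hAB]; exact gen_mono hG hVV fun w hw => hG.out w (hVV hw)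
  have hGB' : Gen pos (V.erase u) (B ∪ Z) :=
    gen_mono hGB hVV fun w hw => hGB.out w (hVV hw)
  have hBlt : B.card < A.card := by omega
  have last : F V (insert c' B) = γ (insert c' B).card := by
    refine i3 (insert c' B) hcardc' ?_ (hdi c' hc'Z) hGc'
    have e1 : A ∪ Z = insert c (B ∪ Z) := by rw [← Finset.insert_union, hAB]
    rw [e1, Finset.insert_union]
    exact pot_lt hcBZ hc'BZ hp h1 h2
  have hs := hsl B u q ⟨hu, hpq, h1, h2, hqaw, hVaw, hBaw, hGB⟩
  have hfin := slide hs
    (by rw [i2 (V.erase u) (insert c B) hVV hcardV hcardc (hdi c hcZ) hGc,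
      i2 (V.erase u) (insert q B) hVV hcardV hcardq (hdi q hqZ) hGq, hcardc, hcardq])
    (by rw [i1 V B subset_rfl hBlt hdB hGB, i1 (V.erase u) B hVV hBlt hdB hGB'])
  rw [← hAB, hfin, last, hcardc', hAB]

end FFAux

open FFAux in
theorem I_FF (h1 : StFSl) (h2 : StFFar) (h3 : StEval) (h4 : StWord) : StFF := by
  intro ι _ _ pos V0 g A0 B0 C0 hg0 hA0 hB0 hC0 hAB0 hAC0 hBC0 hG0
  have main : ∀ (N1 N2 N3 : ℕ) (V : Finset ι) (A B C : Finset ℚ),
      A.card + B.card + C.card = N1 → V.card = N2 →
      pot (ends pos V) (A ∪ B ∪ C) = N3 → g ∉ V → A.card ≤ 3 → B.card ≤ 3 → C.card ≤ 3 →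
      Disjoint A B → Disjoint A C → Disjoint B C → Gen pos V (A ∪ B ∪ C) →
      FF pos V g A B C = gam A.card B.card C.card := by
    intro N1
    induction N1 using Nat.strong_induction_on with
    | _ N1 ih1 =>
    intro N2
    induction N2 using Nat.strong_induction_on with
    | _ N2 ih2 =>
    intro N3
    induction N3 using Nat.strong_induction_on with
    | _ N3 ih3 =>
    intro V A B C hN1 hN2 hN3 hg hA hB hC hAB hAC hBC hG
    by_cases hpot : ∃ a ∈ A ∪ B ∪ C, ∃ e ∈ ends pos V, e < a
    · obtain ⟨c, hcZ, p, hpE, c', k1, k2, hAw, hEw⟩ := geo (ends pos V) (A ∪ B ∪ C)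
        (fun a ha => not_mem_of_ends hG ha) hpot
      rcases Finset.mem_union.mp hcZ with hcAB | hcC
      · rcases Finset.mem_union.mp hcAB with hcA | hcB
        · -- the point is in `A`
          have eq : ∀ X : Finset ℚ, X ∪ (B ∪ C) = X ∪ B ∪ C := fun X =>
            (Finset.union_assoc X B C).symm
          refine step (fun V' A' => FF pos V' g A' B C) (fun n => gam n B.card C.card) A (B ∪ C)
            (Finset.disjoint_union_right.mpr ⟨hAB, hAC⟩) (by rw [eq]; exact hG) c c' p hcA hpE
            k1 k2 (by rw [eq]; exact hAw) hEw ?_ ?_ ?_ ?_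
          · intro A1 u q hs
            rw [eq] at hs
            exact (h1 pos V g u c' c p q A1 B C hg hs).1
          · intro V' A' hV' hc hd hG'
            rw [eq] at hG'
            obtain ⟨d1, d2⟩ := Finset.disjoint_union_right.mp hd
            exact ih1 (A'.card + B.card + C.card) (by omega) _ _ V' A' B C rfl rfl rfl
              (fun h => hg (hV' h)) (by omega) hB hC d1 d2 hBC hG'
          · intro V' A' hV' hV'' hc hd hG'
            rw [eq] at hG'
            obtain ⟨d1, d2⟩ := Finset.disjoint_union_right.mp hd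
            exact ih2 V'.card (by omega) _ V' A' B C (by omega) rfl rfl
              (fun h => hg (hV' h)) (by omega) hB hC d1 d2 hBC hG'
          · intro A' hc hpt hd hG'
            rw [eq] at hG'
            rw [eq, eq, hN3] at hpt
            obtain ⟨d1, d2⟩ := Finset.disjoint_union_right.mp hd
            exact ih3 _ hpt V A' B C (by omega) hN2 rfl hg (by omega) hB hC d1 d2 hBC hG'
        · -- the point is in `B`
          have eq : ∀ X : Finset ℚ, X ∪ (A ∪ C) = A ∪ X ∪ C := fun X => by
            rw [← Finset.union_assoc, Finset.union_comm X A]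
          refine step (fun V' B' => FF pos V' g A B' C) (fun n => gam A.card n C.card) B (A ∪ C)
            (Finset.disjoint_union_right.mpr ⟨hAB.symm, hBC⟩) (by rw [eq]; exact hG) c c' p hcB hpE
            k1 k2 (by rw [eq]; exact hAw) hEw ?_ ?_ ?_ ?_
          · intro B1 u q hs
            rw [eq] at hs
            exact (h1 pos V g u c' c p q A B1 C hg hs).2.1
          · intro V' B' hV' hc hd hG'
            rw [eq] at hG'
            obtain ⟨d1, d2⟩ := Finset.disjoint_union_right.mp hd
            exact ih1 (A.card + B'.card + C.card) (by omega) _ _ V' A B' C rfl rfl rfl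
              (fun h => hg (hV' h)) hA (by omega) hC d1.symm hAC d2 hG'
          · intro V' B' hV' hV'' hc hd hG'
            rw [eq] at hG'
            obtain ⟨d1, d2⟩ := Finset.disjoint_union_right.mp hd
            exact ih2 V'.card (by omega) _ V' A B' C (by omega) rfl rfl
              (fun h => hg (hV' h)) hA (by omega) hC d1.symm hAC d2 hG'
          · intro B' hc hpt hd hG'
            rw [eq] at hG'
            rw [eq, eq, hN3] at hpt
            obtain ⟨d1, d2⟩ := Finset.disjoint_union_right.mp hd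
            exact ih3 _ hpt V A B' C (by omega) hN2 rfl hg hA (by omega) hC d1.symm hAC d2 hG'
      · -- the point is in `C`
        have eq : ∀ X : Finset ℚ, X ∪ (A ∪ B) = A ∪ B ∪ X := fun X =>
          Finset.union_comm X (A ∪ B)
        refine step (fun V' C' => FF pos V' g A B C') (fun n => gam A.card B.card n) C (A ∪ B)
          (Finset.disjoint_union_right.mpr ⟨hAC.symm, hBC.symm⟩) (by rw [eq]; exact hG) c c' p
          hcC hpE k1 k2 (by rw [eq]; exact hAw) hEw ?_ ?_ ?_ ?_
        · intro C1 u q hs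
          rw [eq] at hs
          exact (h1 pos V g u c' c p q A B C1 hg hs).2.2
        · intro V' C' hV' hc hd hG'
          rw [eq] at hG'
          obtain ⟨d1, d2⟩ := Finset.disjoint_union_right.mp hd
          exact ih1 (A.card + B.card + C'.card) (by omega) _ _ V' A B C' rfl rfl rfl
            (fun h => hg (hV' h)) hA hB (by omega) hAB d1.symm d2.symm hG'
        · intro V' C' hV' hV'' hc hd hG'
          rw [eq] at hG'
          obtain ⟨d1, d2⟩ := Finset.disjoint_union_right.mp hd
          exact ih2 V'.card (by omega) _ V' A B C' (by omega) rfl rfl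
            (fun h => hg (hV' h)) hA hB (by omega) hAB d1.symm d2.symm hG'
        · intro C' hc hpt hd hG'
          rw [eq] at hG'
          rw [eq, eq, hN3] at hpt
          obtain ⟨d1, d2⟩ := Finset.disjoint_union_right.mp hd
          exact ih3 _ hpt V A B C' (by omega) hN2 rfl hg hA hB (by omega) hAB d1.symm d2.symm hG'
    · push Not at hpot
      obtain ⟨t, ht1, ht2⟩ := Order.exists_between_finsets (A ∪ B ∪ C) (ends pos V)
        (fun x hx y hy => lt_of_le_of_ne (hpot x hx y hy)
          fun h => not_mem_of_ends hG hx (h ▸ hy))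
      have hG' : Gen pos V ∅ := gen_mono hG subset_rfl fun w _ =>
        ⟨Finset.notMem_empty _, Finset.notMem_empty _⟩
      rw [h2 pos V g t A B C hg hG' (fun u hu => ⟨ht2 _ (mem_ends1 hu), ht2 _ (mem_ends2 hu)⟩)
        ht1, ← h4 A B C hA hB hC hAB hAC hBC]
      unfold FF E0
      rw [(h3 pos g mono mono mono A B C hAB).1, (h3 pos g mono mono mono B A C hAB.symm).1,
        (h3 pos g mono mono mono C A B hAC.symm).1, (h3 pos g allc mono mono A B C hAB).2,
        (h3 pos g mono allc mono A B C hAB).2, (h3 pos g mono mono noc B C A hBC).2,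
        (h3 pos g allc mono mono B C A hBC).2]
  exact main _ _ _ V0 A0 B0 C0 rfl rfl rfl hg0 hA0 hB0 hC0 hAB0 hAC0 hBC0 hG0

end Pool.Agent.Work.MP_7794fd_co.T
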