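import Pool.Agent.Work.MP_7794fd_co.T.Stmts

/-! Project MP_7794fd_co, module T: item 17, all free chords lie behind all marked points. -/

set_option autoImplicit false

namespace Pool.Agent.Work.MP_7794fd_co.T

open Finset Matrix
open Pool.Agent.Work.MP_7794fd_co.R

namespace FFar

theorem pt_zero (p : ℚ × ℚ) (t z : ℚ) (h1 : p.1 < t) (h2 : p.2 < t) (hz : t < z) :
    pt p z = 0 := by
  unfold pt lt2
  rw [if_pos (h1.trans hz), if_pos (h2.trans hz)]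
  rfl

theorem mem_pairs {A : Finset ℚ} {p : ℚ × ℚ} (h : p ∈ pairs A) : p.1 ∈ A ∧ p.2 ∈ A := by
  unfold pairs at h
  rw [Finset.mem_filter, Finset.mem_product] at h
  exact h.1

theorem rest_sub (A : Finset ℚ) (p : ℚ × ℚ) : rest A p ⊆ A :=
  (Finset.erase_subset _ _).trans (Finset.erase_subset _ _)

/-- a product of three functionals of points below `t` -/
theorem prod_loc {H₁ H₂ H₃ : Finset ℚ → (ℚ → ZMod 2) → ZMod 2} (m₁ : Multi H₁) (m₂ : Multi H₂)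
    (m₃ : Multi H₃) {A B C : Finset ℚ} {t : ℚ} (hA : ∀ z ∈ A, z < t) (hB : ∀ z ∈ B, z < t)
    (hC : ∀ z ∈ C, z < t) (κ₁ κ₂ : ℚ → ZMod 2) (h : ∀ z < t, κ₁ z = κ₂ z) :
    H₁ A κ₁ * H₂ B κ₁ * H₃ C κ₁ = H₁ A κ₂ * H₂ B κ₂ * H₃ C κ₂ := by
  rw [m₁.loc A κ₁ κ₂ fun a ha => h a (hA a ha), m₂.loc B κ₁ κ₂ fun a ha => h a (hB a ha),
    m₃.loc C κ₁ κ₂ fun a ha => h a (hC a ha)]

variable {ι : Type} [Fintype ι] [DecidableEq ι]

theorem T1_far (h : StBFar) (pos : ι → ℚ × ℚ) (V : Finset ι) (t : ℚ)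
    {H₁ H₂ H₃ : Finset ℚ → (ℚ → ZMod 2) → ZMod 2} (m₁ : Multi H₁) (m₂ : Multi H₂)
    (m₃ : Multi H₃) (A B C : Finset ℚ) (hG : Gen pos V ∅)
    (hV : ∀ u ∈ V, t < (pos u).1 ∧ t < (pos u).2) (hA : ∀ z ∈ A, z < t) (hB : ∀ z ∈ B, z < t)
    (hC : ∀ z ∈ C, z < t) : T1 pos V H₁ H₂ H₃ A B C = T1 pos ∅ H₁ H₂ H₃ A B C := by
  unfold T1
  refine Finset.sum_congr rfl fun p hp => ?_
  obtain ⟨hp1, hp2⟩ := mem_pairs hp
  refine h (pt p) pos V ∅ t _ (Finset.disjoint_empty_right V) hG hV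
    (fun w hw => absurd hw (Finset.notMem_empty w))
    (fun z hz => pt_zero p t z (hA _ hp1) (hA _ hp2) hz) ?_
  intro κ₁ κ₂ hk
  exact prod_loc m₁ m₂ m₃ (fun z hz => hA z (rest_sub A p hz)) hB hC κ₁ κ₂ hk

theorem T2_far (h : StBFar) (pos : ι → ℚ × ℚ) (V : Finset ι) (g : ι) (t : ℚ)
    {H₁ H₂ H₃ : Finset ℚ → (ℚ → ZMod 2) → ZMod 2} (m₁ : Multi H₁) (m₂ : Multi H₂)
    (m₃ : Multi H₃) (A B C : Finset ℚ) (hg : g ∉ V) (hG : Gen pos V ∅)
    (hV : ∀ u ∈ V, t < (pos u).1 ∧ t < (pos u).2) (hA : ∀ z ∈ A, z < t) (hB : ∀ z ∈ B, z < t)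
    (hC : ∀ z ∈ C, z < t) : T2 pos V g H₁ H₂ H₃ A B C = T2 pos ∅ g H₁ H₂ H₃ A B C := by
  unfold T2
  refine Finset.sum_congr rfl fun p hp => Finset.sum_congr rfl fun p' hp' => ?_
  obtain ⟨hp1, hp2⟩ := mem_pairs hp
  obtain ⟨hq1, hq2⟩ := mem_pairs hp'
  have hne : ∀ u ∈ V, Function.update pos g p' u = pos u := fun u hu =>
    Function.update_of_ne (show u ≠ g from fun e => hg (e ▸ hu)) _ _
  refine h (pt p) (Function.update pos g p') V {g} t _ (Finset.disjoint_singleton_right.2 hg)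
    ?_ ?_ ?_ (fun z hz => pt_zero p t z (hA _ hp1) (hA _ hp2) hz) ?_
  · refine ⟨fun u hu => ?_, fun u hu v hv huv => ?_, fun u hu => ?_⟩
    · rw [hne u hu]
      exact hG.ne u hu
    · rw [hne u hu, hne v hv]
      exact hG.dis u hu v hv huv
    · rw [hne u hu]
      exact hG.out u hu
  · intro u hu
    rw [hne u hu]
    exact hV u hu
  · intro w hw
    rw [Finset.mem_singleton] at hw
    subst hw
    rw [Function.update_self]
    exact ⟨hB _ hq1, hB _ hq2⟩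
  · intro κ₁ κ₂ hk
    exact prod_loc m₁ m₂ m₃ (fun z hz => hA z (rest_sub A p hz))
      (fun z hz => hB z (rest_sub B p' hz)) hC κ₁ κ₂ hk

end FFar

open FFar in
theorem I_FFar (hM : StMulti) (h : StBFar) : StFFar := by
  intro ι _ _ pos V g t A B C hg hG hV hZ
  obtain ⟨m, a, n⟩ := hM
  have hA : ∀ z ∈ A, z < t := fun z hz =>
    hZ z (Finset.mem_union_left _ (Finset.mem_union_left _ hz))
  have hB : ∀ z ∈ B, z < t := fun z hz =>
    hZ z (Finset.mem_union_left _ (Finset.mem_union_right _ hz))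
  have hC : ∀ z ∈ C, z < t := fun z hz => hZ z (Finset.mem_union_right _ hz)
  unfold FF
  rw [T1_far h pos V t m m m A B C hG hV hA hB hC, T1_far h pos V t m m m B A C hG hV hB hA hC,
    T1_far h pos V t m m m C A B hG hV hC hA hB,
    T2_far h pos V g t a m m A B C hg hG hV hA hB hC,
    T2_far h pos V g t m a m A B C hg hG hV hA hB hC,
    T2_far h pos V g t m m n B C A hg hG hV hB hC hA,
    T2_far h pos V g t a m m B C A hg hG hV hB hC hA]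

end Pool.Agent.Work.MP_7794fd_co.T
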