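import Pool.Agent.Work.MP_7794fd_co.T.Stmts
import Pool.Agent.Work.MP_7794fd_co.R.Core

/-! Project MP_7794fd_co, module T, item 20: from a state with nonzero determinant to a good
pairing. -/

set_option autoImplicit false

namespace Pool.Agent.Work.MP_7794fd_co.T

open Finset Matrix
open Pool.Agent.Work.MP_7794fd_co.R

namespace GoodAux

variable {n r : ℕ}

theorem rot_lt (hr : r < n) {x : ℕ} (hx : x < n) : rot n r x < n := by
  unfold rot
  split_ifs with h <;> omega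

theorem rot_add (hr : r < n) {x : ℕ} (hx : x < n) : (rot n r x + r) % n = x := by
  unfold rot
  split_ifs with h
  · rw [Nat.sub_add_cancel h, Nat.mod_eq_of_lt hx]
  · rw [show x + n - r + r = x + n by omega, Nat.add_mod_right, Nat.mod_eq_of_lt hx]

theorem rot_inj (hr : r < n) {x x' : ℕ} (hx : x < n) (hx' : x' < n)
    (h : rot n r x = rot n r x') : x = x' := by
  rw [← rot_add hr hx, ← rot_add hr hx', h]

theorem rot_self : rot n r r = 0 := by
  unfold rot
  rw [if_pos le_rfl, Nat.sub_self]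

theorem rot_inv (hr : r < n) {i : ℕ} (hi : i < n) : rot n r ((i + r) % n) = i := by
  have h0 : (i + r) % n < n := Nat.mod_lt _ (by omega)
  rcases Nat.lt_or_ge (i + r) n with h | h
  · rw [Nat.mod_eq_of_lt h]
    unfold rot
    rw [if_pos (by omega)]
    omega
  · have e : (i + r) % n = i + r - n := by
      rw [Nat.mod_eq_sub_mod h, Nat.mod_eq_of_lt (by omega)]
    rw [e]
    unfold rot
    rw [if_neg (by omega)]
    omega

/-- the two ends of the rotated pair -/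
theorem rotp_cases (n r : ℕ) (p : ℕ × ℕ) :
    ((rotp n r p).1 = rot n r p.1 ∧ (rotp n r p).2 = rot n r p.2 ∧ rot n r p.1 ≤ rot n r p.2) ∨
    ((rotp n r p).1 = rot n r p.2 ∧ (rotp n r p).2 = rot n r p.1 ∧ rot n r p.2 ≤ rot n r p.1) := by
  unfold rotp
  rcases le_total (rot n r p.1) (rot n r p.2) with h | h
  · exact Or.inl ⟨min_eq_left h, max_eq_right h, h⟩
  · exact Or.inr ⟨min_eq_right h, max_eq_left h, h⟩

end GoodAux

open GoodAux in
theorem I_Good (h1 : StRot) (h2 : StKernel) (h3 : StPr) : StGood := by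
  intro n r s R e V N hrs hsn hNV hrefl hsymm htrans hRrs hV hdisV honeN hdet hsame
  have hrn : r < n := lt_trans hrs hsn
  have hy : rot n r s = s - r := by
    unfold rot
    exact if_pos hrs.le
  have hV' : ∀ u ∈ V, (e u).1 < n ∧ (e u).2 < n ∧ (e u).1 ≠ (e u).2 ∧ (e u).1 ≠ r ∧
      (e u).1 ≠ s ∧ (e u).2 ≠ r ∧ (e u).2 ≠ s := by
    intro u hu
    obtain ⟨a1, a2, a3, a4, a5, a6, -⟩ := hV u hu
    exact ⟨lt_trans a1 a2, a2, a1.ne, a3, a4, a5, a6⟩
  obtain ⟨δ, hd1, hd2⟩ := h1 n r s V N e hrs hsn hNV hV' hdisV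
  have ne0 : ∀ x, x < n → x ≠ r → rot n r x ≠ 0 := by
    intro x hx hxr h0
    apply hxr
    refine rot_inj hrn hx hrn ?_
    rw [h0, rot_self]
  have ney : ∀ x, x < n → x ≠ s → rot n r x ≠ rot n r s := fun x hx hxs h0 =>
    hxs (rot_inj hrn hx hsn h0)
  rw [← hy]
  refine Core.fin h2 h3 (rot n r s) (fun i j => R ((i + r) % n) ((j + r) % n)) ?_
    (rot_lt hrn hsn) (fun i => hrefl _) (fun i j h => hsymm _ _ h)
    (fun i j k h h' => htrans _ _ _ h h') (fun u => rotp n r (e u)) V N hNV ?_ ?_ ?_ ?_ ?_ ?_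
  · rw [hy]; omega
  · -- range
    intro u hu
    obtain ⟨a1, a2, a3, a4, a5, a6, a7⟩ := hV' u (hNV hu)
    have b1 := ne0 _ a1 a4
    have b2 := ne0 _ a2 a6
    have b3 := ney _ a1 a5
    have b4 := ney _ a2 a7
    have b5 : rot n r (e u).1 ≠ rot n r (e u).2 := fun h => a3 (rot_inj hrn a1 a2 h)
    have b6 := rot_lt hrn a1
    have b7 := rot_lt hrn a2
    show 0 < (rotp n r (e u)).1 ∧ (rotp n r (e u)).1 < (rotp n r (e u)).2 ∧
      (rotp n r (e u)).2 < n ∧ (rotp n r (e u)).1 ≠ rot n r s ∧ (rotp n r (e u)).2 ≠ rot n r s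
    rcases rotp_cases n r (e u) with ⟨c1, c2, c3⟩ | ⟨c1, c2, c3⟩
    · rw [c1, c2]
      exact ⟨Nat.pos_of_ne_zero b1, lt_of_le_of_ne c3 b5, b7, b3, b4⟩
    · rw [c1, c2]
      exact ⟨Nat.pos_of_ne_zero b2, lt_of_le_of_ne c3 (Ne.symm b5), b6, b4, b3⟩
  · -- disjoint
    intro u hu v hv huv
    obtain ⟨a1, a2, -⟩ := hV' u (hNV hu)
    obtain ⟨a1', a2', -⟩ := hV' v (hNV hv)
    obtain ⟨d1, d2, d3, d4⟩ := hdisV u (hNV hu) v (hNV hv) huv
    have e1 : rot n r (e u).1 ≠ rot n r (e v).1 := fun h => d1 (rot_inj hrn a1 a1' h)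
    have e2 : rot n r (e u).1 ≠ rot n r (e v).2 := fun h => d2 (rot_inj hrn a1 a2' h)
    have e3 : rot n r (e u).2 ≠ rot n r (e v).1 := fun h => d3 (rot_inj hrn a2 a1' h)
    have e4 : rot n r (e u).2 ≠ rot n r (e v).2 := fun h => d4 (rot_inj hrn a2 a2' h)
    show (rotp n r (e u)).1 ≠ (rotp n r (e v)).1 ∧ (rotp n r (e u)).1 ≠ (rotp n r (e v)).2 ∧
      (rotp n r (e u)).2 ≠ (rotp n r (e v)).1 ∧ (rotp n r (e u)).2 ≠ (rotp n r (e v)).2
    rcases rotp_cases n r (e u) with ⟨c1, c2, -⟩ | ⟨c1, c2, -⟩ <;>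
      rcases rotp_cases n r (e v) with ⟨c1', c2', -⟩ | ⟨c1', c2', -⟩ <;>
      rw [c1, c2, c1', c2']
    · exact ⟨e1, e2, e3, e4⟩
    · exact ⟨e2, e1, e4, e3⟩
    · exact ⟨e3, e4, e1, e2⟩
    · exact ⟨e4, e3, e2, e1⟩
  · -- related
    intro u hu
    obtain ⟨a1, a2, -⟩ := hV' u (hNV hu)
    have hRu : R (e u).1 (e u).2 := (hV u (hNV hu)).2.2.2.2.2.2
    show R (((rotp n r (e u)).1 + r) % n) (((rotp n r (e u)).2 + r) % n)
    rcases rotp_cases n r (e u) with ⟨c1, c2, -⟩ | ⟨c1, c2, -⟩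
    · rw [c1, c2, rot_add hrn a1, rot_add hrn a2]
      exact hRu
    · rw [c1, c2, rot_add hrn a1, rot_add hrn a2]
      exact hsymm _ _ hRu
  · -- one
    intro u hu v hv huv
    have key : ∀ w ∈ N, R (e w).1 (((rotp n r (e w)).1 + r) % n) := by
      intro w hw
      obtain ⟨a1, a2, -⟩ := hV' w (hNV hw)
      have hRw : R (e w).1 (e w).2 := (hV w (hNV hw)).2.2.2.2.2.2
      rcases rotp_cases n r (e w) with ⟨c1, -, -⟩ | ⟨c1, -, -⟩
      · rw [c1, rot_add hrn a1]
        exact hrefl _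
      · rw [c1, rot_add hrn a2]
        exact hRw
    exact honeN u hu v hv (htrans _ _ _ (key u hu) (htrans _ _ _ huv (hsymm _ _ (key v hv))))
  · -- determinant
    have h4 : (BM (PQ fun u => rotp n r (e u)) ((rot n r s : ℕ) : ℚ) V N).det ≠ 0 := by
      rw [hd1]
      exact hdet
    exact h4
  · -- same colours
    intro i j hi0 hin hiy hj0 hjn hjy hij hRij hni hnj
    have hi1 : (i + r) % n < n := Nat.mod_lt _ (by omega)
    have hj1 : (j + r) % n < n := Nat.mod_lt _ (by omega)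
    have hi2 : rot n r ((i + r) % n) = i := rot_inv hrn hin
    have hj2 : rot n r ((j + r) % n) = j := rot_inv hrn hjn
    have hRij' : R ((i + r) % n) ((j + r) % n) := hRij
    generalize (i + r) % n = i0 at hi1 hi2 hRij'
    generalize (j + r) % n = j0 at hj1 hj2 hRij'
    have hi3 : i0 ≠ r := by
      rintro rfl
      rw [rot_self] at hi2
      omega
    have hj3 : j0 ≠ r := by
      rintro rfl
      rw [rot_self] at hj2
      omega
    have hi4 : i0 ≠ s := fun h => hiy (by rw [← hi2, h])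
    have hj4 : j0 ≠ s := fun h => hjy (by rw [← hj2, h])
    have hends : ∀ x x0 : ℕ, rot n r x0 = x →
        (∀ u ∈ N, x ≠ (rotp n r (e u)).1 ∧ x ≠ (rotp n r (e u)).2) →
        ∀ u ∈ N, x0 ≠ (e u).1 ∧ x0 ≠ (e u).2 := by
      intro x x0 hx hne u hu
      obtain ⟨f1, f2⟩ := hne u hu
      rcases rotp_cases n r (e u) with ⟨c1, c2, -⟩ | ⟨c1, c2, -⟩
      · rw [c1] at f1
        rw [c2] at f2
        exact ⟨fun h => f1 (by rw [← hx, h]), fun h => f2 (by rw [← hx, h])⟩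
      · rw [c1] at f1
        rw [c2] at f2
        exact ⟨fun h => f2 (by rw [← hx, h]), fun h => f1 (by rw [← hx, h])⟩
    have hi5 := hends i i0 hi2 hni
    have hj5 := hends j j0 hj2 hnj
    have kap_i := hd2 i0 hi1 hi3 hi4 hi5
    have kap_j := hd2 j0 hj1 hj3 hj4 hj5
    rw [hi2] at kap_i
    rw [hj2] at kap_j
    have goal_kap : kb (pt ((r : ℚ), (s : ℚ))) (PQ e) N (i0 : ℚ) =
        kb (pt ((r : ℚ), (s : ℚ))) (PQ e) N (j0 : ℚ) →
        kap (Core.P fun u => rotp n r (e u)) ((rot n r s : ℕ) : ℚ) N (i : ℚ) =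
        kap (Core.P fun u => rotp n r (e u)) ((rot n r s : ℕ) : ℚ) N (j : ℚ) := by
      intro h
      have h5 : kap (PQ fun u => rotp n r (e u)) ((rot n r s : ℕ) : ℚ) N (i : ℚ) =
          kap (PQ fun u => rotp n r (e u)) ((rot n r s : ℕ) : ℚ) N (j : ℚ) := by
        rw [kap_i, kap_j, h]
      exact h5
    rcases Nat.lt_trichotomy i0 j0 with h | h | h
    · rcases hsame i0 hi1 j0 hj1 hi3 hi4 hj3 hj4 h hRij' hi5 hj5 with ⟨w, hw, hwN, hew⟩ | hk
      · refine Or.inl ⟨w, hw, hwN, ?_⟩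
        show rotp n r (e w) = (i, j)
        rw [hew]
        unfold rotp
        show (min (rot n r i0) (rot n r j0), max (rot n r i0) (rot n r j0)) = (i, j)
        rw [hi2, hj2, min_eq_left hij.le, max_eq_right hij.le]
      · exact Or.inr (goal_kap hk)
    · exfalso
      rw [h, hj2] at hi2
      omega
    · rcases hsame j0 hj1 i0 hi1 hj3 hj4 hi3 hi4 h (hsymm _ _ hRij') hj5 hi5 with
        ⟨w, hw, hwN, hew⟩ | hk
      · refine Or.inl ⟨w, hw, hwN, ?_⟩
        show rotp n r (e w) = (i, j)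
        rw [hew]
        unfold rotp
        show (min (rot n r j0) (rot n r i0), max (rot n r j0) (rot n r i0)) = (i, j)
        rw [hi2, hj2, min_eq_right hij.le, max_eq_left hij.le]
      · exact Or.inr (goal_kap hk.symm)

end Pool.Agent.Work.MP_7794fd_co.T
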