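import Pool.Agent.Work.MP_7794fd_co.T.Stmts

/-! Project MP_7794fd_co, module T, item Main3: at most three outside components with three
neighbours. -/

set_option autoImplicit false

namespace Pool.Agent.Work.MP_7794fd_co.T

open Finset
open Pool.Agent.Work.MP_7794fd_co.R

namespace Main3

variable {V E : Type} [Fintype V] [DecidableEq V] [Fintype E] [DecidableEq E]

omit [Fintype V] [DecidableEq V] [DecidableEq E] in
theorem reach_symm (G : MG V E) {W : Set V} {u v : V} (h : Reach G W Finset.univ u v) :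
    Reach G W Finset.univ v u := by
  induction h with
  | refl => exact Relation.ReflTransGen.refl
  | tail _ hs ih =>
    obtain ⟨ha, hb, e, he, hab⟩ := hs
    exact (Relation.ReflTransGen.single ⟨hb, ha, e, he, by rw [hab, Sym2.eq_swap]⟩).trans ih

omit [Fintype V] [DecidableEq V] [DecidableEq E] in
theorem reach_mono (G : MG V E) {W W' : Set V} (hW : W ⊆ W') {u v : V}
    (h : Reach G W Finset.univ u v) : Reach G W' Finset.univ u v := by
  induction h with
  | refl => exact Relation.ReflTransGen.refl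
  | tail _ hs ih =>
    obtain ⟨ha, hb, e, he, hab⟩ := hs
    exact ih.tail ⟨hW ha, hW hb, e, he, hab⟩

omit [Fintype V] [DecidableEq V] in
theorem att_mono (G : MG V E) (C P : Finset E) (u : V) : att G C P u ⊆ att G C ∅ u := by
  rintro z ⟨hz, q, hq, e, he⟩
  refine ⟨hz, q, reach_mono G ?_ hq, e, he⟩
  apply Set.compl_subset_compl.2
  rintro v ⟨e, he, hv⟩
  refine ⟨e, ?_, hv⟩
  rw [Finset.union_empty] at he
  exact Finset.mem_union_left _ he

end Main3

open Main3 in
theorem I_Main3 (h1 : StThree) (h2 : StMain) (h3 : StCPath) (h4 : StRel) : StMain3 := by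
  intro V E _ _ _ _ G hG C hC hP hle hfour
  by_cases hK : ∃ u, u ∉ verts G C ∧ (att G C ∅ u).ncard = 3
  swap
  · obtain ⟨P, x, y, hP⟩ := hP
    have key : ∀ u, u ∉ verts G (C ∪ P) → ¬ 3 ≤ (att G C P u).ncard := by
      intro u hu h
      have hu' : u ∉ verts G C := by
        rintro ⟨e, he, hv⟩
        exact hu ⟨e, Finset.mem_union_left _ he, hv⟩
      have hle1 : (att G C P u).ncard ≤ (att G C ∅ u).ncard :=
        Set.ncard_le_ncard (att_mono G C P u) (Set.toFinite _)
      have hle2 := hle u hu'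
      exact hK ⟨u, hu', by omega⟩
    obtain ⟨D, hD, _⟩ := h2 G hG C P x y hC hP (fun u u' hu _ h _ => absurd h (key u hu))
    exact ⟨D, hD⟩
  by_cases hT : ∃ a b c, a ∉ verts G C ∧ b ∉ verts G C ∧ c ∉ verts G C ∧
      ¬ Reach G (verts G C)ᶜ Finset.univ a b ∧ ¬ Reach G (verts G C)ᶜ Finset.univ a c ∧
      ¬ Reach G (verts G C)ᶜ Finset.univ b c ∧ (att G C ∅ a).ncard = 3 ∧
      (att G C ∅ b).ncard = 3 ∧ (att G C ∅ c).ncard = 3
  · obtain ⟨a, b, c, ha, hb, hc, hab, hac, hbc, ka, kb, kc⟩ := hT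
    refine h1 G hG C hC a b c ha hb hc hab hac hbc ka kb kc ?_
    intro u hu hu3
    have ku : (att G C ∅ u).ncard = 3 := le_antisymm (hle u hu) hu3
    obtain ⟨i, j, hij, hr⟩ := hfour ![a, b, c, u] (by
      intro i
      fin_cases i
      · exact ⟨ha, ka⟩
      · exact ⟨hb, kb⟩
      · exact ⟨hc, kc⟩
      · exact ⟨hu, ku⟩)
    have hr' := reach_symm G hr
    fin_cases i <;> fin_cases j <;> simp at hij hr hr'
    · exact absurd hr hab
    · exact absurd hr hac
    · exact Or.inl hr
    · exact absurd hr' hab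
    · exact absurd hr hbc
    · exact Or.inr (Or.inl hr)
    · exact absurd hr' hac
    · exact absurd hr' hbc
    · exact Or.inr (Or.inr hr)
    · exact Or.inl hr'
    · exact Or.inr (Or.inl hr')
    · exact Or.inr (Or.inr hr')
  · obtain ⟨u0, hu0, k0⟩ := hK
    obtain ⟨x, y, z, hxy, _, _, hxyz⟩ := Set.ncard_eq_three.1 k0
    have hx : x ∈ att G C ∅ u0 := by rw [hxyz]; simp
    have hy : y ∈ att G C ∅ u0 := by rw [hxyz]; simp
    obtain ⟨P, hP, hPr⟩ := h3 G C u0 x y hG hC hu0 hx hy hxy
    obtain ⟨_, _, hrel⟩ := h4 G C P u0 x y hG hC hu0 hP hx hy k0 hPr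
    obtain ⟨D, hD, _⟩ := h2 G hG C P x y hC hP (by
      intro u u' hu hu' hu3 hu3'
      obtain ⟨a1, a2, a3, a4⟩ := hrel u hu
      obtain ⟨b1, b2, b3, _⟩ := hrel u' hu'
      have n1 : ¬ Reach G (verts G C)ᶜ Finset.univ u0 u := fun h => by
        have := a3 h; omega
      have n2 : ¬ Reach G (verts G C)ᶜ Finset.univ u0 u' := fun h => by
        have := b3 h; omega
      have c1 : (att G C ∅ u).ncard = 3 := by
        have := Set.ncard_le_ncard a2 (Set.toFinite _)
        have := hle u a1
        omega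
      have c2 : (att G C ∅ u').ncard = 3 := by
        have := Set.ncard_le_ncard b2 (Set.toFinite _)
        have := hle u' b1
        omega
      apply a4 n1
      by_contra hn
      exact hT ⟨u0, u, u', hu0, a1, b1, n1, n2, hn, k0, c1, c2⟩)
    exact ⟨D, hD⟩

end Pool.Agent.Work.MP_7794fd_co.T
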