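import Pool.Agent.Work.MP_7794fd_co.T.Stmts
import Pool.Agent.Work.MP_7794fd_co.R.Two

/-! Project MP_7794fd_co, module T, item Miss3: circuits which miss at most three vertices. -/

set_option autoImplicit false
set_option linter.unusedSectionVars false
set_option linter.unusedDecidableInType false

namespace Pool.Agent.Work.MP_7794fd_co.T

open Finset
open Pool.Agent.Work.MP_7794fd_co.R

namespace Miss3Aux

variable {V E : Type} [Fintype V] [DecidableEq V] [Fintype E] [DecidableEq E] (G : MG V E)

/-- adjacency -/
def Adj (z z' : V) : Prop := ∃ e, G.ends e = s(z, z')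

theorem adj_symm {z z' : V} (h : Adj G z z') : Adj G z' z := by
  obtain ⟨e, he⟩ := h
  exact ⟨e, by rw [he]; exact Sym2.eq_swap⟩

theorem adj_ne {z z' : V} (h : Adj G z z') : z ≠ z' := by
  rintro rfl
  obtain ⟨e, he⟩ := h
  apply G.loopless e
  rw [he]
  simp

theorem reach_adj {W : Set V} {z z' : V} (hz : z ∈ W) (hz' : z' ∈ W) (h : Adj G z z') :
    Reach G W Finset.univ z z' := by
  obtain ⟨e, he⟩ := h
  exact Relation.ReflTransGen.single ⟨hz, hz', e, Finset.mem_univ _, he⟩

theorem alone {W : Set V} {w : V} (h : ∀ z ∈ W, ¬ Adj G w z) (q : V)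
    (hq : Reach G W Finset.univ w q) : q = w := by
  induction hq with
  | refl => rfl
  | @tail x z _ hs ih =>
    rw [ih] at hs
    obtain ⟨-, hz, e, -, he⟩ := hs
    exact absurd ⟨e, he⟩ (h z hz)

theorem att_le {C P : Finset E} {w : V}
    (hr : ∀ q, Reach G (verts G (C ∪ P))ᶜ Finset.univ w q → q = w) (X : Finset E)
    (hX : ∀ e x, x ∈ verts G C → G.ends e = s(w, x) → e ∈ X) :
    (att G C P w).ncard ≤ X.card := by
  have hq : ∀ x ∈ att G C P w, ∃ e, G.ends e = s(w, x) := by
    rintro x ⟨-, q, hq, e, he⟩
    exact ⟨e, by rw [he, hr q hq]⟩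
  by_cases hem : att G C P w = ∅
  · rw [hem, Set.ncard_empty]
    exact Nat.zero_le _
  obtain ⟨x0, hx0⟩ := Set.nonempty_iff_ne_empty.2 hem
  obtain ⟨e0, -⟩ := hq x0 hx0
  have hNE : Nonempty E := ⟨e0⟩
  choose! e he using hq
  have hinj : Set.InjOn e (att G C P w) := by
    intro x hx y hy hxy
    have h1 := he x hx
    have h2 := he y hy
    rw [hxy, h2] at h1
    rcases Sym2.eq_iff.1 h1 with ⟨-, h⟩ | ⟨h, h'⟩
    · exact h.symm
    · exact (h'.trans h).symm
  have h := Set.ncard_le_ncard_of_injOn (s := att G C P w) (t := (X : Set E)) e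
    (fun x hx => hX _ _ hx.1 (he x hx)) hinj (Set.toFinite _)
  rwa [Set.ncard_coe_finset] at h

theorem att_three {C : Finset E} (hG : Cubic G) (hC : IsCircuit G C) {w : V}
    (hw : w ∉ verts G C) (hn : ∀ z, z ∉ verts G C → ¬ Adj G w z) :
    (att G C ∅ w).ncard = 3 := by
  have h3 : (Finset.univ.filter (fun e => w ∈ G.ends e)).card = 3 := hG w
  have hC0 : C ∪ ∅ = C := Finset.union_empty C
  apply le_antisymm
  · rw [← h3]
    apply att_le G
    · rw [hC0]
      exact alone G hn
    · intro e x _ he
      rw [Finset.mem_filter, he]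
      exact ⟨Finset.mem_univ _, Sym2.mem_mk_left _ _⟩
  · have hq : ∀ e ∈ Finset.univ.filter (fun e => w ∈ G.ends e), ∃ x, G.ends e = s(w, x) := by
      intro e he
      exact Sym2.mem_iff_exists.1 (Finset.mem_filter.1 he).2
    have hNV : Nonempty V := ⟨w⟩
    choose! x hx using hq
    have hxC : ∀ e ∈ Finset.univ.filter (fun e => w ∈ G.ends e), x e ∈ verts G C := by
      intro e he
      by_contra h
      exact hn (x e) h ⟨e, hx e he⟩
    have hinj : Set.InjOn x ((Finset.univ.filter (fun e => w ∈ G.ends e) : Finset E) : Set E) := by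
      intro e he f hf hef
      have he' := Finset.mem_coe.1 he
      have hf' := Finset.mem_coe.1 hf
      obtain ⟨g, -, -, h⟩ := Two.third G hG hC (hxC e he')
      have h1 : e = g := h e (Two.notC G hw (Finset.mem_filter.1 he').2)
        (by rw [hx e he']; exact Sym2.mem_mk_right _ _)
      have h2 : f = g := h f (Two.notC G hw (Finset.mem_filter.1 hf').2)
        (by rw [hef, hx f hf']; exact Sym2.mem_mk_right _ _)
      rw [h1, h2]
    have h := Set.ncard_le_ncard_of_injOn
      (s := ((Finset.univ.filter (fun e => w ∈ G.ends e) : Finset E) : Set E))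
      (t := att G C ∅ w) x (by
        intro e he
        have he' := Finset.mem_coe.1 he
        exact ⟨hxC e he', w, Relation.ReflTransGen.refl, e, hx e he'⟩) hinj (Set.toFinite _)
    rwa [Set.ncard_coe_finset, h3] at h

end Miss3Aux

open Miss3Aux in
theorem I_Miss3 (h1 : StThree) (h2 : StMain) (h3 : StTwo) (h4 : StIsol) (h5 : StCPath) :
    StMiss3 := by
  intro V E _ _ _ _ G hG C hC hO
  by_cases hO2 : ((verts G C)ᶜ).ncard ≤ 2
  · exact h3 G hG C hC hO2
  have hO3 : ((verts G C)ᶜ).ncard = 3 := by omega
  have h4v : ∀ x y z t, x ∉ verts G C → y ∉ verts G C → z ∉ verts G C → t ∉ verts G C →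
      x ≠ y → x ≠ z → y ≠ z → x ≠ t → y ≠ t → z = t := by
    intro x y z t hx hy hz ht hxy hxz hyz hxt hyt
    have h1 : ({x, y, z} : Set V) ⊆ (verts G C)ᶜ := by
      rintro s (rfl | rfl | rfl)
      · exact hx
      · exact hy
      · exact hz
    have h2 : ({x, y, z} : Set V).ncard = 3 := by
      rw [Set.ncard_eq_three]
      exact ⟨x, y, z, hxy, hxz, hyz, rfl⟩
    have h3 : ({x, y, z} : Set V) = (verts G C)ᶜ :=
      Set.eq_of_subset_of_ncard_le h1 (by omega) (Set.toFinite _)
    have h4 : t ∈ ({x, y, z} : Set V) := by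
      rw [h3]
      exact ht
    rcases h4 with h | h | h
    · exact absurd h.symm hxt
    · exact absurd h.symm hyt
    · exact h.symm
  by_cases hA : ∃ w, w ∉ verts G C ∧ ∀ z, z ∉ verts G C → ¬ Adj G w z
  · obtain ⟨w, hw, hwn⟩ := hA
    obtain ⟨u, u', hu, hu', hwu, hwu', huu'⟩ : ∃ u u', u ∉ verts G C ∧ u' ∉ verts G C ∧
        w ≠ u ∧ w ≠ u' ∧ u ≠ u' := by
      obtain ⟨a, b, c, hab, hac, hbc, habc⟩ := Set.ncard_eq_three.1 hO3
      have ha : a ∉ verts G C := by
        have : a ∈ (verts G C)ᶜ := by rw [habc]; simp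
        exact this
      have hb : b ∉ verts G C := by
        have : b ∈ (verts G C)ᶜ := by rw [habc]; simp
        exact this
      have hc : c ∉ verts G C := by
        have : c ∈ (verts G C)ᶜ := by rw [habc]; simp
        exact this
      have hw' : w ∈ (verts G C)ᶜ := hw
      rw [habc] at hw'
      rcases hw' with rfl | rfl | rfl
      · exact ⟨b, c, hb, hc, hab, hac, hbc⟩
      · exact ⟨a, c, ha, hc, hab.symm, hbc, hac⟩
      · exact ⟨a, b, ha, hb, hac.symm, hbc.symm, hab⟩
    have hall : ∀ z, z ∉ verts G C → z = w ∨ z = u ∨ z = u' := by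
      intro z hz
      by_cases e1 : w = z
      · exact Or.inl e1.symm
      by_cases e2 : u = z
      · exact Or.inr (Or.inl e2.symm)
      · exact Or.inr (Or.inr (h4v w u u' z hw hu hu' hz hwu hwu' huu' e1 e2).symm)
    by_cases hAd : Adj G u u'
    · apply h4 G hG C w hC hw
      · intro e z he
        by_contra h
        exact hwn z h ⟨e, he⟩
      · intro x y hx hy hxw hyw
        rcases hall x hx with rfl | rfl | rfl
        · exact absurd rfl hxw
        · rcases hall y hy with rfl | rfl | rfl
          · exact absurd rfl hyw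
          · exact Relation.ReflTransGen.refl
          · exact reach_adj G hx hy hAd
        · rcases hall y hy with rfl | rfl | rfl
          · exact absurd rfl hyw
          · exact reach_adj G hx hy (adj_symm G hAd)
          · exact Relation.ReflTransGen.refl
    · have hun : ∀ z, z ∉ verts G C → ¬ Adj G u z := by
        intro z hz h
        rcases hall z hz with rfl | rfl | rfl
        · exact hwn u hu (adj_symm G h)
        · exact adj_ne G h rfl
        · exact hAd h
      have hun' : ∀ z, z ∉ verts G C → ¬ Adj G u' z := by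
        intro z hz h
        rcases hall z hz with rfl | rfl | rfl
        · exact hwn u' hu' (adj_symm G h)
        · exact hAd (adj_symm G h)
        · exact adj_ne G h rfl
      apply h1 G hG C hC w u u' hw hu hu'
      · intro h
        exact hwu (alone G (W := (verts G C)ᶜ) hwn u h).symm
      · intro h
        exact hwu' (alone G (W := (verts G C)ᶜ) hwn u' h).symm
      · intro h
        exact huu' (alone G (W := (verts G C)ᶜ) hun u' h).symm
      · exact att_three G hG hC hw hwn
      · exact att_three G hG hC hu hun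
      · exact att_three G hG hC hu' hun'
      · intro z hz _
        rcases hall z hz with rfl | rfl | rfl
        · exact Or.inl Relation.ReflTransGen.refl
        · exact Or.inr (Or.inl Relation.ReflTransGen.refl)
        · exact Or.inr (Or.inr Relation.ReflTransGen.refl)
  · have hB : ∀ w, w ∉ verts G C → ∃ z, z ∉ verts G C ∧ Adj G w z := by
      intro w hw
      by_contra h
      exact hA ⟨w, hw, fun z hz ha => h ⟨z, hz, ha⟩⟩
    have hconn : ∀ z z', z ∉ verts G C → z' ∉ verts G C →
        Reach G (verts G C)ᶜ Finset.univ z z' := by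
      intro z z' hz hz'
      by_cases e0 : z = z'
      · rw [e0]
        exact Relation.ReflTransGen.refl
      obtain ⟨n, hn, hzn⟩ := hB z hz
      obtain ⟨n', hn', hzn'⟩ := hB z' hz'
      by_cases e1 : n = z'
      · rw [e1] at hzn
        exact reach_adj G hz hz' hzn
      by_cases e2 : n' = z
      · rw [e2] at hzn'
        exact reach_adj G hz hz' (adj_symm G hzn')
      have hnn : n = n' := h4v z z' n n' hz hz' hn hn' e0 (adj_ne G hzn) (Ne.symm e1)
        (Ne.symm e2) (adj_ne G hzn')
      rw [← hnn] at hzn'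
      exact (reach_adj G (W := (verts G C)ᶜ) hz hn hzn).trans
        (reach_adj G (W := (verts G C)ᶜ) hn hz' (adj_symm G hzn'))
    by_cases hch : ∃ e a b, e ∉ C ∧ a ∈ verts G C ∧ b ∈ verts G C ∧ G.ends e = s(a, b)
    · obtain ⟨e, a, b, he, ha, hb, hab⟩ := hch
      have hv : verts G (C ∪ {e}) = verts G C := by
        apply Set.Subset.antisymm
        · rintro v ⟨f, hf, hvf⟩
          rw [Finset.mem_union, Finset.mem_singleton] at hf
          rcases hf with hf | rfl
          · exact ⟨f, hf, hvf⟩
          · rw [hab] at hvf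
            rcases Sym2.mem_iff.1 hvf with rfl | rfl
            · exact ha
            · exact hb
        · exact Two.verts_mono G Finset.subset_union_left
      obtain ⟨D, hD, -⟩ := h2 G hG C {e} a b hC (Two.pathB G ha hb he hab) (by
        intro u u' hu hu' _ _
        rw [hv] at hu hu' ⊢
        exact hconn u u' hu hu')
      exact ⟨D, hD⟩
    · have hT : ∀ v ∈ verts G C, ∃ w, w ∉ verts G C ∧ ∃ e, G.ends e = s(w, v) := by
        intro v hv
        obtain ⟨e, he, hve, -⟩ := Two.third G hG hC hv
        obtain ⟨w, hw⟩ := Sym2.mem_iff_exists.1 hve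
        refine ⟨w, fun h => hch ⟨e, v, w, he, hv, h, hw⟩, e, ?_⟩
        rw [hw, Sym2.eq_swap]
      obtain ⟨e0, he0⟩ := hC.nonempty
      obtain ⟨a, b, hab0⟩ : ∃ a b, G.ends e0 = s(a, b) := by
        induction h : G.ends e0 using Sym2.ind with
        | _ a b => exact ⟨a, b, rfl⟩
      have hab : a ≠ b := by
        intro h
        apply G.loopless e0
        rw [hab0, h]
        simp
      have ha : a ∈ verts G C := ⟨e0, he0, by rw [hab0]; simp⟩
      have hb : b ∈ verts G C := ⟨e0, he0, by rw [hab0]; simp⟩
      obtain ⟨w1, hw1, e1, he1⟩ := hT a ha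
      obtain ⟨w2, hw2, e2, he2⟩ := hT b hb
      have hC0 : C ∪ ∅ = C := Finset.union_empty C
      have hat1 : a ∈ att G C ∅ w1 := ⟨ha, w1, Relation.ReflTransGen.refl, e1, he1⟩
      have hat2 : b ∈ att G C ∅ w1 :=
        ⟨hb, w2, by rw [hC0]; exact hconn w1 w2 hw1 hw2, e2, he2⟩
      obtain ⟨P, hP, -⟩ := h5 G C w1 a b hG hC hw1 hat1 hat2 hab
      obtain ⟨t, htC, htP⟩ : ∃ t, t ∉ verts G C ∧ t ∈ verts G (C ∪ P) := by
        have hd := hP.degx
        have hne : (P.filter (fun e => a ∈ G.ends e)).Nonempty := by
          rw [← Finset.card_pos]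
          have : (P.filter (fun e => a ∈ G.ends e)).card = 1 := hd
          omega
        obtain ⟨f, hf⟩ := hne
        obtain ⟨hfP, haf⟩ := Finset.mem_filter.1 hf
        obtain ⟨t, ht⟩ := Sym2.mem_iff_exists.1 haf
        have hfC : f ∉ C := Finset.disjoint_right.1 hP.disj hfP
        refine ⟨t, fun h => hch ⟨f, a, t, hfC, ha, h, ht⟩, f, Finset.mem_union_right _ hfP, ?_⟩
        rw [ht]
        exact Sym2.mem_mk_right _ _
      obtain ⟨D, hD, -⟩ := h2 G hG C P a b hC hP (by
        intro u u' hu hu' hu3 _
        by_cases e0 : u = u'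
        · rw [e0]
          exact Relation.ReflTransGen.refl
        by_cases hAd : Adj G u u'
        · exact reach_adj G (W := (verts G (C ∪ P))ᶜ) hu hu' hAd
        · exfalso
          have huC : u ∉ verts G C := fun h => hu (Two.verts_mono G Finset.subset_union_left h)
          have huC' : u' ∉ verts G C := fun h => hu' (Two.verts_mono G Finset.subset_union_left h)
          have hut : u ≠ t := fun h => hu (h ▸ htP)
          have hut' : u' ≠ t := fun h => hu' (h ▸ htP)
          have hal : ∀ z ∈ (verts G (C ∪ P))ᶜ, ¬ Adj G u z := by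
            intro z hz h
            have hzC : z ∉ verts G C :=
              fun h' => hz (Two.verts_mono G Finset.subset_union_left h')
            have hzt : t ≠ z := fun h' => hz (h' ▸ htP)
            have e := h4v u t u' z huC htC huC' hzC hut e0 (Ne.symm hut') (adj_ne G h) hzt
            exact hAd (e ▸ h)
          obtain ⟨n, hn, g, hg⟩ := hB u huC
          have hug : g ∈ Finset.univ.filter (fun e => u ∈ G.ends e) := by
            rw [Finset.mem_filter, hg]
            exact ⟨Finset.mem_univ _, Sym2.mem_mk_left _ _⟩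
          have hle := att_le G (C := C) (P := P) (alone G hal)
            ((Finset.univ.filter (fun e => u ∈ G.ends e)).erase g) (by
            intro e x hx he
            rw [Finset.mem_erase, Finset.mem_filter]
            refine ⟨?_, Finset.mem_univ _, by rw [he]; exact Sym2.mem_mk_left _ _⟩
            rintro rfl
            rw [hg] at he
            rcases Sym2.eq_iff.1 he with ⟨-, h⟩ | ⟨h, -⟩
            · exact hn (h ▸ hx)
            · exact huC (h ▸ hx))
          have h3' : (Finset.univ.filter (fun e => u ∈ G.ends e)).card = 3 := hG u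
          rw [Finset.card_erase_of_mem hug, h3'] at hle
          omega)
      exact ⟨D, hD⟩

end Pool.Agent.Work.MP_7794fd_co.T
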