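import Pool.Agent.Work.MP_7794fd_co.T.Stmts

/-! Project MP_7794fd_co, module T, item 6: the three functionals are multilinear. -/

set_option autoImplicit false

namespace Pool.Agent.Work.MP_7794fd_co.T

open Finset
open Pool.Agent.Work.MP_7794fd_co.R

namespace MultiAux

theorem two_mul_z (a : ZMod 2) : 2 * a = 0 := by
  have h : (2 : ZMod 2) = 0 := rfl
  rw [h, zero_mul]

theorem mallc : Multi allc where
  loc A κ₁ κ₂ h := by
    unfold allc
    exact Finset.prod_congr rfl h
  ins A c c' κ hc hc' := by
    unfold allc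
    rw [prod_insert hc, prod_insert hc']
    ring

theorem mnoc : Multi noc where
  loc A κ₁ κ₂ h := by
    unfold noc
    exact Finset.prod_congr rfl fun a ha => by rw [h a ha]
  ins A c c' κ hc hc' := by
    unfold noc
    rw [prod_insert hc, prod_insert hc']
    linear_combination two_mul_z (∏ a ∈ A, (1 + κ a))

theorem mono_eq (A : Finset ℚ) (κ : ℚ → ZMod 2) : mono A κ = allc A κ + noc A κ := rfl

theorem mmono : Multi mono where
  loc A κ₁ κ₂ h := by
    rw [mono_eq, mono_eq, mallc.loc A κ₁ κ₂ h, mnoc.loc A κ₁ κ₂ h]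
  ins A c c' κ hc hc' := by
    rw [mono_eq, mono_eq, mono_eq]
    linear_combination mallc.ins A c c' κ hc hc' + mnoc.ins A c c' κ hc hc'

end MultiAux

theorem I_Multi : StMulti := ⟨MultiAux.mmono, MultiAux.mallc, MultiAux.mnoc⟩

end Pool.Agent.Work.MP_7794fd_co.T
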