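import Pool.Agent.Work.MP_7794fd_co.T.Stmts
import Pool.Agent.Work.MP_7794fd_co.R.Equiv

/-! Project MP_7794fd_co, module T, item Rel: the bridges of `C ∪ P`. -/

set_option autoImplicit false
set_option linter.unusedSectionVars false
set_option linter.unusedDecidableInType false

namespace Pool.Agent.Work.MP_7794fd_co.T

open Finset
open Pool.Agent.Work.MP_7794fd_co.R

namespace Rel

variable {V E : Type} [Fintype V] [DecidableEq V] [Fintype E] [DecidableEq E] (G : MG V E)

theorem verts_union {C P : Finset E} {v : V} :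
    v ∈ verts G (C ∪ P) ↔ v ∈ verts G C ∨ v ∈ verts G P := by
  unfold verts
  constructor
  · rintro ⟨e, he, hv⟩
    rcases Finset.mem_union.1 he with h | h
    · exact Or.inl ⟨e, h, hv⟩
    · exact Or.inr ⟨e, h, hv⟩
  · rintro (⟨e, he, hv⟩ | ⟨e, he, hv⟩)
    · exact ⟨e, Finset.mem_union_left _ he, hv⟩
    · exact ⟨e, Finset.mem_union_right _ he, hv⟩

theorem reach_mono {W W' : Set V} (hW : W ⊆ W') {u z : V} (h : Reach G W Finset.univ u z) :
    Reach G W' Finset.univ u z := by
  induction h with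
  | refl => exact Relation.ReflTransGen.refl
  | tail _ hs ih => exact ih.tail ⟨hW hs.1, hW hs.2.1, hs.2.2⟩

theorem compl_sub {C P : Finset E} : (verts G (C ∪ P))ᶜ ⊆ (verts G C)ᶜ :=
  fun _ hv hv' => hv ((verts_union G).2 (Or.inl hv'))

theorem reach_symm {W : Set V} {u v : V} (h : Reach G W Finset.univ u v) :
    Reach G W Finset.univ v u := by
  induction h with
  | refl => exact Relation.ReflTransGen.refl
  | tail _ hs ih =>
    obtain ⟨h1, h2, e, he, h3⟩ := hs
    refine Relation.ReflTransGen.head ⟨h2, h1, e, he, ?_⟩ ih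
    rw [h3, Sym2.eq_swap]

theorem reach_mem {W : Set V} {u v : V} (hu : u ∈ W) (h : Reach G W Finset.univ u v) : v ∈ W := by
  induction h with
  | refl => exact hu
  | tail _ hs _ => exact hs.2.1

theorem att_mono {C P : Finset E} {u : V} : att G C P u ⊆ att G C ∅ u := by
  rintro z ⟨hz, q, hq, e, he⟩
  refine ⟨hz, q, ?_, e, he⟩
  rw [Finset.union_empty]
  exact reach_mono G (compl_sub G) hq

theorem deg_pos {P : Finset E} {v : V} {e : E} (he : e ∈ P) (hv : v ∈ G.ends e) :
    deg G P v ≠ 0 := by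
  unfold deg
  intro h
  rw [Finset.card_eq_zero] at h
  have : e ∈ P.filter (fun e => v ∈ G.ends e) := Finset.mem_filter.2 ⟨he, hv⟩
  rw [h] at this
  simp at this

theorem exists_edge {P : Finset E} {v : V} (h : deg G P v = 1) : ∃ e ∈ P, v ∈ G.ends e := by
  unfold deg at h
  obtain ⟨e, he⟩ := Finset.card_eq_one.1 h
  have : e ∈ P.filter (fun e => v ∈ G.ends e) := by rw [he]; exact Finset.mem_singleton_self e
  exact ⟨e, (Finset.mem_filter.1 this).1, (Finset.mem_filter.1 this).2⟩

/-- walks outside `C` which do not meet the component of `u` avoid the path `P` -/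
theorem avoid {C P : Finset E} {u x y : V} (hP : IsCPath G C P x y)
    (hin : ∀ v ∈ verts G P, v ≠ x → v ≠ y → Reach G (verts G C)ᶜ Finset.univ u v)
    {v : V} (hv : v ∉ verts G C) (hn : ¬ Reach G (verts G C)ᶜ Finset.univ u v) :
    ∀ w, Reach G (verts G C)ᶜ Finset.univ v w →
      Reach G (verts G (C ∪ P))ᶜ Finset.univ v w := by
  have key : ∀ w, Reach G (verts G C)ᶜ Finset.univ v w → w ∈ (verts G (C ∪ P))ᶜ := by
    intro w hw hw'
    have hwC : w ∉ verts G C := reach_mem G (W := (verts G C)ᶜ) hv hw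
    rcases (verts_union G).1 hw' with h | h
    · exact hwC h
    · have h1 : w ≠ x := fun h => hwC (h ▸ hP.memx)
      have h2 : w ≠ y := fun h => hwC (h ▸ hP.memy)
      exact hn ((hin w h h1 h2).trans (reach_symm G hw))
  intro w hw
  induction hw with
  | refl => exact Relation.ReflTransGen.refl
  | tail h1 hs ih =>
    exact ih.tail ⟨key _ h1, key _ (h1.tail hs), hs.2.2⟩

theorem att_eq {C P : Finset E} {u x y : V} (hP : IsCPath G C P x y)
    (hin : ∀ v ∈ verts G P, v ≠ x → v ≠ y → Reach G (verts G C)ᶜ Finset.univ u v)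
    {v : V} (hv : v ∉ verts G C) (hn : ¬ Reach G (verts G C)ᶜ Finset.univ u v) :
    att G C ∅ v ⊆ att G C P v := by
  rintro z ⟨hz, q, hq, e, he⟩
  rw [Finset.union_empty] at hq
  exact ⟨hz, q, avoid G hP hin hv hn q hq, e, he⟩

theorem not_end {C P : Finset E} (hG : Cubic G) (hC : IsCircuit G C) (hd : Disjoint C P) {x q : V}
    {e : E} (hx : x ∈ verts G C) (hdx : deg G P x = 1) (hq : q ∉ verts G (C ∪ P))
    (he : G.ends e = s(q, x)) : False := by
  obtain ⟨f, hf, hxf⟩ := exists_edge G hdx
  have hqe : q ∈ G.ends e := by rw [he]; simp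
  have hxe : x ∈ G.ends e := by rw [he]; simp
  have heC : e ∉ C := fun h => hq ((verts_union G).2 (Or.inl ⟨e, h, hqe⟩))
  have heP : e ∉ P := fun h => hq ((verts_union G).2 (Or.inr ⟨e, h, hqe⟩))
  have hfC : f ∉ C := fun h => Finset.disjoint_left.1 hd h hf
  have hfe := Pool.Agent.Work.MP_7794fd_co.R.Equiv.third G hG hC hx hfC heC hxf hxe
  exact heP (hfe ▸ hf)

end Rel

open Pool.Agent.Work.MP_7794fd_co.T.Rel

theorem I_Rel : StRel := by
  intro V E _ _ _ _ G C P u x y hG hC hu hP hxu hyu hcard hin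
  have huC : u ∈ (verts G C)ᶜ := hu
  refine ⟨?_, ?_, ?_⟩
  · intro v w _ _ h
    rcases h with h | ⟨e, he, -, hev⟩ | ⟨u', hu', hv, hw⟩
    · exact Or.inl h
    · exact Or.inr (Or.inl ⟨e, he, Finset.notMem_empty _, hev⟩)
    · refine Or.inr (Or.inr ⟨u', ?_, att_mono G hv, att_mono G hw⟩)
      rw [Finset.union_empty]
      exact fun h => hu' ((verts_union G).2 (Or.inl h))
  · intro v w hvC _ hvu h
    rcases h with h | ⟨e, he, -, hev⟩ | ⟨u', hu', hv, hw⟩
    · exact Or.inl h
    · refine Or.inr (Or.inl ⟨e, he, fun heP => ?_, hev⟩)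
      have h1 : deg G P v ≠ 0 := deg_pos G heP (by rw [hev]; simp)
      by_cases hvx : v = x
      · exact hvu (hvx ▸ hxu)
      · by_cases hvy : v = y
        · exact hvu (hvy ▸ hyu)
        · exact h1 (hP.degC v hvC hvx hvy)
    · rw [Finset.union_empty] at hu'
      have hn : ¬ Reach G (verts G C)ᶜ Finset.univ u u' := by
        intro hr
        apply hvu
        obtain ⟨hz, q, hq, e, he⟩ := hv
        rw [Finset.union_empty] at hq
        refine ⟨hz, q, ?_, e, he⟩
        rw [Finset.union_empty]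
        exact hr.trans hq
      refine Or.inr (Or.inr ⟨u', ?_, att_eq G hP hin hu' hn hv, att_eq G hP hin hu' hn hw⟩)
      intro h1
      rcases (verts_union G).1 h1 with h2 | h2
      · exact hu' h2
      · exact hn (hin u' h2 (fun h => hu' (h ▸ hP.memx)) (fun h => hu' (h ▸ hP.memy)))
  · intro v hv
    have hvC : v ∉ verts G C := fun h => hv ((verts_union G).2 (Or.inl h))
    refine ⟨hvC, att_mono G, ?_, ?_⟩
    · intro hr
      have hsub : att G C P v ⊆ att G C ∅ u \ {x, y} := by
        rintro z ⟨hz, q, hq, e, he⟩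
        have hqW : q ∉ verts G (C ∪ P) := reach_mem G (W := (verts G (C ∪ P))ᶜ) hv hq
        refine ⟨⟨hz, q, ?_, e, he⟩, ?_⟩
        · rw [Finset.union_empty]
          exact hr.trans (reach_mono G (compl_sub G) hq)
        · rintro (h | h)
          · exact not_end G hG hC hP.disj hP.memx hP.degx hqW (h ▸ he)
          · rw [Set.mem_singleton_iff] at h
            exact not_end G hG hC hP.disj hP.memy hP.degy hqW (h ▸ he)
      have h1 := Set.ncard_le_ncard hsub (Set.toFinite _)
      have h2 : (att G C ∅ u \ {x, y}).ncard = 1 := by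
        rw [Set.ncard_sdiff (Set.insert_subset hxu (Set.singleton_subset_iff.2 hyu)) (Set.toFinite _),
          hcard, Set.ncard_pair hP.ne]
      omega
    · intro hn w hw
      exact avoid G hP hin hvC hn w hw

end Pool.Agent.Work.MP_7794fd_co.T
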