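import Pool.Agent.Work.MP_7794fd_co.T.Stmts

/-! Project MP_7794fd_co, module T, item Rot: rotation of the circle. -/

set_option autoImplicit false

namespace Pool.Agent.Work.MP_7794fd_co.T

open Finset Matrix
open Pool.Agent.Work.MP_7794fd_co.R

namespace Rot

/-- indicator of `x < r` -/
def ir (r x : ℕ) : ZMod 2 := if x < r then 1 else 0

theorem lt2_nat (p i : ℕ) : lt2 (p : ℚ) (i : ℚ) = if p < i then 1 else 0 := by
  unfold lt2; simp only [Nat.cast_lt]

theorem two (a : ZMod 2) : a + a = 0 := by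
  revert a; decide

theorem two' : (2 : ZMod 2) = 0 := by decide

theorem ltR {n r x y : ℕ} (hr : r < n) (hx : x < n) (hy : y < n) (_hxy : x ≠ y) :
    lt2 ((rot n r x : ℕ) : ℚ) ((rot n r y : ℕ) : ℚ) = lt2 (x : ℚ) (y : ℚ) + ir r x + ir r y := by
  rw [lt2_nat, lt2_nat]
  unfold rot ir
  have h2 := two'
  by_cases h1 : r ≤ x <;> by_cases h3 : r ≤ y
  · rw [if_pos h1, if_pos h3, if_neg (by omega : ¬ x < r), if_neg (by omega : ¬ y < r)]
    by_cases h4 : x < y
    · rw [if_pos h4, if_pos (by omega)]; ring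
    · rw [if_neg h4, if_neg (by omega)]; ring
  · rw [if_pos h1, if_neg h3, if_neg (by omega : ¬ x < r), if_pos (by omega : y < r),
      if_neg (by omega : ¬ x < y), if_pos (by omega)]
    ring
  · rw [if_neg h1, if_pos h3, if_pos (by omega : x < r), if_neg (by omega : ¬ y < r),
      if_pos (by omega : x < y), if_neg (by omega)]
    linear_combination (-1 : ZMod 2) * h2
  · rw [if_neg h1, if_neg h3, if_pos (by omega : x < r), if_pos (by omega : y < r)]
    by_cases h4 : x < y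
    · rw [if_pos h4, if_pos (by omega)]
      linear_combination (-1 : ZMod 2) * h2
    · rw [if_neg h4, if_neg (by omega)]
      linear_combination (-1 : ZMod 2) * h2

theorem lt_tot {x y : ℕ} (hxy : x ≠ y) : lt2 (x : ℚ) (y : ℚ) + lt2 (y : ℚ) (x : ℚ) = 1 := by
  rw [lt2_nat, lt2_nat]
  by_cases h : x < y
  · rw [if_pos h, if_neg (by omega)]; ring
  · rw [if_neg h, if_pos (by omega)]; ring

theorem lt_self (x : ℚ) : lt2 x x = 0 := by
  unfold lt2; simp

theorem rot_ne {n r x y : ℕ} (hr : r < n) (hx : x < n) (hy : y < n) (hxy : x ≠ y) :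
    rot n r x ≠ rot n r y := by
  unfold rot
  split_ifs <;> omega

theorem lt_r {r x : ℕ} (hx : x ≠ r) : lt2 (r : ℚ) (x : ℚ) = 1 + ir r x := by
  rw [lt2_nat]
  unfold ir
  have h2 := two'
  by_cases h : r < x
  · rw [if_pos h, if_neg (by omega)]; ring
  · rw [if_neg h, if_pos (by omega)]
    linear_combination (-1 : ZMod 2) * h2

section

variable {ι : Type}

/-- symmetric functions of the two rotated ends -/
theorem sym (n r : ℕ) (e : ι → ℕ × ℕ) (u : ι) (f : ℚ → ZMod 2) :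
    f (PQ (fun u => rotp n r (e u)) u).1 + f (PQ (fun u => rotp n r (e u)) u).2 =
      f ((rot n r (e u).1 : ℕ) : ℚ) + f ((rot n r (e u).2 : ℕ) : ℚ) := by
  unfold PQ rotp
  simp only
  rcases le_total (rot n r (e u).1) (rot n r (e u).2) with h | h
  · rw [min_eq_left h, max_eq_right h]
  · rw [min_eq_right h, max_eq_left h, add_comm]

theorem ptR (n r : ℕ) (e : ι → ℕ × ℕ) (u : ι) (z : ℚ) :
    pt (PQ (fun u => rotp n r (e u)) u) z =
      lt2 ((rot n r (e u).1 : ℕ) : ℚ) z + lt2 ((rot n r (e u).2 : ℕ) : ℚ) z := by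
  unfold pt
  exact sym n r e u (fun x => lt2 x z)

theorem ptR2 {n r i : ℕ} {e : ι → ℕ × ℕ} {u : ι} (hr : r < n) (hi : i < n) (h1 : (e u).1 < n)
    (h2 : (e u).2 < n) (h3 : i ≠ (e u).1) (h4 : i ≠ (e u).2) :
    pt (PQ (fun u => rotp n r (e u)) u) ((rot n r i : ℕ) : ℚ) =
      pt (PQ e u) (i : ℚ) + (ir r (e u).1 + ir r (e u).2) := by
  rw [ptR, ltR hr h1 hi h3.symm, ltR hr h2 hi h4.symm]
  show _ = lt2 ((e u).1 : ℚ) (i : ℚ) + lt2 ((e u).2 : ℚ) (i : ℚ) + _
  linear_combination two (ir r i)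

theorem rootR {n r s i : ℕ} (hrs : r < s) (hs : s < n) (hi : i < n) (h1 : i ≠ r) (h2 : i ≠ s) :
    1 + lt2 ((rot n r s : ℕ) : ℚ) ((rot n r i : ℕ) : ℚ) = pt ((r : ℚ), (s : ℚ)) (i : ℚ) := by
  rw [ltR (by omega) hs hi h2.symm]
  show _ = lt2 (r : ℚ) (i : ℚ) + lt2 (s : ℚ) (i : ℚ)
  rw [lt_r h1]
  have : ir r s = 0 := by unfold ir; rw [if_neg (by omega)]
  rw [this]
  ring

end

end Rot

open Rot in
theorem I_Rot : StRot := by
  intro ι _ _ n r s V M e hrs hsn hMV hV hdis
  have hr : r < n := by omega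
  refine ⟨∑ m ∈ M, (ir r (e m).1 + ir r (e m).2), ?_, ?_⟩
  · congr 1
    funext u v
    unfold BM BB
    by_cases huv : u = v
    · subst huv
      rw [if_pos rfl, if_pos rfl]
      by_cases hu : u ∈ V
      · rw [if_pos hu, if_pos hu]
        obtain ⟨a1, a2, a3, a4, a5, a6, a7⟩ := hV u hu
        have hs := sym n r e u (fun z => kap (PQ fun u => rotp n r (e u)) ((rot n r s : ℕ) : ℚ) M z)
        beta_reduce at hs
        have hm : ∀ m ∈ M, pt (PQ (fun u => rotp n r (e u)) m) ((rot n r (e u).1 : ℕ) : ℚ) +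
            pt (PQ (fun u => rotp n r (e u)) m) ((rot n r (e u).2 : ℕ) : ℚ) =
            pt (PQ e m) ((e u).1 : ℚ) + pt (PQ e m) ((e u).2 : ℚ) := by
          intro m hm
          by_cases hmu : m = u
          · subst hmu
            rw [ptR, ptR, lt_self, lt_self]
            show _ = lt2 ((e m).1 : ℚ) ((e m).1 : ℚ) + lt2 ((e m).2 : ℚ) ((e m).1 : ℚ) +
              (lt2 ((e m).1 : ℚ) ((e m).2 : ℚ) + lt2 ((e m).2 : ℚ) ((e m).2 : ℚ))
            rw [lt_self, lt_self]
            have h1 := lt_tot a3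
            have h2 := lt_tot (rot_ne hr a1 a2 a3)
            linear_combination h2 - h1
          · obtain ⟨b1, b2, _⟩ := hV m (hMV hm)
            obtain ⟨c1, c2, c3, c4⟩ := hdis u hu m (hMV hm) (Ne.symm hmu)
            rw [ptR2 hr a1 b1 b2 c1 c2, ptR2 hr a2 b1 b2 c3 c4]
            linear_combination two (ir r (e m).1 + ir r (e m).2)
        have hsum := Finset.sum_congr rfl hm
        rw [Finset.sum_add_distrib, Finset.sum_add_distrib] at hsum
        have r1 := rootR hrs hsn a1 a4 a5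
        have r2 := rootR hrs hsn a2 a6 a7
        have hL : kap (PQ fun u => rotp n r (e u)) ((rot n r s : ℕ) : ℚ) M
            ((rot n r (e u).1 : ℕ) : ℚ) + kap (PQ fun u => rotp n r (e u)) ((rot n r s : ℕ) : ℚ) M
            ((rot n r (e u).2 : ℕ) : ℚ) = kb (pt ((r : ℚ), (s : ℚ))) (PQ e) M (PQ e u).1 +
            kb (pt ((r : ℚ), (s : ℚ))) (PQ e) M (PQ e u).2 := by
          show _ = kb (pt ((r : ℚ), (s : ℚ))) (PQ e) M ((e u).1 : ℚ) +
            kb (pt ((r : ℚ), (s : ℚ))) (PQ e) M ((e u).2 : ℚ)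
          unfold kap kb
          linear_combination r1 + r2 + hsum
        linear_combination hs + hL
      · rw [if_neg hu, if_neg hu]
    · rw [if_neg huv, if_neg huv]
      by_cases hM : u ∈ M ∧ v ∈ M
      · rw [if_pos hM, if_pos hM]
        obtain ⟨hu, hv⟩ := hM
        obtain ⟨a1, a2, a3, _⟩ := hV u (hMV hu)
        obtain ⟨b1, b2, _⟩ := hV v (hMV hv)
        obtain ⟨c1, c2, c3, c4⟩ := hdis u (hMV hu) v (hMV hv) huv
        unfold cr
        rw [sym n r e u (fun z => pt (PQ (fun u => rotp n r (e u)) v) z),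
          ptR2 hr a1 b1 b2 c1 c2, ptR2 hr a2 b1 b2 c3 c4]
        show _ = pt (PQ e v) ((e u).1 : ℚ) + pt (PQ e v) ((e u).2 : ℚ)
        linear_combination two (ir r (e v).1 + ir r (e v).2)
      · rw [if_neg hM, if_neg hM]
  · intro i hi hir his hiM
    unfold kap kb
    rw [rootR hrs hsn hi hir his]
    have hsum : ∑ m ∈ M, pt (PQ (fun u => rotp n r (e u)) m) ((rot n r i : ℕ) : ℚ) =
        ∑ m ∈ M, (pt (PQ e m) (i : ℚ) + (ir r (e m).1 + ir r (e m).2)) := by
      refine Finset.sum_congr rfl fun m hm => ?_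
      obtain ⟨b1, b2, _⟩ := hV m (hMV hm)
      exact ptR2 hr hi b1 b2 (hiM m hm).1 (hiM m hm).2
    rw [hsum, Finset.sum_add_distrib]
    ring

end Pool.Agent.Work.MP_7794fd_co.T
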