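import Pool.Agent.Work.MP_7794fd_co.T.Stmts

/-! Project MP_7794fd_co, module T, item SlP: a point which does not belong to a used pair moves
over an end of a free chord. -/

set_option autoImplicit false

namespace Pool.Agent.Work.MP_7794fd_co.T

open Finset Matrix
open Pool.Agent.Work.MP_7794fd_co.R

namespace SlP

variable {ι : Type} [Fintype ι] [DecidableEq ι]

theorem lin (b : ℚ → ZMod 2) (pos : ι → ℚ × ℚ) (V W : Finset ι)
    {h₁ h₂ h₃ : (ℚ → ZMod 2) → ZMod 2}
    (H : ∀ M ∈ V.powerset, h₃ (kb b pos (M ∪ W)) = h₁ (kb b pos (M ∪ W)) +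
      h₂ (kb b pos (M ∪ W))) :
    SB b pos V W h₃ = SB b pos V W h₁ + SB b pos V W h₂ := by
  unfold SB
  rw [← Finset.sum_add_distrib]
  refine Finset.sum_congr rfl fun M hM => ?_
  rw [H M hM, mul_add]

theorem lt2_away {c' c p z : ℚ} (h1 : c' < p) (h2 : p < c) (h : Away c' c z) :
    lt2 z p = lt2 z c := by
  unfold lt2
  rcases h with h | h
  · rw [if_pos (h.trans h1), if_pos ((h.trans h1).trans h2)]
  · rw [if_neg (not_lt.2 (h2.trans h).le), if_neg (not_lt.2 h.le)]

omit [Fintype ι] [DecidableEq ι] in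
theorem kb_eq {b : ℚ → ZMod 2} {pos : ι → ℚ × ℚ} {M : Finset ι} {c' c p : ℚ} (h1 : c' < p)
    (h2 : p < c) (hb : b p = b c)
    (hM : ∀ m ∈ M, Away c' c (pos m).1 ∧ Away c' c (pos m).2) :
    kb b pos M p = kb b pos M c := by
  unfold kb
  rw [hb]
  congr 1
  refine Finset.sum_congr rfl fun m hm => ?_
  unfold pt
  rw [lt2_away h1 h2 (hM m hm).1, lt2_away h1 h2 (hM m hm).2]

end SlP

open SlP in
theorem I_SlP (h1 : StBSplit) (h2 : StBPoint) : StSlP := by
  intro ι _ _ b pos V W u c' c p q C H h hH hVW hS hb hW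
  have h20 : (2 : ZMod 2) = 0 := by decide
  have hcc : c' < c := hS.lt.trans hS.lt'
  have hc : c ∉ C := by
    intro h3
    rcases hS.out c h3 with h4 | h4
    · exact absurd h4 (not_lt.2 hcc.le)
    · exact absurd h4 (lt_irrefl _)
  have hc' : c' ∉ C := by
    intro h3
    rcases hS.out c' h3 with h4 | h4
    · exact absurd h4 (lt_irrefl _)
    · exact absurd h4 (not_lt.2 hcc.le)
  have hq : q ∉ C := by
    have h3 := hS.gen.out u hS.mem
    rcases hS.ends with h4 | h4
    · rw [h4] at h3
      exact h3.2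
    · rw [h4] at h3
      exact h3.1
  have hpb : b p = b c := hb p hS.lt.le hS.lt'.le
  -- the left side
  have e1 : SB b pos V W (fun κ => (κ c + κ c') * (H C κ * h κ)) =
      SB b pos V W (fun κ => H (insert c C) κ * h κ) +
        SB b pos V W (fun κ => H (insert c' C) κ * h κ) := by
    refine lin b pos V W fun M _ => ?_
    rw [← add_mul, hH.ins C c c' _ hc hc']
    ring
  have e2 := h2 b pos V W u c' c p q (fun κ => H C κ * h κ) hS.mem hVW hS.ends hS.lt hS.lt'
    hS.away (hb c' le_rfl hcc.le).symm (by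
      intro w hw hwu
      rcases Finset.mem_union.1 hw with h3 | h3
      · exact hS.other w h3 hwu
      · exact hW w h3)
  have e3 := h1 b pos V W u (fun κ => H C κ * h κ) hS.mem hVW
  have hpq : ∀ κ : ℚ → ZMod 2, κ (pos u).1 + κ (pos u).2 = κ p + κ q := by
    intro κ
    rcases hS.ends with h4 | h4
    · rw [h4]
    · rw [h4]
      exact add_comm _ _
  have e4 : SB b pos (V.erase u) W
      (fun κ => (1 + κ (pos u).1 + κ (pos u).2) * (H C κ * h κ)) =
      SB b pos (V.erase u) W (fun κ => H C κ * h κ) +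
        SB b pos (V.erase u) W
          (fun κ => H (insert c C) κ * h κ + H (insert q C) κ * h κ) := by
    refine lin b pos (V.erase u) W fun M hM => ?_
    have hk : kb b pos (M ∪ W) p = kb b pos (M ∪ W) c := by
      refine kb_eq hS.lt hS.lt' hpb fun m hm => ?_
      rcases Finset.mem_union.1 hm with h3 | h3
      · have h4 := Finset.mem_powerset.1 hM h3
        exact hS.other m (Finset.mem_of_mem_erase h4) (Finset.ne_of_mem_erase h4)
      · exact hW m h3
    have h3 := hpq (kb b pos (M ∪ W))
    rw [← add_mul, hH.ins C c q _ hc hq, ← hk, add_assoc, h3]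
    ring
  have e5 : SB b pos (V.erase u) W
      (fun κ => H (insert c C) κ * h κ + H (insert q C) κ * h κ) =
      SB b pos (V.erase u) W (fun κ => H (insert c C) κ * h κ) +
        SB b pos (V.erase u) W (fun κ => H (insert q C) κ * h κ) :=
    lin b pos (V.erase u) W fun M _ => rfl
  rw [← e1, e2, e3, e4, e5]
  linear_combination (-(SB b pos (V.erase u) W (fun κ => H C κ * h κ)) -
    SB b pos (V.erase u) W (fun κ => H (insert c C) κ * h κ) -
    SB b pos (V.erase u) W (fun κ => H (insert q C) κ * h κ)) * h20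

end Pool.Agent.Work.MP_7794fd_co.T
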