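import Pool.Agent.Work.MP_7794fd_co.T.Stmts

/-! Project MP_7794fd_co, module T, item T2a: a point of the first set of `T2` moves. -/

set_option autoImplicit false

namespace Pool.Agent.Work.MP_7794fd_co.T

open Finset Matrix
open Pool.Agent.Work.MP_7794fd_co.R

namespace T2a

theorem pt_symm (a x : ℚ) : pt (a, x) = pt (x, a) := by
  funext z
  simp [pt, add_comm]

theorem mem_pairs {A : Finset ℚ} {p : ℚ × ℚ} : p ∈ pairs A ↔ p.1 ∈ A ∧ p.2 ∈ A ∧ p.1 < p.2 := by
  simp [pairs, and_assoc]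

/-- the pairs of `insert x A` -/
theorem sum_pairs_insert {A : Finset ℚ} {x : ℚ} (hx : x ∉ A) (F : ℚ × ℚ → ZMod 2)
    (hF : ∀ a ∈ A, F (x, a) = F (a, x)) :
    ∑ p ∈ pairs (insert x A), F p = ∑ p ∈ pairs A, F p + ∑ a ∈ A, F (a, x) := by
  classical
  have h1 : pairs (insert x A) = pairs A ∪ A.image (fun a => if a < x then (a, x) else (x, a)) := by
    ext p
    rcases p with ⟨s, t⟩
    simp only [mem_pairs, Finset.mem_insert, Finset.mem_union, Finset.mem_image]
    constructor
    · rintro ⟨hs, ht, hlt⟩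
      rcases hs with rfl | hs
      · rcases ht with rfl | ht
        · exact absurd hlt (lt_irrefl _)
        · exact Or.inr ⟨t, ht, by rw [if_neg (not_lt.2 hlt.le)]⟩
      · rcases ht with rfl | ht
        · exact Or.inr ⟨s, hs, by rw [if_pos hlt]⟩
        · exact Or.inl ⟨hs, ht, hlt⟩
    · rintro (⟨hs, ht, hlt⟩ | ⟨a, ha, he⟩)
      · exact ⟨Or.inr hs, Or.inr ht, hlt⟩
      · have hne : a ≠ x := fun h => hx (h ▸ ha)
        by_cases hax : a < x
        · rw [if_pos hax] at he
          obtain ⟨rfl, rfl⟩ := Prod.mk.inj he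
          exact ⟨Or.inr ha, Or.inl rfl, hax⟩
        · rw [if_neg hax] at he
          obtain ⟨rfl, rfl⟩ := Prod.mk.inj he
          exact ⟨Or.inl rfl, Or.inr ha, lt_of_le_of_ne (not_lt.1 hax) (Ne.symm hne)⟩
  have h2 : Disjoint (pairs A) (A.image (fun a => if a < x then (a, x) else (x, a))) := by
    rw [Finset.disjoint_left]
    intro p hp hq
    obtain ⟨hs, ht, -⟩ := mem_pairs.1 hp
    obtain ⟨a, ha, he⟩ := Finset.mem_image.1 hq
    by_cases hax : a < x
    · rw [if_pos hax] at he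
      rw [← he] at ht
      exact hx ht
    · rw [if_neg hax] at he
      rw [← he] at hs
      exact hx hs
  rw [h1, Finset.sum_union h2, Finset.sum_image]
  · congr 1
    refine Finset.sum_congr rfl fun a ha => ?_
    by_cases hax : a < x
    · rw [if_pos hax]
    · rw [if_neg hax]
      exact hF a ha
  · intro a ha b hb hab
    have hne : a ≠ x := fun h => hx (h ▸ ha)
    have hne' : b ≠ x := fun h => hx (h ▸ hb)
    simp only at hab
    by_cases hax : a < x
    · by_cases hbx : b < x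
      · rw [if_pos hax, if_pos hbx] at hab
        exact (Prod.mk.inj hab).1
      · rw [if_pos hax, if_neg hbx] at hab
        exact absurd (Prod.mk.inj hab).1 hne
    · by_cases hbx : b < x
      · rw [if_neg hax, if_pos hbx] at hab
        exact absurd (Prod.mk.inj hab).1.symm hne'
      · rw [if_neg hax, if_neg hbx] at hab
        exact (Prod.mk.inj hab).2

theorem rest_old {A : Finset ℚ} {x : ℚ} (hx : x ∉ A) {p : ℚ × ℚ} (hp : p ∈ pairs A) :
    rest (insert x A) p = insert x (rest A p) := by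
  obtain ⟨h1, h2, -⟩ := mem_pairs.1 hp
  have e1 : x ≠ p.1 := fun h => hx (h ▸ h1)
  have e2 : x ≠ p.2 := fun h => hx (h ▸ h2)
  unfold rest
  rw [Finset.erase_insert_of_ne e1, Finset.erase_insert_of_ne e2]

theorem rest_new {A : Finset ℚ} {x a : ℚ} (hx : x ∉ A) (ha : a ∈ A) :
    rest (insert x A) (a, x) = A.erase a ∧ rest (insert x A) (x, a) = A.erase a := by
  have e1 : x ≠ a := fun h => hx (h ▸ ha)
  unfold rest
  constructor
  · simp only
    rw [Finset.erase_insert_of_ne e1, Finset.erase_insert]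
    intro h
    exact hx (Finset.mem_of_mem_erase h)
  · simp only
    rw [Finset.erase_insert hx]

theorem rest_subset (A : Finset ℚ) (p : ℚ × ℚ) : rest A p ⊆ A := by
  intro z hz
  exact Finset.mem_of_mem_erase (Finset.mem_of_mem_erase hz)

section

variable {ι : Type} [Fintype ι] [DecidableEq ι]

/-- `T2` for `insert x A` -/
theorem T2_insert (pos : ι → ℚ × ℚ) (V : Finset ι) (g : ι)
    (H₁ H₂ H₃ : Finset ℚ → (ℚ → ZMod 2) → ZMod 2) (A B C : Finset ℚ) {x : ℚ} (hx : x ∉ A) :
    T2 pos V g H₁ H₂ H₃ (insert x A) B C =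
      ∑ p ∈ pairs A, ∑ p' ∈ pairs B, SB (pt p) (Function.update pos g p') V {g}
        (fun κ => H₁ (insert x (rest A p)) κ * (H₂ (rest B p') κ * H₃ C κ)) +
      ∑ a ∈ A, ∑ p' ∈ pairs B, SB (pt (a, x)) (Function.update pos g p') V {g}
        (fun κ => H₁ (A.erase a) κ * H₂ (rest B p') κ * H₃ C κ) := by
  unfold T2
  rw [sum_pairs_insert hx]
  · congr 1
    · refine Finset.sum_congr rfl fun p hp => Finset.sum_congr rfl fun p' _ => ?_
      rw [rest_old hx hp]
      congr 1
      funext κ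
      rw [mul_assoc]
    · refine Finset.sum_congr rfl fun a ha => Finset.sum_congr rfl fun p' _ => ?_
      rw [(rest_new hx ha).1]
  · intro a ha
    refine Finset.sum_congr rfl fun p' _ => ?_
    rw [(rest_new hx ha).1, (rest_new hx ha).2, pt_symm]

end

end T2a

/-- 11: a point of the first set of `T2` moves. -/
theorem I_T2a (h1 : StBRoot) (h2 : StSlP) : StT2a := by
  intro ι _ _ pos V g u c' c p q H₁ H₂ H₃ A B C hg hH₁ hH₂ hH₃ hS
  have hcc : c' < c := hS.lt.trans hS.lt'
  have hcA : ∀ z ∈ A ∪ B ∪ C, Away c' c z := hS.out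
  have naw : ∀ z, c' ≤ z → z ≤ c → ¬ Away c' c z := by
    intro z hz1 hz2 h
    rcases h with h | h
    · exact absurd h (not_lt.2 hz1)
    · exact absurd h (not_lt.2 hz2)
  have hA : ∀ a ∈ A, a ∈ A ∪ B ∪ C := fun a ha =>
    Finset.mem_union_left _ (Finset.mem_union_left _ ha)
  have hBm : ∀ a ∈ B, a ∈ A ∪ B ∪ C := fun a ha =>
    Finset.mem_union_left _ (Finset.mem_union_right _ ha)
  have hCm : ∀ a ∈ C, a ∈ A ∪ B ∪ C := fun a ha => Finset.mem_union_right _ ha
  have hc : c ∉ A := fun h => naw c hcc.le le_rfl (hcA c (hA c h))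
  have hc' : c' ∉ A := fun h => naw c' le_rfl hcc.le (hcA c' (hA c' h))
  have hqZ : q ∉ A ∪ B ∪ C := by
    obtain ⟨o1, o2⟩ := hS.gen.out u hS.mem
    rcases hS.ends with he | he
    · rw [he] at o2
      exact o2
    · rw [he] at o1
      exact o1
  have hq : q ∉ A := fun h => hqZ (hA q h)
  have hgu : g ≠ u := fun h => hg (h ▸ hS.mem)
  have hdis : Disjoint V {g} := by
    rw [Finset.disjoint_singleton_right]
    exact hg
  -- the colour of a chord whose ends are away
  have hpt : ∀ e : ℚ × ℚ, Away c' c e.1 → Away c' c e.2 → ∀ z, c' ≤ z → z ≤ c →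
      pt e z = pt e c := by
    have key : ∀ e, Away c' c e → ∀ z, c' ≤ z → z ≤ c → lt2 e z = lt2 e c := by
      intro e he z hz1 hz2
      unfold lt2
      rcases he with h | h
      · rw [if_pos (lt_of_lt_of_le h hz1), if_pos (h.trans hcc)]
      · rw [if_neg (not_lt.2 (hz2.trans h.le)), if_neg (not_lt.2 h.le)]
    intro e e1 e2 z hz1 hz2
    unfold pt
    rw [key _ e1 z hz1 hz2, key _ e2 z hz1 hz2]
  have hupd : ∀ (p' : ℚ × ℚ) (w : ι), w ∈ V → Function.update pos g p' w = pos w := by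
    intro p' w hw
    have hne : w ≠ g := fun h => hg (h ▸ hw)
    exact Function.update_of_ne hne _ _
  have hends : ∀ p' : ℚ × ℚ, EndsOf (Function.update pos g p') u p q := by
    intro p'
    unfold EndsOf
    rw [hupd p' u hS.mem]
    exact hS.ends
  have hSl : ∀ (p' : ℚ × ℚ) (Z : Finset ℚ), Z ⊆ A ∪ B ∪ C →
      Sl (Function.update pos g p') V u c' c p q Z := by
    intro p' Z hZ
    refine ⟨hS.mem, hends p', hS.lt, hS.lt', hS.away, ?_, fun z hz => hS.out z (hZ hz), ?_⟩
    · intro w hw hwu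
      rw [hupd p' w hw]
      exact hS.other w hw hwu
    · refine ⟨?_, ?_, ?_⟩
      · intro w hw
        rw [hupd p' w hw]
        exact hS.gen.ne w hw
      · intro w hw v hv hwv
        rw [hupd p' w hw, hupd p' v hv]
        exact hS.gen.dis w hw v hv hwv
      · intro w hw
        rw [hupd p' w hw]
        obtain ⟨o1, o2⟩ := hS.gen.out w hw
        exact ⟨fun h => o1 (hZ h), fun h => o2 (hZ h)⟩
  unfold SlEq
  simp only
  rw [T2a.T2_insert pos V g H₁ H₂ H₃ A B C hc, T2a.T2_insert pos V g H₁ H₂ H₃ A B C hc',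
    T2a.T2_insert pos (V.erase u) g H₁ H₂ H₃ A B C hc,
    T2a.T2_insert pos (V.erase u) g H₁ H₂ H₃ A B C hq]
  have hfirst : ∑ e ∈ pairs A, ∑ p' ∈ pairs B, SB (pt e) (Function.update pos g p') V {g}
        (fun κ => H₁ (insert c (rest A e)) κ * (H₂ (rest B p') κ * H₃ C κ)) +
      ∑ e ∈ pairs A, ∑ p' ∈ pairs B, SB (pt e) (Function.update pos g p') V {g}
        (fun κ => H₁ (insert c' (rest A e)) κ * (H₂ (rest B p') κ * H₃ C κ)) =
      ∑ e ∈ pairs A, ∑ p' ∈ pairs B, SB (pt e) (Function.update pos g p') (V.erase u) {g}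
        (fun κ => H₁ (insert c (rest A e)) κ * (H₂ (rest B p') κ * H₃ C κ)) +
      ∑ e ∈ pairs A, ∑ p' ∈ pairs B, SB (pt e) (Function.update pos g p') (V.erase u) {g}
        (fun κ => H₁ (insert q (rest A e)) κ * (H₂ (rest B p') κ * H₃ C κ)) +
      T2 pos V g H₁ H₂ H₃ A B C + T2 pos (V.erase u) g H₁ H₂ H₃ A B C := by
    unfold T2
    simp only [← Finset.sum_add_distrib]
    refine Finset.sum_congr rfl fun e he => Finset.sum_congr rfl fun p' hp' => ?_
    obtain ⟨e1, e2, -⟩ := T2a.mem_pairs.1 he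
    obtain ⟨f1, f2, -⟩ := T2a.mem_pairs.1 hp'
    have hh := h2 (pt e) (Function.update pos g p') V {g} u c' c p q (rest A e) H₁
      (fun κ => H₂ (rest B p') κ * H₃ C κ) hH₁ hdis
      (hSl p' _ (fun z hz => hA z (T2a.rest_subset A e hz)))
      (hpt e (hcA _ (hA _ e1)) (hcA _ (hA _ e2)))
      (by
        intro w hw
        rw [Finset.mem_singleton.1 hw, Function.update_self]
        exact ⟨hcA _ (hBm _ f1), hcA _ (hBm _ f2)⟩)
    simp only [mul_assoc]
    exact hh
  have hsecond : ∑ a ∈ A, ∑ p' ∈ pairs B, SB (pt (a, c)) (Function.update pos g p') V {g}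
        (fun κ => H₁ (A.erase a) κ * H₂ (rest B p') κ * H₃ C κ) +
      ∑ a ∈ A, ∑ p' ∈ pairs B, SB (pt (a, c')) (Function.update pos g p') V {g}
        (fun κ => H₁ (A.erase a) κ * H₂ (rest B p') κ * H₃ C κ) =
      ∑ a ∈ A, ∑ p' ∈ pairs B, SB (pt (a, c)) (Function.update pos g p') (V.erase u) {g}
        (fun κ => H₁ (A.erase a) κ * H₂ (rest B p') κ * H₃ C κ) +
      ∑ a ∈ A, ∑ p' ∈ pairs B, SB (pt (a, q)) (Function.update pos g p') (V.erase u) {g}
        (fun κ => H₁ (A.erase a) κ * H₂ (rest B p') κ * H₃ C κ) := by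
    simp only [← Finset.sum_add_distrib]
    refine Finset.sum_congr rfl fun a ha => Finset.sum_congr rfl fun p' hp' => ?_
    obtain ⟨f1, f2, -⟩ := T2a.mem_pairs.1 hp'
    refine h1 (Function.update pos g p') V {g} u a c' c p q _ hS.mem hdis (hends p') hS.lt hS.lt'
      hS.away (hcA _ (hA _ ha)) (fun h => hq (h ▸ ha)) ?_ ?_
    · intro w hw hwu
      rcases Finset.mem_union.1 hw with hw | hw
      · rw [hupd p' w hw]
        exact hS.other w hw hwu
      · rw [Finset.mem_singleton.1 hw, Function.update_self]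
        exact ⟨hcA _ (hBm _ f1), hcA _ (hBm _ f2)⟩
    · intro κ₁ κ₂ hκ
      have g1 : H₁ (A.erase a) κ₁ = H₁ (A.erase a) κ₂ :=
        hH₁.loc _ _ _ fun z hz => hκ z (hcA z (hA z (Finset.mem_of_mem_erase hz)))
      have g2 : H₂ (rest B p') κ₁ = H₂ (rest B p') κ₂ :=
        hH₂.loc _ _ _ fun z hz => hκ z (hcA z (hBm z (T2a.rest_subset B p' hz)))
      have g3 : H₃ C κ₁ = H₃ C κ₂ :=
        hH₃.loc _ _ _ fun z hz => hκ z (hcA z (hCm z hz))
      simp only
      rw [g1, g2, g3]
  linear_combination hfirst + hsecond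

end Pool.Agent.Work.MP_7794fd_co.T
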