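import Pool.Agent.Work.MP_7794fd_co.T.Stmts
import Pool.Agent.Work.MP_7794fd_co.T.T2a

/-! Project MP_7794fd_co, module T, item T1a: a point of the first set of `T1` moves. -/

set_option autoImplicit false

namespace Pool.Agent.Work.MP_7794fd_co.T

open Finset Matrix
open Pool.Agent.Work.MP_7794fd_co.R

namespace T1a

/-- `T1` for `insert x A` -/
theorem T1_insert {ι : Type} [Fintype ι] [DecidableEq ι] (pos : ι → ℚ × ℚ) (V : Finset ι)
    (H₁ H₂ H₃ : Finset ℚ → (ℚ → ZMod 2) → ZMod 2) (A B C : Finset ℚ) {x : ℚ} (hx : x ∉ A) :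
    T1 pos V H₁ H₂ H₃ (insert x A) B C =
      ∑ p ∈ pairs A, SB (pt p) pos V ∅
        (fun κ => H₁ (insert x (rest A p)) κ * (H₂ B κ * H₃ C κ)) +
      ∑ a ∈ A, SB (pt (a, x)) pos V ∅
        (fun κ => H₁ (A.erase a) κ * H₂ B κ * H₃ C κ) := by
  unfold T1
  rw [T2a.sum_pairs_insert hx]
  · congr 1
    · refine Finset.sum_congr rfl fun p hp => ?_
      rw [T2a.rest_old hx hp]
      congr 1
      funext κ
      rw [mul_assoc]
    · refine Finset.sum_congr rfl fun a ha => ?_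
      rw [(T2a.rest_new hx ha).1]
  · intro a ha
    rw [(T2a.rest_new hx ha).1, (T2a.rest_new hx ha).2, T2a.pt_symm]

end T1a

/-- 9: a point of the first set of `T1` moves. -/
theorem I_T1a (h1 : StBRoot) (h2 : StSlP) : StT1a := by
  intro ι _ _ pos V u c' c p q H₁ H₂ H₃ A B C hH₁ hH₂ hH₃ hS
  have hcc : c' < c := hS.lt.trans hS.lt'
  have hcA : ∀ z ∈ A ∪ B ∪ C, Away c' c z := hS.out
  have naw : ∀ z, c' ≤ z → z ≤ c → ¬ Away c' c z := by
    intro z hz1 hz2 h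
    rcases h with h | h
    · exact absurd h (not_lt.2 hz1)
    · exact absurd h (not_lt.2 hz2)
  have hA : ∀ a ∈ A, a ∈ A ∪ B ∪ C := fun a ha =>
    Finset.mem_union_left _ (Finset.mem_union_left _ ha)
  have hBm : ∀ a ∈ B, a ∈ A ∪ B ∪ C := fun a ha =>
    Finset.mem_union_left _ (Finset.mem_union_right _ ha)
  have hCm : ∀ a ∈ C, a ∈ A ∪ B ∪ C := fun a ha => Finset.mem_union_right _ ha
  have hc : c ∉ A := fun h => naw c hcc.le le_rfl (hcA c (hA c h))
  have hc' : c' ∉ A := fun h => naw c' le_rfl hcc.le (hcA c' (hA c' h))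
  have hqZ : q ∉ A ∪ B ∪ C := by
    obtain ⟨o1, o2⟩ := hS.gen.out u hS.mem
    rcases hS.ends with he | he
    · rw [he] at o2
      exact o2
    · rw [he] at o1
      exact o1
  have hq : q ∉ A := fun h => hqZ (hA q h)
  -- the colour of a chord whose ends are away
  have hpt : ∀ e : ℚ × ℚ, Away c' c e.1 → Away c' c e.2 → ∀ z, c' ≤ z → z ≤ c →
      pt e z = pt e c := by
    have key : ∀ e, Away c' c e → ∀ z, c' ≤ z → z ≤ c → lt2 e z = lt2 e c := by
      intro e he z hz1 hz2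
      unfold lt2
      rcases he with h | h
      · rw [if_pos (lt_of_lt_of_le h hz1), if_pos (h.trans hcc)]
      · rw [if_neg (not_lt.2 (hz2.trans h.le)), if_neg (not_lt.2 h.le)]
    intro e e1 e2 z hz1 hz2
    unfold pt
    rw [key _ e1 z hz1 hz2, key _ e2 z hz1 hz2]
  have hSl : ∀ Z : Finset ℚ, Z ⊆ A ∪ B ∪ C → Sl pos V u c' c p q Z := by
    intro Z hZ
    refine ⟨hS.mem, hS.ends, hS.lt, hS.lt', hS.away, hS.other, fun z hz => hS.out z (hZ hz),
      ⟨hS.gen.ne, hS.gen.dis, ?_⟩⟩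
    intro w hw
    obtain ⟨o1, o2⟩ := hS.gen.out w hw
    exact ⟨fun h => o1 (hZ h), fun h => o2 (hZ h)⟩
  unfold SlEq
  simp only
  rw [T1a.T1_insert pos V H₁ H₂ H₃ A B C hc, T1a.T1_insert pos V H₁ H₂ H₃ A B C hc',
    T1a.T1_insert pos (V.erase u) H₁ H₂ H₃ A B C hc,
    T1a.T1_insert pos (V.erase u) H₁ H₂ H₃ A B C hq]
  have hfirst : ∑ e ∈ pairs A, SB (pt e) pos V ∅
        (fun κ => H₁ (insert c (rest A e)) κ * (H₂ B κ * H₃ C κ)) +
      ∑ e ∈ pairs A, SB (pt e) pos V ∅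
        (fun κ => H₁ (insert c' (rest A e)) κ * (H₂ B κ * H₃ C κ)) =
      ∑ e ∈ pairs A, SB (pt e) pos (V.erase u) ∅
        (fun κ => H₁ (insert c (rest A e)) κ * (H₂ B κ * H₃ C κ)) +
      ∑ e ∈ pairs A, SB (pt e) pos (V.erase u) ∅
        (fun κ => H₁ (insert q (rest A e)) κ * (H₂ B κ * H₃ C κ)) +
      T1 pos V H₁ H₂ H₃ A B C + T1 pos (V.erase u) H₁ H₂ H₃ A B C := by
    unfold T1
    simp only [← Finset.sum_add_distrib]
    refine Finset.sum_congr rfl fun e he => ?_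
    obtain ⟨e1, e2, -⟩ := T2a.mem_pairs.1 he
    have hh := h2 (pt e) pos V ∅ u c' c p q (rest A e) H₁
      (fun κ => H₂ B κ * H₃ C κ) hH₁ (Finset.disjoint_empty_right V)
      (hSl _ (fun z hz => hA z (T2a.rest_subset A e hz)))
      (hpt e (hcA _ (hA _ e1)) (hcA _ (hA _ e2)))
      (fun w hw => absurd hw (Finset.notMem_empty w))
    simp only [mul_assoc]
    exact hh
  have hsecond : ∑ a ∈ A, SB (pt (a, c)) pos V ∅
        (fun κ => H₁ (A.erase a) κ * H₂ B κ * H₃ C κ) +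
      ∑ a ∈ A, SB (pt (a, c')) pos V ∅
        (fun κ => H₁ (A.erase a) κ * H₂ B κ * H₃ C κ) =
      ∑ a ∈ A, SB (pt (a, c)) pos (V.erase u) ∅
        (fun κ => H₁ (A.erase a) κ * H₂ B κ * H₃ C κ) +
      ∑ a ∈ A, SB (pt (a, q)) pos (V.erase u) ∅
        (fun κ => H₁ (A.erase a) κ * H₂ B κ * H₃ C κ) := by
    simp only [← Finset.sum_add_distrib]
    refine Finset.sum_congr rfl fun a ha => ?_
    refine h1 pos V ∅ u a c' c p q _ hS.mem (Finset.disjoint_empty_right V) hS.ends hS.lt hS.lt'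
      hS.away (hcA _ (hA _ ha)) (fun h => hq (h ▸ ha)) ?_ ?_
    · intro w hw hwu
      rw [Finset.union_empty] at hw
      exact hS.other w hw hwu
    · intro κ₁ κ₂ hκ
      have g1 : H₁ (A.erase a) κ₁ = H₁ (A.erase a) κ₂ :=
        hH₁.loc _ _ _ fun z hz => hκ z (hcA z (hA z (Finset.mem_of_mem_erase hz)))
      have g2 : H₂ B κ₁ = H₂ B κ₂ :=
        hH₂.loc _ _ _ fun z hz => hκ z (hcA z (hBm z hz))
      have g3 : H₃ C κ₁ = H₃ C κ₂ :=
        hH₃.loc _ _ _ fun z hz => hκ z (hcA z (hCm z hz))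
      simp only
      rw [g1, g2, g3]
  linear_combination hfirst + hsecond

end Pool.Agent.Work.MP_7794fd_co.T
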