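import Pool.Agent.Work.MP_7794fd_co.T.Stmts

/-! Project MP_7794fd_co, module T, item 10: a point of the second or third set of `T1` moves. -/

set_option autoImplicit false

namespace Pool.Agent.Work.MP_7794fd_co.T

open Finset Matrix
open Pool.Agent.Work.MP_7794fd_co.R

namespace T1b

theorem lt2_away {c' c a z : ℚ} (hcc : c' < c) (h : Away c' c a) (h1 : c' ≤ z) (h2 : z ≤ c) :
    lt2 a z = lt2 a c := by
  unfold lt2
  rcases h with h | h
  · rw [if_pos (lt_of_lt_of_le h h1), if_pos (h.trans hcc)]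
  · rw [if_neg (not_lt.2 (h2.trans h.le)), if_neg (not_lt.2 h.le)]

theorem pt_away {c' c : ℚ} {p : ℚ × ℚ} {A Z : Finset ℚ} (hcc : c' < c) (hp : p ∈ pairs A)
    (hA : A ⊆ Z) (h : ∀ z ∈ Z, Away c' c z) {z : ℚ} (h1 : c' ≤ z) (h2 : z ≤ c) :
    pt p z = pt p c := by
  unfold pairs at hp
  rw [mem_filter, mem_product] at hp
  unfold pt
  rw [lt2_away hcc (h _ (hA hp.1.1)) h1 h2, lt2_away hcc (h _ (hA hp.1.2)) h1 h2]

theorem Sl.mono {ι : Type} {pos : ι → ℚ × ℚ} {V : Finset ι} {u : ι} {c' c p q : ℚ}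
    {Z Z' : Finset ℚ} (h : Sl pos V u c' c p q Z) (hZ : Z' ⊆ Z) : Sl pos V u c' c p q Z' where
  mem := h.mem
  ends := h.ends
  lt := h.lt
  lt' := h.lt'
  away := h.away
  other := h.other
  out := fun z hz => h.out z (hZ hz)
  gen := ⟨h.gen.ne, h.gen.dis, fun w hw => ⟨fun h1 => (h.gen.out w hw).1 (hZ h1),
    fun h1 => (h.gen.out w hw).2 (hZ h1)⟩⟩

theorem SB_congr {ι : Type} [Fintype ι] [DecidableEq ι] {b : ℚ → ZMod 2} {pos : ι → ℚ × ℚ}
    {V W : Finset ι} {h₁ h₂ : (ℚ → ZMod 2) → ZMod 2} (h : ∀ κ, h₁ κ = h₂ κ) :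
    SB b pos V W h₁ = SB b pos V W h₂ := by
  rw [funext h]

end T1b

theorem I_T1b (h : StSlP) : StT1b := by
  intro ι _ _ pos V u c' c p q H₁ H₂ H₃ A B C _ hH₂ hH₃ hS
  have hcc : c' < c := hS.lt.trans hS.lt'
  have hb : ∀ r ∈ pairs A, ∀ z, c' ≤ z → z ≤ c → pt r z = pt r c := fun r hr z h1 h2 =>
    T1b.pt_away hcc hr (subset_union_left.trans subset_union_left) hS.out h1 h2
  constructor
  · show T1 pos V H₁ H₂ H₃ A (insert c B) C + T1 pos V H₁ H₂ H₃ A (insert c' B) C =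
      T1 pos (V.erase u) H₁ H₂ H₃ A (insert c B) C + T1 pos (V.erase u) H₁ H₂ H₃ A (insert q B) C +
        T1 pos V H₁ H₂ H₃ A B C + T1 pos (V.erase u) H₁ H₂ H₃ A B C
    unfold T1
    rw [← sum_add_distrib, ← sum_add_distrib, ← sum_add_distrib, ← sum_add_distrib]
    refine sum_congr rfl fun r hr => ?_
    have key := h (pt r) pos V ∅ u c' c p q B H₂ (fun κ => H₁ (rest A r) κ * H₃ C κ) hH₂
      (disjoint_empty_right V) (T1b.Sl.mono hS (subset_union_right.trans subset_union_left))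
      (hb r hr) (fun w hw => absurd hw (notMem_empty w))
    have e : ∀ (V' : Finset ι) (B' : Finset ℚ),
        SB (pt r) pos V' ∅ (fun κ => H₁ (rest A r) κ * H₂ B' κ * H₃ C κ) =
          SB (pt r) pos V' ∅ (fun κ => H₂ B' κ * (H₁ (rest A r) κ * H₃ C κ)) :=
      fun V' B' => T1b.SB_congr fun κ => by ring
    rw [e, e, e, e, e, e]
    exact key
  · show T1 pos V H₁ H₂ H₃ A B (insert c C) + T1 pos V H₁ H₂ H₃ A B (insert c' C) =
      T1 pos (V.erase u) H₁ H₂ H₃ A B (insert c C) + T1 pos (V.erase u) H₁ H₂ H₃ A B (insert q C) +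
        T1 pos V H₁ H₂ H₃ A B C + T1 pos (V.erase u) H₁ H₂ H₃ A B C
    unfold T1
    rw [← sum_add_distrib, ← sum_add_distrib, ← sum_add_distrib, ← sum_add_distrib]
    refine sum_congr rfl fun r hr => ?_
    have key := h (pt r) pos V ∅ u c' c p q C H₃ (fun κ => H₁ (rest A r) κ * H₂ B κ) hH₃
      (disjoint_empty_right V) (T1b.Sl.mono hS subset_union_right)
      (hb r hr) (fun w hw => absurd hw (notMem_empty w))
    have e : ∀ (V' : Finset ι) (C' : Finset ℚ),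
        SB (pt r) pos V' ∅ (fun κ => H₁ (rest A r) κ * H₂ B κ * H₃ C' κ) =
          SB (pt r) pos V' ∅ (fun κ => H₃ C' κ * (H₁ (rest A r) κ * H₂ B κ)) :=
      fun V' C' => T1b.SB_congr fun κ => by ring
    rw [e, e, e, e, e, e]
    exact key

end Pool.Agent.Work.MP_7794fd_co.T
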