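import Pool.Agent.Work.MP_7794fd_co.T.Stmts

/-! Project MP_7794fd_co, module T, item T2c. -/

set_option autoImplicit false

namespace Pool.Agent.Work.MP_7794fd_co.T

open Finset Matrix
open Pool.Agent.Work.MP_7794fd_co.R

namespace T2c

theorem lt2_const {a c' c z : ℚ} (ha : Away c' c a) (h1 : c' ≤ z) (h2 : z ≤ c) :
    lt2 a z = lt2 a c := by
  unfold lt2
  rcases ha with h | h
  · rw [if_pos (h.trans_le h1), if_pos (h.trans_le (h1.trans h2))]
  · rw [if_neg (not_lt.2 (h2.trans h.le)), if_neg (not_lt.2 h.le)]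

theorem pt_const {p : ℚ × ℚ} {c' c z : ℚ} (h1 : Away c' c p.1) (h2 : Away c' c p.2)
    (h3 : c' ≤ z) (h4 : z ≤ c) : pt p z = pt p c := by
  unfold pt
  rw [lt2_const h1 h3 h4, lt2_const h2 h3 h4]

theorem sl_update {ι : Type} [Fintype ι] [DecidableEq ι] {pos : ι → ℚ × ℚ} {V : Finset ι}
    {g u : ι} {c' c p q : ℚ} {Z Z' : Finset ℚ} (hg : g ∉ V) (h : Sl pos V u c' c p q Z)
    (hZ : Z' ⊆ Z) (p' : ℚ × ℚ) : Sl (Function.update pos g p') V u c' c p q Z' := by
  have e : ∀ w ∈ V, Function.update pos g p' w = pos w := fun w hw =>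
    Function.update_of_ne (fun hwg : w = g => hg (hwg ▸ hw)) _ _
  constructor
  · exact h.mem
  · unfold EndsOf
    rw [e u h.mem]
    exact h.ends
  · exact h.lt
  · exact h.lt'
  · exact h.away
  · intro w hw hwu
    rw [e w hw]
    exact h.other w hw hwu
  · intro z hz
    exact h.out z (hZ hz)
  · constructor
    · intro w hw
      rw [e w hw]
      exact h.gen.ne w hw
    · intro w hw w' hw' hne
      rw [e w hw, e w' hw']
      exact h.gen.dis w hw w' hw' hne
    · intro w hw
      rw [e w hw]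
      exact ⟨fun h' => (h.gen.out w hw).1 (hZ h'), fun h' => (h.gen.out w hw).2 (hZ h')⟩

end T2c

open T2c in
theorem I_T2c (h : StSlP) : StT2c := by
  intro ι _ _ pos V g u c' c p q H₁ H₂ H₃ A B C hg _ _ hM₃ hSl
  unfold SlEq T2
  simp only [← Finset.sum_add_distrib]
  apply Finset.sum_congr rfl
  intro P hP
  apply Finset.sum_congr rfl
  intro P' hP'
  have hPA : P.1 ∈ A ∧ P.2 ∈ A := by
    have := (Finset.mem_filter.1 hP).1
    exact Finset.mem_product.1 this
  have hPB : P'.1 ∈ B ∧ P'.2 ∈ B := by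
    have := (Finset.mem_filter.1 hP').1
    exact Finset.mem_product.1 this
  have hA : ∀ a ∈ A, Away c' c a := fun a ha =>
    hSl.out a (Finset.mem_union_left _ (Finset.mem_union_left _ ha))
  have hB : ∀ a ∈ B, Away c' c a := fun a ha =>
    hSl.out a (Finset.mem_union_left _ (Finset.mem_union_right _ ha))
  have key := h (pt P) (Function.update pos g P') V {g} u c' c p q C H₃
    (fun κ => H₁ (rest A P) κ * H₂ (rest B P') κ) hM₃
    (Finset.disjoint_singleton_right.2 hg)
    (sl_update hg hSl Finset.subset_union_right P')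
    (fun z h1 h2 => pt_const (hA _ hPA.1) (hA _ hPA.2) h1 h2)
    (by
      intro w hw
      rw [Finset.mem_singleton.1 hw, Function.update_self]
      exact ⟨hB _ hPB.1, hB _ hPB.2⟩)
  simp only [mul_comm (H₃ _ _)] at key
  exact key

end Pool.Agent.Work.MP_7794fd_co.T
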