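import Pool.Agent.Work.MP_7794fd_co.T.Stmts
import Pool.Agent.Work.MP_7794fd_co.T.T2a
import Pool.Agent.Work.MP_7794fd_co.T.T2c

/-! Project MP_7794fd_co, module T, item T2b: a point of the second set of `T2` moves. -/

set_option autoImplicit false

namespace Pool.Agent.Work.MP_7794fd_co.T

open Finset Matrix
open Pool.Agent.Work.MP_7794fd_co.R

namespace T2b

/-- the direction of the forced chord does not matter -/
theorem SB_swap {ι : Type} [Fintype ι] [DecidableEq ι] (h3 : StBSwap) (b : ℚ → ZMod 2)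
    (pos : ι → ℚ × ℚ) (V W : Finset ι) (g : ι) (h : (ℚ → ZMod 2) → ZMod 2) (a x : ℚ) :
    SB b (Function.update pos g (x, a)) V W h = SB b (Function.update pos g (a, x)) V W h := by
  refine h3 b _ _ V W h ?_
  intro w _
  by_cases hwg : w = g
  · right
    rw [hwg, Function.update_self, Function.update_self]
    rfl
  · left
    rw [Function.update_of_ne hwg, Function.update_of_ne hwg]

/-- `T2` for `insert x B` -/
theorem T2_insert {ι : Type} [Fintype ι] [DecidableEq ι] (h3 : StBSwap) (pos : ι → ℚ × ℚ)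
    (V : Finset ι) (g : ι) (H₁ H₂ H₃ : Finset ℚ → (ℚ → ZMod 2) → ZMod 2) (A B C : Finset ℚ)
    {x : ℚ} (hx : x ∉ B) :
    T2 pos V g H₁ H₂ H₃ A (insert x B) C =
      ∑ p ∈ pairs A, ∑ p' ∈ pairs B, SB (pt p) (Function.update pos g p') V {g}
        (fun κ => H₂ (insert x (rest B p')) κ * (H₁ (rest A p) κ * H₃ C κ)) +
      ∑ p ∈ pairs A, ∑ a ∈ B, SB (pt p) (Function.update pos g (a, x)) V {g}
        (fun κ => H₁ (rest A p) κ * H₂ (B.erase a) κ * H₃ C κ) := by
  unfold T2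
  rw [← Finset.sum_add_distrib]
  refine Finset.sum_congr rfl fun p _ => ?_
  rw [T2a.sum_pairs_insert hx]
  · congr 1
    · refine Finset.sum_congr rfl fun p' hp' => ?_
      rw [T2a.rest_old hx hp']
      congr 1
      funext κ
      ring
    · refine Finset.sum_congr rfl fun a ha => ?_
      rw [(T2a.rest_new hx ha).1]
  · intro a ha
    rw [(T2a.rest_new hx ha).1, (T2a.rest_new hx ha).2, SB_swap h3]

end T2b

/-- 12: a point of the second set of `T2` moves. -/
theorem I_T2b (h1 : StBChord) (h2 : StSlP) (h3 : StBSwap) : StT2b := by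
  intro ι _ _ pos V g u c' c p q H₁ H₂ H₃ A B C hg hH₁ hH₂ hH₃ hS
  have hcc : c' < c := hS.lt.trans hS.lt'
  have hcA : ∀ z ∈ A ∪ B ∪ C, Away c' c z := hS.out
  have naw : ∀ z, c' ≤ z → z ≤ c → ¬ Away c' c z := by
    intro z hz1 hz2 h
    rcases h with h | h
    · exact absurd h (not_lt.2 hz1)
    · exact absurd h (not_lt.2 hz2)
  have hA : ∀ a ∈ A, a ∈ A ∪ B ∪ C := fun a ha =>
    Finset.mem_union_left _ (Finset.mem_union_left _ ha)
  have hBm : ∀ a ∈ B, a ∈ A ∪ B ∪ C := fun a ha =>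
    Finset.mem_union_left _ (Finset.mem_union_right _ ha)
  have hCm : ∀ a ∈ C, a ∈ A ∪ B ∪ C := fun a ha => Finset.mem_union_right _ ha
  have hc : c ∉ B := fun h => naw c hcc.le le_rfl (hcA c (hBm c h))
  have hc' : c' ∉ B := fun h => naw c' le_rfl hcc.le (hcA c' (hBm c' h))
  have hqZ : q ∉ A ∪ B ∪ C := by
    obtain ⟨o1, o2⟩ := hS.gen.out u hS.mem
    rcases hS.ends with he | he
    · rw [he] at o2
      exact o2
    · rw [he] at o1
      exact o1
  have hq : q ∉ B := fun h => hqZ (hBm q h)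
  have hdis : Disjoint V {g} := Finset.disjoint_singleton_right.2 hg
  unfold SlEq
  simp only
  rw [T2b.T2_insert h3 pos V g H₁ H₂ H₃ A B C hc, T2b.T2_insert h3 pos V g H₁ H₂ H₃ A B C hc',
    T2b.T2_insert h3 pos (V.erase u) g H₁ H₂ H₃ A B C hc,
    T2b.T2_insert h3 pos (V.erase u) g H₁ H₂ H₃ A B C hq]
  have hfirst : ∑ e ∈ pairs A, ∑ p' ∈ pairs B, SB (pt e) (Function.update pos g p') V {g}
        (fun κ => H₂ (insert c (rest B p')) κ * (H₁ (rest A e) κ * H₃ C κ)) +
      ∑ e ∈ pairs A, ∑ p' ∈ pairs B, SB (pt e) (Function.update pos g p') V {g}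
        (fun κ => H₂ (insert c' (rest B p')) κ * (H₁ (rest A e) κ * H₃ C κ)) =
      ∑ e ∈ pairs A, ∑ p' ∈ pairs B, SB (pt e) (Function.update pos g p') (V.erase u) {g}
        (fun κ => H₂ (insert c (rest B p')) κ * (H₁ (rest A e) κ * H₃ C κ)) +
      ∑ e ∈ pairs A, ∑ p' ∈ pairs B, SB (pt e) (Function.update pos g p') (V.erase u) {g}
        (fun κ => H₂ (insert q (rest B p')) κ * (H₁ (rest A e) κ * H₃ C κ)) +
      T2 pos V g H₁ H₂ H₃ A B C + T2 pos (V.erase u) g H₁ H₂ H₃ A B C := by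
    have hT : ∀ V' : Finset ι, T2 pos V' g H₁ H₂ H₃ A B C =
        ∑ e ∈ pairs A, ∑ p' ∈ pairs B, SB (pt e) (Function.update pos g p') V' {g}
          (fun κ => H₂ (rest B p') κ * (H₁ (rest A e) κ * H₃ C κ)) := by
      intro V'
      unfold T2
      refine Finset.sum_congr rfl fun e _ => Finset.sum_congr rfl fun p' _ => ?_
      congr 1
      funext κ
      ring
    rw [hT V, hT (V.erase u)]
    simp only [← Finset.sum_add_distrib]
    refine Finset.sum_congr rfl fun e he => Finset.sum_congr rfl fun p' hp' => ?_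
    obtain ⟨e1, e2, -⟩ := T2a.mem_pairs.1 he
    obtain ⟨f1, f2, -⟩ := T2a.mem_pairs.1 hp'
    exact h2 (pt e) (Function.update pos g p') V {g} u c' c p q (rest B p') H₂
      (fun κ => H₁ (rest A e) κ * H₃ C κ) hH₂ hdis
      (T2c.sl_update hg hS (fun z hz => hBm z (T2a.rest_subset B p' hz)) p')
      (fun z z1 z2 => T2c.pt_const (hcA _ (hA _ e1)) (hcA _ (hA _ e2)) z1 z2)
      (by
        intro w hw
        rw [Finset.mem_singleton.1 hw, Function.update_self]
        exact ⟨hcA _ (hBm _ f1), hcA _ (hBm _ f2)⟩)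
  have hsecond : ∑ e ∈ pairs A, ∑ a ∈ B, SB (pt e) (Function.update pos g (a, c)) V {g}
        (fun κ => H₁ (rest A e) κ * H₂ (B.erase a) κ * H₃ C κ) +
      ∑ e ∈ pairs A, ∑ a ∈ B, SB (pt e) (Function.update pos g (a, c')) V {g}
        (fun κ => H₁ (rest A e) κ * H₂ (B.erase a) κ * H₃ C κ) =
      ∑ e ∈ pairs A, ∑ a ∈ B, SB (pt e) (Function.update pos g (a, c)) (V.erase u) {g}
        (fun κ => H₁ (rest A e) κ * H₂ (B.erase a) κ * H₃ C κ) +
      ∑ e ∈ pairs A, ∑ a ∈ B, SB (pt e) (Function.update pos g (a, q)) (V.erase u) {g}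
        (fun κ => H₁ (rest A e) κ * H₂ (B.erase a) κ * H₃ C κ) := by
    simp only [← Finset.sum_add_distrib]
    refine Finset.sum_congr rfl fun e he => Finset.sum_congr rfl fun a ha => ?_
    obtain ⟨e1, e2, -⟩ := T2a.mem_pairs.1 he
    refine h1 (pt e) pos V g u a c' c p q _ hg hS.mem hS.ends hS.lt hS.lt' hS.away
      (fun z z1 z2 => T2c.pt_const (hcA _ (hA _ e1)) (hcA _ (hA _ e2)) z1 z2)
      (hcA _ (hBm _ ha)) (fun h => hq (h ▸ ha)) hS.other ?_
    intro κ₁ κ₂ hκ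
    have g1 : H₁ (rest A e) κ₁ = H₁ (rest A e) κ₂ :=
      hH₁.loc _ _ _ fun z hz => hκ z (hcA z (hA z (T2a.rest_subset A e hz)))
    have g2 : H₂ (B.erase a) κ₁ = H₂ (B.erase a) κ₂ :=
      hH₂.loc _ _ _ fun z hz => hκ z (hcA z (hBm z (Finset.mem_of_mem_erase hz)))
    have g3 : H₃ C κ₁ = H₃ C κ₂ :=
      hH₃.loc _ _ _ fun z hz => hκ z (hcA z (hCm z hz))
    simp only
    rw [g1, g2, g3]
  linear_combination hfirst + hsecond

end Pool.Agent.Work.MP_7794fd_co.T
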