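import Pool.Agent.Work.MP_7794fd_co.T.Stmts

/-! Project MP_7794fd_co, module T, item 16: words without free chords, reduction to natural
positions. -/

set_option autoImplicit false

namespace Pool.Agent.Work.MP_7794fd_co.T

open Finset
open Pool.Agent.Work.MP_7794fd_co.R

namespace WordAux

/-- the map on pairs -/
def mp (f : ℚ → ℚ) (p : ℚ × ℚ) : ℚ × ℚ := (f p.1, f p.2)

section

variable {Z : Finset ℚ} {f : ℚ → ℚ} (hf : StrictMonoOn f (Z : Set ℚ))

include hf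

theorem lt2_map {p z : ℚ} (hp : p ∈ Z) (hz : z ∈ Z) : lt2 (f p) (f z) = lt2 p z := by
  unfold lt2
  have h : f p < f z ↔ p < z := hf.lt_iff_lt hp hz
  simp only [h]

theorem pt_map {p : ℚ × ℚ} {z : ℚ} (h1 : p.1 ∈ Z) (h2 : p.2 ∈ Z) (hz : z ∈ Z) :
    pt (mp f p) (f z) = pt p z := by
  unfold pt mp
  rw [lt2_map hf h1 hz, lt2_map hf h2 hz]

theorem cr_map {p q : ℚ × ℚ} (h1 : p.1 ∈ Z) (h2 : p.2 ∈ Z) (h3 : q.1 ∈ Z) (h4 : q.2 ∈ Z) :
    cr (mp f p) (mp f q) = cr p q := by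
  unfold cr
  have e1 : (mp f p).1 = f p.1 := rfl
  have e2 : (mp f p).2 = f p.2 := rfl
  rw [e1, e2, pt_map hf h3 h4 h1, pt_map hf h3 h4 h2]

theorem erase_map {A : Finset ℚ} {a : ℚ} (hA : A ⊆ Z) (ha : a ∈ Z) :
    (A.image f).erase (f a) = (A.erase a).image f := by
  ext x
  simp only [mem_erase, mem_image]
  constructor
  · rintro ⟨h1, b, hb, rfl⟩
    exact ⟨b, ⟨fun h => h1 (by rw [h]), hb⟩, rfl⟩
  · rintro ⟨b, ⟨h1, hb⟩, rfl⟩
    exact ⟨fun h => h1 (hf.injOn (hA hb) ha h), b, hb, rfl⟩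

theorem rest_map {A : Finset ℚ} {p : ℚ × ℚ} (hA : A ⊆ Z) (h1 : p.1 ∈ Z) (h2 : p.2 ∈ Z) :
    rest (A.image f) (mp f p) = (rest A p).image f := by
  unfold rest
  have e1 : (mp f p).1 = f p.1 := rfl
  have e2 : (mp f p).2 = f p.2 := rfl
  rw [e1, e2, erase_map hf hA h1, erase_map hf ((erase_subset _ _).trans hA) h2]

theorem pairs_map {A : Finset ℚ} (hA : A ⊆ Z) : pairs (A.image f) = (pairs A).image (mp f) := by
  ext ⟨x, y⟩
  simp only [pairs, mem_filter, mem_product, mem_image, mp, Prod.mk.injEq]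
  constructor
  · rintro ⟨⟨⟨a, ha, rfl⟩, b, hb, rfl⟩, h⟩
    exact ⟨(a, b), ⟨⟨ha, hb⟩, (hf.lt_iff_lt (hA ha) (hA hb)).mp h⟩, rfl, rfl⟩
  · rintro ⟨⟨a, b⟩, ⟨⟨ha, hb⟩, h⟩, rfl, rfl⟩
    exact ⟨⟨⟨a, ha, rfl⟩, b, hb, rfl⟩, (hf.lt_iff_lt (hA ha) (hA hb)).mpr h⟩

theorem mp_injOn {A : Finset ℚ} (hA : A ⊆ Z) : Set.InjOn (mp f) (pairs A : Set (ℚ × ℚ)) := by
  rintro ⟨a, b⟩ h ⟨c, d⟩ h' e
  simp only [pairs, coe_filter, mem_product, Set.mem_ofPred_eq] at h h'
  simp only [mp, Prod.mk.injEq] at e ⊢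
  exact ⟨hf.injOn (hA h.1.1) (hA h'.1.1) e.1, hf.injOn (hA h.1.2) (hA h'.1.2) e.2⟩

end

/-- a functional which is compatible with maps -/
def Nt (H : Finset ℚ → (ℚ → ZMod 2) → ZMod 2) : Prop :=
  ∀ (A : Finset ℚ) (f : ℚ → ℚ) (κ κ' : ℚ → ZMod 2), Set.InjOn f (A : Set ℚ) →
    (∀ a ∈ A, κ' (f a) = κ a) → H (A.image f) κ' = H A κ

theorem nallc : Nt allc := by
  intro A f κ κ' hf h
  unfold allc
  rw [prod_image hf]
  exact prod_congr rfl h

theorem nnoc : Nt noc := by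
  intro A f κ κ' hf h
  unfold noc
  rw [prod_image hf]
  exact prod_congr rfl fun a ha => by rw [h a ha]

theorem nmono : Nt mono := by
  intro A f κ κ' hf h
  have e : ∀ (A : Finset ℚ) (κ : ℚ → ZMod 2), mono A κ = allc A κ + noc A κ := fun _ _ => rfl
  rw [e, e, nallc A f κ κ' hf h, nnoc A f κ κ' hf h]

section

variable {Z : Finset ℚ} {f : ℚ → ℚ} (hf : StrictMonoOn f (Z : Set ℚ))
  {H₁ H₂ H₃ : Finset ℚ → (ℚ → ZMod 2) → ZMod 2} (n₁ : Nt H₁) (n₂ : Nt H₂) (n₃ : Nt H₃)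
  {A B C : Finset ℚ} (hA : A ⊆ Z) (hB : B ⊆ Z) (hC : C ⊆ Z)

include hf n₁ n₂ n₃ hA hB hC

theorem E1_map : E1 H₁ H₂ H₃ (A.image f) (B.image f) (C.image f) = E1 H₁ H₂ H₃ A B C := by
  unfold E1
  rw [pairs_map hf hA, sum_image (mp_injOn hf hA)]
  refine sum_congr rfl fun p hp => ?_
  simp only [pairs, mem_filter, mem_product] at hp
  obtain ⟨⟨h1, h2⟩, -⟩ := hp
  have hR : rest A p ⊆ Z := (erase_subset _ _).trans ((erase_subset _ _).trans hA)
  have hpt : ∀ z ∈ Z, pt (mp f p) (f z) = pt p z := fun z hz => pt_map hf (hA h1) (hA h2) hz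
  rw [rest_map hf hA (hA h1) (hA h2),
    n₁ _ f (pt p) _ (hf.injOn.mono (by exact_mod_cast hR)) fun a ha => hpt a (hR ha),
    n₂ _ f (pt p) _ (hf.injOn.mono (by exact_mod_cast hB)) fun a ha => hpt a (hB ha),
    n₃ _ f (pt p) _ (hf.injOn.mono (by exact_mod_cast hC)) fun a ha => hpt a (hC ha)]

theorem E2_map : E2 H₁ H₂ H₃ (A.image f) (B.image f) (C.image f) = E2 H₁ H₂ H₃ A B C := by
  unfold E2
  rw [pairs_map hf hA, sum_image (mp_injOn hf hA)]
  refine sum_congr rfl fun p hp => ?_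
  rw [pairs_map hf hB, sum_image (mp_injOn hf hB)]
  refine sum_congr rfl fun p' hp' => ?_
  simp only [pairs, mem_filter, mem_product] at hp hp'
  obtain ⟨⟨h1, h2⟩, -⟩ := hp
  obtain ⟨⟨h3, h4⟩, -⟩ := hp'
  have hR : rest A p ⊆ Z := (erase_subset _ _).trans ((erase_subset _ _).trans hA)
  have hR' : rest B p' ⊆ Z := (erase_subset _ _).trans ((erase_subset _ _).trans hB)
  have hpt : ∀ z ∈ Z, (fun z => pt (mp f p) z + pt (mp f p') z) (f z) =
      (fun z => pt p z + pt p' z) z := fun z hz => by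
    change pt (mp f p) (f z) + pt (mp f p') (f z) = pt p z + pt p' z
    rw [pt_map hf (hA h1) (hA h2) hz, pt_map hf (hB h3) (hB h4) hz]
  rw [rest_map hf hA (hA h1) (hA h2), rest_map hf hB (hB h3) (hB h4),
    cr_map hf (hA h1) (hA h2) (hB h3) (hB h4),
    n₁ _ f (fun z => pt p z + pt p' z) _ (hf.injOn.mono (by exact_mod_cast hR))
      fun a ha => hpt a (hR ha),
    n₂ _ f (fun z => pt p z + pt p' z) _ (hf.injOn.mono (by exact_mod_cast hR'))
      fun a ha => hpt a (hR' ha),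
    n₃ _ f (fun z => pt p z + pt p' z) _ (hf.injOn.mono (by exact_mod_cast hC))
      fun a ha => hpt a (hC ha)]

end

theorem E0_map {Z : Finset ℚ} {f : ℚ → ℚ} (hf : StrictMonoOn f (Z : Set ℚ))
    {A B C : Finset ℚ} (hA : A ⊆ Z) (hB : B ⊆ Z) (hC : C ⊆ Z) :
    E0 (A.image f) (B.image f) (C.image f) = E0 A B C := by
  unfold E0
  rw [E1_map hf nmono nmono nmono hA hB hC, E1_map hf nmono nmono nmono hB hA hC,
    E1_map hf nmono nmono nmono hC hA hB, E2_map hf nallc nmono nmono hA hB hC,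
    E2_map hf nmono nallc nmono hA hB hC, E2_map hf nmono nmono nnoc hB hC hA,
    E2_map hf nallc nmono nmono hB hC hA]

/-- the rank of a point -/
def rk (Z : Finset ℚ) (z : ℚ) : ℕ := (Z.filter (· < z)).card

theorem rk_lt {Z : Finset ℚ} {x y : ℚ} (hx : x ∈ Z) (h : x < y) : rk Z x < rk Z y := by
  refine card_lt_card ?_
  rw [ssubset_iff_of_subset]
  · exact ⟨x, mem_filter.mpr ⟨hx, h⟩, fun h' => lt_irrefl _ (mem_filter.mp h').2⟩
  · intro z hz
    rw [mem_filter] at hz ⊢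
    exact ⟨hz.1, hz.2.trans h⟩

theorem rk_lt_card {Z : Finset ℚ} {x : ℚ} (hx : x ∈ Z) : rk Z x < Z.card := by
  refine card_lt_card ?_
  rw [ssubset_iff_of_subset (filter_subset _ _)]
  exact ⟨x, hx, fun h' => lt_irrefl _ (mem_filter.mp h').2⟩

theorem rk_injOn (Z : Finset ℚ) : Set.InjOn (rk Z) (Z : Set ℚ) := by
  intro x hx y hy h
  rcases lt_trichotomy x y with h1 | h1 | h1
  · exact absurd h (rk_lt hx h1).ne
  · exact h1
  · exact absurd h (rk_lt hy h1).ne'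

theorem rk_image (Z : Finset ℚ) : Z.image (rk Z) = range Z.card := by
  refine eq_of_subset_of_card_le ?_ ?_
  · intro i hi
    obtain ⟨z, hz, rfl⟩ := mem_image.mp hi
    exact mem_range.mpr (rk_lt_card hz)
  · rw [card_range, card_image_of_injOn (rk_injOn Z)]

end WordAux

open WordAux in
theorem I_Word (h : StWordN) : StWord := by
  intro A B C cA cB cC hAB hAC hBC
  set Z := A ∪ B ∪ C with hZ
  have hA : A ⊆ Z := subset_union_left.trans subset_union_left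
  have hB : B ⊆ Z := subset_union_right.trans subset_union_left
  have hC : C ⊆ Z := subset_union_right
  have hinj := rk_injOn Z
  have hdis : ∀ {P Q : Finset ℚ}, P ⊆ Z → Q ⊆ Z → Disjoint P Q →
      Disjoint (P.image (rk Z)) (Q.image (rk Z)) := by
    intro P Q hP hQ hd
    rw [disjoint_left] at hd ⊢
    intro i hi hi'
    obtain ⟨x, hx, rfl⟩ := mem_image.mp hi
    obtain ⟨y, hy, e⟩ := mem_image.mp hi'
    have := hinj (hQ hy) (hP hx) e
    exact hd hx (this ▸ hy)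
  have hcard : ∀ {P : Finset ℚ}, P ⊆ Z → (P.image (rk Z)).card = P.card := by
    intro P hP
    exact card_image_of_injOn (hinj.mono (by exact_mod_cast hP))
  have key := h Z.card (A.image (rk Z)) (B.image (rk Z)) (C.image (rk Z))
    ((hcard hA).trans_le cA) ((hcard hB).trans_le cB) ((hcard hC).trans_le cC)
    (hdis hA hB hAB) (hdis hA hC hAC) (hdis hB hC hBC)
    (by rw [← image_union, ← image_union, ← hZ, rk_image])
  rw [hcard hA, hcard hB, hcard hC, image_image, image_image, image_image] at key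
  rw [← key]
  have hf : StrictMonoOn ((fun i : ℕ => (i : ℚ)) ∘ rk Z) (Z : Set ℚ) := by
    intro x hx y _ hxy
    have : rk Z x < rk Z y := rk_lt hx hxy
    change ((rk Z x : ℕ) : ℚ) < ((rk Z y : ℕ) : ℚ)
    exact_mod_cast this
  exact (E0_map hf hA hB hC).symm

end Pool.Agent.Work.MP_7794fd_co.T
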