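import Pool.Agent.Work.MP_7794fd_co.T.Stmts

/-! Project MP_7794fd_co, module T: item 16b, the finite computation for words without free
chords. -/

set_option autoImplicit false

namespace Pool.Agent.Work.MP_7794fd_co.T

open Finset Matrix
open Pool.Agent.Work.MP_7794fd_co.R

namespace WordN

/-! ### The program -/

/-- the colour of `z` with respect to the chord `p` -/
def ptB (p : ℕ × ℕ) (z : ℕ) : Bool := Bool.xor (Nat.blt p.1 z) (Nat.blt p.2 z)

/-- all points have colour one -/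
def allB (κ : ℕ → Bool) (l : List ℕ) : Bool :=
  List.rec true (fun a _ r => Bool.rec false r (κ a)) l

/-- all points have colour zero -/
def nocB (κ : ℕ → Bool) (l : List ℕ) : Bool :=
  List.rec true (fun a _ r => Bool.rec r false (κ a)) l

/-- all points have the same colour -/
def monoB (κ : ℕ → Bool) (l : List ℕ) : Bool := Bool.xor (allB κ l) (nocB κ l)

/-- the sum over the pairs of a strictly decreasing list with at most three entries -/
def sumP (l : List ℕ) (f : (ℕ × ℕ) → List ℕ → Bool) : Bool :=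
  match l with
  | [] => false
  | [_] => false
  | [x, y] => f (y, x) []
  | x :: y :: z :: _ => Bool.xor (f (y, x) [z]) (Bool.xor (f (z, x) [y]) (f (z, y) [x]))

/-- `E1` -/
def E1B (H₁ H₂ H₃ : (ℕ → Bool) → List ℕ → Bool) (A B C : List ℕ) : Bool :=
  sumP A fun p r => H₁ (ptB p) r && (H₂ (ptB p) B && H₃ (ptB p) C)

/-- the sum of two colourings -/
def xo (p p' : ℕ × ℕ) (z : ℕ) : Bool := Bool.xor (ptB p z) (ptB p' z)

/-- `E2` -/
def E2B (H₁ H₂ H₃ : (ℕ → Bool) → List ℕ → Bool) (A B C : List ℕ) : Bool :=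
  sumP A fun p r => sumP B fun p' r' => Bool.xor (ptB p' p.1) (ptB p' p.2) &&
    (H₁ (xo p p') r && (H₂ (xo p p') r' && H₃ (xo p p') C))

/-- `E0` -/
def E0B (A B C : List ℕ) : Bool :=
  Bool.xor (E1B monoB monoB monoB A B C) (Bool.xor (E1B monoB monoB monoB B A C)
    (Bool.xor (E1B monoB monoB monoB C A B) (Bool.xor (E2B allB monoB monoB A B C)
      (Bool.xor (E2B monoB allB monoB A B C) (Bool.xor (E2B monoB monoB nocB B C A)
        (E2B allB monoB monoB B C A))))))

/-- `gam` -/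
def gamB (i j k : ℕ) : Bool :=
  (i == 3 && j == 3 && k == 3) || (i == 3 && (j == 1 || j == 2) && (k == 1 || k == 2)) ||
  (j == 3 && (i == 1 || i == 2) && (k == 1 || k == 2)) ||
  (k == 3 && (i == 1 || i == 2) && (j == 1 || j == 2))

/-- the check of all words which begin with a given word -/
def go : ℕ → ℕ → List ℕ → List ℕ → List ℕ → Bool
  | 0, _, _, _, _ => true
  | k + 1, i, A, B, C =>
    (E0B A B C == gamB A.length B.length C.length) &&
    ((if A.length < 3 then go k (i + 1) (i :: A) B C else true) &&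
    ((if B.length < 3 then go k (i + 1) A (i :: B) C else true) &&
    (if C.length < 3 then go k (i + 1) A B (i :: C) else true)))

set_option maxRecDepth 100000 in
theorem c0 : go 10 0 [] [] [] = true := by decide +kernel

/-! ### The program computes the functional -/

/-- Booleans as elements of `ZMod 2` -/
def bt (b : Bool) : ZMod 2 := if b then 1 else 0

theorem bt_xor (a b : Bool) : bt (Bool.xor a b) = bt a + bt b := by
  cases a <;> cases b <;> decide

theorem bt_and (a b : Bool) : bt (a && b) = bt a * bt b := by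
  cases a <;> cases b <;> decide

/-- the rational points -/
def QQ (l : List ℕ) : Finset ℚ := l.toFinset.image fun i : ℕ => (i : ℚ)

/-- compatible functionals -/
def Cmp (H : Finset ℚ → (ℚ → ZMod 2) → ZMod 2) (HB : (ℕ → Bool) → List ℕ → Bool) : Prop :=
  ∀ (κ : ℚ → ZMod 2) (κB : ℕ → Bool) (l : List ℕ), l.Nodup → (∀ z : ℕ, κ z = bt (κB z)) →
    H (QQ l) κ = bt (HB κB l)

theorem prod_QQ (l : List ℕ) (hl : l.Nodup) (κ : ℚ → ZMod 2) :
    ∏ a ∈ QQ l, κ a = (l.map fun i : ℕ => κ i).prod := by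
  unfold QQ
  rw [Finset.prod_image (fun x _ y _ h => Nat.cast_injective h), List.prod_toFinset _ hl]

theorem cmp_all : Cmp allc allB := by
  intro κ κB l hl h
  unfold allc
  rw [prod_QQ l hl]
  clear hl
  induction l with
  | nil => rfl
  | cons a l ih =>
    rw [List.map_cons, List.prod_cons, ih, h a]
    show _ = bt (Bool.rec false (allB κB l) (κB a))
    cases κB a <;> cases allB κB l <;> decide

theorem cmp_noc : Cmp noc nocB := by
  intro κ κB l hl h
  unfold noc
  rw [prod_QQ l hl (fun a => 1 + κ a)]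
  clear hl
  induction l with
  | nil => rfl
  | cons a l ih =>
    rw [List.map_cons, List.prod_cons, ih, h a]
    show _ = bt (Bool.rec (nocB κB l) false (κB a))
    cases κB a <;> cases nocB κB l <;> decide

theorem cmp_mono : Cmp mono monoB := by
  intro κ κB l hl h
  have h1 := cmp_all κ κB l hl h
  have h2 := cmp_noc κ κB l hl h
  unfold mono monoB
  rw [bt_xor, ← h1, ← h2]
  rfl

theorem pt_bt (p : ℕ × ℕ) (z : ℕ) : pt ((p.1 : ℚ), (p.2 : ℚ)) (z : ℚ) = bt (ptB p z) := by
  have h : ∀ i : ℕ, lt2 (i : ℚ) (z : ℚ) = bt (Nat.blt i z) := by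
    intro i
    unfold lt2 bt
    by_cases h : i < z
    · rw [if_pos (by exact_mod_cast h), if_pos ((Nat.blt_eq (x := i) (y := z)) ▸ h)]
    · rw [if_neg (by exact_mod_cast h), if_neg (fun h' => h (Nat.blt_eq ▸ h'))]
  unfold pt ptB
  rw [bt_xor, ← h, ← h]

theorem pairs2 {x y : ℚ} (h : y < x) : pairs {x, y} = {(y, x)} := by
  ext ⟨a, b⟩
  unfold pairs
  rw [Finset.mem_filter, Finset.mem_product]
  simp only [Finset.mem_insert, Finset.mem_singleton, Prod.mk.injEq]
  constructor
  · rintro ⟨⟨rfl | rfl, rfl | rfl⟩, h1⟩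
    · exact absurd h1 (lt_irrefl _)
    · exact absurd h1 (not_lt.2 h.le)
    · exact ⟨rfl, rfl⟩
    · exact absurd h1 (lt_irrefl _)
  · rintro ⟨rfl, rfl⟩
    exact ⟨⟨Or.inr rfl, Or.inl rfl⟩, h⟩

theorem pairs3 {x y z : ℚ} (h : y < x) (h' : z < y) :
    pairs {x, y, z} = {(y, x), (z, x), (z, y)} := by
  have h2 : z < x := h'.trans h
  ext ⟨a, b⟩
  unfold pairs
  rw [Finset.mem_filter, Finset.mem_product]
  simp only [Finset.mem_insert, Finset.mem_singleton, Prod.mk.injEq]
  constructor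
  · rintro ⟨⟨rfl | rfl | rfl, rfl | rfl | rfl⟩, h1⟩
    · exact absurd h1 (lt_irrefl _)
    · exact absurd h1 (not_lt.2 h.le)
    · exact absurd h1 (not_lt.2 h2.le)
    · exact Or.inl ⟨rfl, rfl⟩
    · exact absurd h1 (lt_irrefl _)
    · exact absurd h1 (not_lt.2 h'.le)
    · exact Or.inr (Or.inl ⟨rfl, rfl⟩)
    · exact Or.inr (Or.inr ⟨rfl, rfl⟩)
    · exact absurd h1 (lt_irrefl _)
  · rintro (⟨rfl, rfl⟩ | ⟨rfl, rfl⟩ | ⟨rfl, rfl⟩)
    · exact ⟨⟨Or.inr (Or.inl rfl), Or.inl rfl⟩, h⟩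
    · exact ⟨⟨Or.inr (Or.inr rfl), Or.inl rfl⟩, h2⟩
    · exact ⟨⟨Or.inr (Or.inr rfl), Or.inr (Or.inl rfl)⟩, h'⟩

theorem sumP_eq (l : List ℕ) (hl : l.Pairwise (· > ·)) (hlen : l.length ≤ 3)
    (F : ℚ × ℚ → ZMod 2) (f : ℕ × ℕ → List ℕ → Bool)
    (h : ∀ (p : ℕ × ℕ) (r : List ℕ), r.Nodup → rest (QQ l) ((p.1 : ℚ), (p.2 : ℚ)) = QQ r →
      F ((p.1 : ℚ), (p.2 : ℚ)) = bt (f p r)) :
    ∑ p ∈ pairs (QQ l), F p = bt (sumP l f) := by
  match l, hl, hlen, h with
  | [], _, _, _ =>
    have : pairs (QQ []) = ∅ := rfl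
    rw [this]
    rfl
  | [x], _, _, _ =>
    have : pairs (QQ [x]) = ∅ := by
      ext ⟨a, b⟩
      unfold pairs QQ
      rw [Finset.mem_filter, Finset.mem_product]
      simp
      rintro rfl rfl
      exact le_rfl
    rw [this]
    rfl
  | [x, y], hl, _, h =>
    have hyx : y < x := by
      have := List.pairwise_cons.1 hl
      exact this.1 y (by simp)
    have hq : (y : ℚ) < x := by exact_mod_cast hyx
    have e : QQ [x, y] = {(x : ℚ), (y : ℚ)} := by
      unfold QQ
      simp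
    have h1 := h (y, x) [] List.nodup_nil (by
      rw [e]
      unfold rest QQ
      ext a
      simp only [Finset.mem_erase, Finset.mem_insert, Finset.mem_singleton]
      simp
      tauto)
    rw [e, pairs2 hq, Finset.sum_singleton]
    exact h1
  | [x, y, z], hl, _, h =>
    have hl1 := List.pairwise_cons.1 hl
    have hl2 := List.pairwise_cons.1 hl1.2
    have hyx : y < x := hl1.1 y (by simp)
    have hzy : z < y := hl2.1 z (by simp)
    have hq : (y : ℚ) < x := by exact_mod_cast hyx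
    have hq' : (z : ℚ) < y := by exact_mod_cast hzy
    have hq2 : (z : ℚ) < x := hq'.trans hq
    have e : QQ [x, y, z] = {(x : ℚ), (y : ℚ), (z : ℚ)} := by
      unfold QQ
      simp
    have hrest : ∀ (p : ℕ × ℕ) (w : ℕ), (∀ a : ℚ, ((a ≠ p.2 ∧ a ≠ p.1) ∧
        (a = x ∨ a = y ∨ a = z)) ↔ a = w) →
        rest (QQ [x, y, z]) ((p.1 : ℚ), (p.2 : ℚ)) = QQ [w] := by
      intro p w hw
      rw [e]
      unfold rest QQ
      ext a
      have hs : a ∈ (([w] : List ℕ).toFinset.image fun i : ℕ => (i : ℚ)) ↔ a = w := by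
        simp
      rw [hs, ← hw a]
      simp only [Finset.mem_erase, Finset.mem_insert, Finset.mem_singleton]
      tauto
    have h1 := h (y, x) [z] (List.nodup_singleton z) (hrest (y, x) z (fun a => by
      constructor
      · rintro ⟨⟨h3, h4⟩, h5 | h5 | h5⟩
        · exact absurd h5 h3
        · exact absurd h5 h4
        · exact h5
      · rintro rfl
        exact ⟨⟨hq2.ne, hq'.ne⟩, Or.inr (Or.inr rfl)⟩))
    have h2 := h (z, x) [y] (List.nodup_singleton y) (hrest (z, x) y (fun a => by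
      constructor
      · rintro ⟨⟨h3, h4⟩, h5 | h5 | h5⟩
        · exact absurd h5 h3
        · exact h5
        · exact absurd h5 h4
      · rintro rfl
        exact ⟨⟨hq.ne, hq'.ne'⟩, Or.inr (Or.inl rfl)⟩))
    have h3 := h (z, y) [x] (List.nodup_singleton x) (hrest (z, y) x (fun a => by
      constructor
      · rintro ⟨⟨h3, h4⟩, h5 | h5 | h5⟩
        · exact h5
        · exact absurd h5 h3
        · exact absurd h5 h4
      · rintro rfl
        exact ⟨⟨hq.ne', hq2.ne'⟩, Or.inl rfl⟩))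
    have n1 : ((y : ℚ), (x : ℚ)) ∉ ({((z : ℚ), (x : ℚ)), ((z : ℚ), (y : ℚ))} : Finset (ℚ × ℚ)) := by
      simp only [Finset.mem_insert, Finset.mem_singleton, Prod.mk.injEq]
      rintro (h | h)
      · exact hq'.ne' h.1
      · exact hq.ne' h.2
    have n2 : ((z : ℚ), (x : ℚ)) ∉ ({((z : ℚ), (y : ℚ))} : Finset (ℚ × ℚ)) := by
      simp only [Finset.mem_singleton, Prod.mk.injEq]
      rintro h
      exact hq.ne' h.2
    rw [e, pairs3 hq hq', Finset.sum_insert n1, Finset.sum_insert n2, Finset.sum_singleton]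
    show _ = bt (Bool.xor (f (y, x) [z]) (Bool.xor (f (z, x) [y]) (f (z, y) [x])))
    rw [bt_xor, bt_xor, ← h1, ← h2, ← h3]
  | _ :: _ :: _ :: _ :: _, _, hlen, _ =>
    simp only [List.length_cons] at hlen
    omega

theorem nd {l : List ℕ} (hl : l.Pairwise (· > ·)) : l.Nodup :=
  hl.imp fun h => Nat.ne_of_gt h

theorem E1_eq {H₁ H₂ H₃ : Finset ℚ → (ℚ → ZMod 2) → ZMod 2}
    {K₁ K₂ K₃ : (ℕ → Bool) → List ℕ → Bool} (h₁ : Cmp H₁ K₁) (h₂ : Cmp H₂ K₂) (h₃ : Cmp H₃ K₃)
    {A B C : List ℕ} (hA : A.Pairwise (· > ·)) (hB : B.Pairwise (· > ·)) (hC : C.Pairwise (· > ·))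
    (lA : A.length ≤ 3) : E1 H₁ H₂ H₃ (QQ A) (QQ B) (QQ C) = bt (E1B K₁ K₂ K₃ A B C) := by
  unfold E1 E1B
  refine sumP_eq A hA lA _ _ fun p r hr hrest => ?_
  rw [hrest, h₁ _ (ptB p) r hr (pt_bt p), h₂ _ (ptB p) B (nd hB) (pt_bt p),
    h₃ _ (ptB p) C (nd hC) (pt_bt p), bt_and, bt_and, mul_assoc]

theorem E2_eq {H₁ H₂ H₃ : Finset ℚ → (ℚ → ZMod 2) → ZMod 2}
    {K₁ K₂ K₃ : (ℕ → Bool) → List ℕ → Bool} (h₁ : Cmp H₁ K₁) (h₂ : Cmp H₂ K₂) (h₃ : Cmp H₃ K₃)
    {A B C : List ℕ} (hA : A.Pairwise (· > ·)) (hB : B.Pairwise (· > ·)) (hC : C.Pairwise (· > ·))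
    (lA : A.length ≤ 3) (lB : B.length ≤ 3) :
    E2 H₁ H₂ H₃ (QQ A) (QQ B) (QQ C) = bt (E2B K₁ K₂ K₃ A B C) := by
  unfold E2 E2B
  refine sumP_eq A hA lA _ _ fun p r hr hrest => ?_
  refine sumP_eq B hB lB _ _ fun p' r' hr' hrest' => ?_
  have hx : ∀ z : ℕ, (fun z : ℚ => pt ((p.1 : ℚ), (p.2 : ℚ)) z + pt ((p'.1 : ℚ), (p'.2 : ℚ)) z)
      (z : ℚ) = bt (xo p p' z) := by
    intro z
    simp only
    unfold xo
    rw [bt_xor, pt_bt, pt_bt]
  rw [hrest, hrest', h₁ _ (xo p p') r hr hx, h₂ _ (xo p p') r' hr' hx,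
    h₃ _ (xo p p') C (nd hC) hx, bt_and, bt_and, bt_and, mul_assoc]
  unfold cr
  simp only
  rw [bt_xor, pt_bt, pt_bt]

theorem E0_eq {A B C : List ℕ} (hA : A.Pairwise (· > ·)) (hB : B.Pairwise (· > ·))
    (hC : C.Pairwise (· > ·)) (lA : A.length ≤ 3) (lB : B.length ≤ 3) (lC : C.length ≤ 3) :
    E0 (QQ A) (QQ B) (QQ C) = bt (E0B A B C) := by
  unfold E0 E0B
  rw [E1_eq cmp_mono cmp_mono cmp_mono hA hB hC lA, E1_eq cmp_mono cmp_mono cmp_mono hB hA hC lB,
    E1_eq cmp_mono cmp_mono cmp_mono hC hA hB lC, E2_eq cmp_all cmp_mono cmp_mono hA hB hC lA lB,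
    E2_eq cmp_mono cmp_all cmp_mono hA hB hC lA lB, E2_eq cmp_mono cmp_mono cmp_noc hB hC hA lB lC,
    E2_eq cmp_all cmp_mono cmp_mono hB hC hA lB lC]
  simp only [bt_xor]
  ring

theorem gam_eq (i j k : ℕ) : gam i j k = bt (gamB i j k) := by
  unfold gam gamB bt
  congr 1
  simp only [Bool.or_eq_true, Bool.and_eq_true, beq_iff_eq, and_assoc, or_assoc]

/-! ### All words -/

theorem step {A : List ℕ} {i : ℕ} {A' : Finset ℕ} (h : A'.filter (· < i) = A.toFinset)
    (hA : A.Pairwise (· > ·)) (hi : i ∈ A') (hc : A'.card ≤ 3) :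
    A.length < 3 ∧ A'.filter (· < i + 1) = (i :: A).toFinset ∧ (i :: A).Pairwise (· > ·) := by
  have e : A'.filter (· < i + 1) = insert i (A'.filter (· < i)) := by
    ext x
    simp only [Finset.mem_filter, Finset.mem_insert]
    constructor
    · rintro ⟨h1, h2⟩
      rcases Nat.lt_succ_iff_lt_or_eq.1 h2 with h3 | h3
      · exact Or.inr ⟨h1, h3⟩
      · exact Or.inl h3
    · rintro (h1 | ⟨h1, h2⟩)
      · subst h1
        exact ⟨hi, Nat.lt_succ_self _⟩
      · exact ⟨h1, Nat.lt_succ_of_lt h2⟩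
  have hn : i ∉ A'.filter (· < i) := by
    simp
  have hcard : (A'.filter (· < i)).card = A.length := by
    rw [h, List.toFinset_card_of_nodup (nd hA)]
  refine ⟨?_, ?_, ?_⟩
  · have h1 : (A'.filter (· < i + 1)).card ≤ 3 := (Finset.card_filter_le _ _).trans hc
    rw [e, Finset.card_insert_of_notMem hn, hcard] at h1
    omega
  · rw [e, h, List.toFinset_cons]
  · refine List.pairwise_cons.2 ⟨fun x hx => ?_, hA⟩
    have : x ∈ A'.filter (· < i) := by rw [h]; exact List.mem_toFinset.2 hx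
    exact (Finset.mem_filter.1 this).2

theorem stay {A : List ℕ} {i : ℕ} {A' : Finset ℕ} (h : A'.filter (· < i) = A.toFinset)
    (hi : i ∉ A') : A'.filter (· < i + 1) = A.toFinset := by
  rw [← h]
  ext x
  simp only [Finset.mem_filter]
  constructor
  · rintro ⟨h1, h2⟩
    rcases Nat.lt_succ_iff_lt_or_eq.1 h2 with h3 | h3
    · exact ⟨h1, h3⟩
    · subst h3
      exact absurd h1 hi
  · rintro ⟨h1, h2⟩
    exact ⟨h1, Nat.lt_succ_of_lt h2⟩

theorem go_sound (n : ℕ) (A' B' C' : Finset ℕ) (cA : A'.card ≤ 3) (cB : B'.card ≤ 3)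
    (cC : C'.card ≤ 3) (dAB : Disjoint A' B') (dAC : Disjoint A' C') (dBC : Disjoint B' C')
    (hU : A' ∪ B' ∪ C' = range n) : ∀ (k i : ℕ) (A B C : List ℕ), go k i A B C = true →
      A.Pairwise (· > ·) → B.Pairwise (· > ·) → C.Pairwise (· > ·) → i ≤ n → n < i + k →
      A'.filter (· < i) = A.toFinset → B'.filter (· < i) = B.toFinset →
      C'.filter (· < i) = C.toFinset →
      E0 (A'.image fun i : ℕ => (i : ℚ)) (B'.image fun i : ℕ => (i : ℚ))
        (C'.image fun i : ℕ => (i : ℚ)) = gam A'.card B'.card C'.card := by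
  intro k
  induction k with
  | zero => intro i A B C _ _ _ _ h1 h2; omega
  | succ k ih =>
    intro i A B C hgo hA hB hC hin hnk fA fB fC
    have hgo' : ((E0B A B C == gamB A.length B.length C.length) &&
        ((if A.length < 3 then go k (i + 1) (i :: A) B C else true) &&
        ((if B.length < 3 then go k (i + 1) A (i :: B) C else true) &&
        (if C.length < 3 then go k (i + 1) A B (i :: C) else true)))) = true := hgo
    rw [Bool.and_eq_true, Bool.and_eq_true, Bool.and_eq_true] at hgo'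
    obtain ⟨g0, g1, g2, g3⟩ := hgo'
    have hsub : A' ⊆ range n ∧ B' ⊆ range n ∧ C' ⊆ range n := by
      rw [← hU]
      exact ⟨fun x hx => by simp [hx], fun x hx => by simp [hx], fun x hx => by simp [hx]⟩
    rcases Nat.eq_or_lt_of_le hin with h | h
    · have full : ∀ (X' : Finset ℕ) (X : List ℕ), X' ⊆ range n → X'.filter (· < i) = X.toFinset →
          X' = X.toFinset := by
        intro X' X h1 h2
        rw [← h2, h]
        ext x
        simp only [Finset.mem_filter]
        exact ⟨fun hx => ⟨hx, Finset.mem_range.1 (h1 hx)⟩, fun hx => hx.1⟩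
      have eA := full A' A hsub.1 fA
      have eB := full B' B hsub.2.1 fB
      have eC := full C' C hsub.2.2 fC
      have kA : A'.card = A.length := by rw [eA, List.toFinset_card_of_nodup (nd hA)]
      have kB : B'.card = B.length := by rw [eB, List.toFinset_card_of_nodup (nd hB)]
      have kC : C'.card = C.length := by rw [eC, List.toFinset_card_of_nodup (nd hC)]
      rw [kA, kB, kC]
      have hE := E0_eq hA hB hC (kA ▸ cA) (kB ▸ cB) (kC ▸ cC)
      unfold QQ at hE
      rw [eA, eB, eC, hE, gam_eq, beq_iff_eq.1 g0]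
    · have hi : i ∈ A' ∪ B' ∪ C' := by rw [hU]; exact Finset.mem_range.2 h
      rw [Finset.mem_union, Finset.mem_union] at hi
      rcases hi with (hi | hi) | hi
      · obtain ⟨s1, s2, s3⟩ := step fA hA hi cA
        rw [if_pos s1] at g1
        exact ih (i + 1) (i :: A) B C g1 s3 hB hC h (by omega) s2
          (stay fB (Finset.disjoint_left.1 dAB hi)) (stay fC (Finset.disjoint_left.1 dAC hi))
      · obtain ⟨s1, s2, s3⟩ := step fB hB hi cB
        rw [if_pos s1] at g2
        exact ih (i + 1) A (i :: B) C g2 hA s3 hC h (by omega)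
          (stay fA (Finset.disjoint_right.1 dAB hi)) s2 (stay fC (Finset.disjoint_left.1 dBC hi))
      · obtain ⟨s1, s2, s3⟩ := step fC hC hi cC
        rw [if_pos s1] at g3
        exact ih (i + 1) A B (i :: C) g3 hA hB s3 h (by omega)
          (stay fA (Finset.disjoint_right.1 dAC hi)) (stay fB (Finset.disjoint_right.1 dBC hi)) s2

end WordN

theorem I_WordN : StWordN := by
  intro n A B C cA cB cC dAB dAC dBC hU
  have hn : n ≤ 9 := by
    have h1 : (A ∪ B ∪ C).card = n := by rw [hU, Finset.card_range]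
    have h2 := Finset.card_union_le (A ∪ B) C
    have h3 := Finset.card_union_le A B
    omega
  have e : ∀ X : Finset ℕ, X.filter (· < 0) = ([] : List ℕ).toFinset := by
    intro X
    rw [List.toFinset_nil, Finset.filter_eq_empty_iff]
    intro x _
    exact Nat.not_lt_zero x
  exact WordN.go_sound n A B C cA cB cC dAB dAC dBC hU 10 0 [] [] [] WordN.c0 List.Pairwise.nil
    List.Pairwise.nil List.Pairwise.nil (Nat.zero_le n) (by omega) (e A) (e B) (e C)

end Pool.Agent.Work.MP_7794fd_co.T
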