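import Pool.Agent.Work.MP_7794fd_co.T.Stmts
import Pool.Agent.Work.MP_7794fd_co.R.Point

/-! Project MP_7794fd_co, module T: item 2, the colour change of a point which moves over an end of
a free chord. -/

set_option autoImplicit false

namespace Pool.Agent.Work.MP_7794fd_co.T

open Finset Matrix
open Pool.Agent.Work.MP_7794fd_co.R

namespace BPoint

/-- the change of colour -/
theorem kb_add {ι : Type} [Fintype ι] [DecidableEq ι] (b : ℚ → ZMod 2) (pos : ι → ℚ × ℚ)
    (N : Finset ι) (u : ι) {c' c p q : ℚ} (he : EndsOf pos u p q) (h1 : c' < p) (h2 : p < c)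
    (hq : Away c' c q) (hb : b c = b c')
    (hN : ∀ w ∈ N, w ≠ u → Away c' c (pos w).1 ∧ Away c' c (pos w).2) :
    kb b pos N c + kb b pos N c' = if u ∈ N then 1 else 0 := by
  have hcc : c' < c := h1.trans h2
  have hs : (∑ m ∈ N, pt (pos m) c) + (∑ m ∈ N, pt (pos m) c') = if u ∈ N then 1 else 0 := by
    rw [← Finset.sum_add_distrib]
    have : ∀ m ∈ N, pt (pos m) c + pt (pos m) c' = if m = u then 1 else 0 := by
      intro m hm
      by_cases hmu : m = u
      · subst hmu
        rw [if_pos rfl]
        exact R.Point.pt_end he h1 h2 hq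
      · rw [if_neg hmu]
        obtain ⟨a1, a2⟩ := hN m hm hmu
        rw [R.Point.pt_away hcc a1 a2]
        exact R.Point.two_eq _
    rw [Finset.sum_congr rfl this, Finset.sum_ite_eq']
  have e2 := R.Point.two_eq (b c')
  unfold kb
  rw [hb]
  linear_combination e2 + hs

end BPoint

theorem I_BPoint : StBPoint := by
  intro ι _ _ b pos V W u c' c p q h hu hVW he h1 h2 hq hb hN
  have hu' : u ∉ V.erase u := Finset.notMem_erase u V
  have hW : u ∉ W := Finset.disjoint_left.mp hVW hu
  unfold SB
  have e : V.powerset = (insert u (V.erase u)).powerset := by rw [Finset.insert_erase hu]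
  rw [e, Finset.sum_powerset_insert hu']
  have hz : ∑ M ∈ (V.erase u).powerset, (BB b pos (V ∪ W) (M ∪ W)).det *
      ((kb b pos (M ∪ W) c + kb b pos (M ∪ W) c') * h (kb b pos (M ∪ W))) = 0 := by
    refine Finset.sum_eq_zero fun M hM => ?_
    rw [Finset.mem_powerset] at hM
    have hM' : u ∉ M ∪ W := by
      rw [Finset.mem_union]
      rintro (h3 | h3)
      · exact hu' (hM h3)
      · exact hW h3
    rw [BPoint.kb_add b pos (M ∪ W) u he h1 h2 hq hb ?_, if_neg hM']
    · ring
    · intro w hw hwu
      refine hN w ?_ hwu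
      rw [Finset.mem_union] at hw ⊢
      rcases hw with hw | hw
      · exact Or.inl (Finset.mem_of_mem_erase (hM hw))
      · exact Or.inr hw
  rw [hz, zero_add]
  refine Finset.sum_congr rfl fun M hM => ?_
  rw [Finset.mem_powerset] at hM
  have hM' : u ∈ insert u M ∪ W := Finset.mem_union_left _ (Finset.mem_insert_self u M)
  beta_reduce
  rw [BPoint.kb_add b pos (insert u M ∪ W) u he h1 h2 hq hb ?_, if_pos hM', one_mul]
  · rw [R.Point.sets u M W, ← R.Point.sets u (V.erase u) W, Finset.insert_erase hu]
  · intro w hw hwu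
    refine hN w ?_ hwu
    rw [Finset.mem_union] at hw ⊢
    rcases hw with hw | hw
    · rcases Finset.mem_insert.mp hw with hw | hw
      · exact absurd hw hwu
      · exact Or.inl (Finset.mem_of_mem_erase (hM hw))
    · exact Or.inr hw

end Pool.Agent.Work.MP_7794fd_co.T
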