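import Pool.Agent.Work.MP_7794fd_co.T.Stmts

/-!
# The slide equations of the functional of three bridges (MP_7794fd_co)
-/

set_option autoImplicit false

namespace Pool.Agent.Work.MP_7794fd_co.T

open Finset Matrix
open Pool.Agent.Work.MP_7794fd_co.R

theorem I_FSl (hM : StMulti) (h1 : StT1a) (h2 : StT1b) (h3 : StT2a) (h4 : StT2b)
    (h5 : StT2c) : StFSl := by
  obtain ⟨hm, ha, hn⟩ := hM
  intro ι _ _ pos V g u c' c p q A B C hg hS
  have e1 : B ∪ A ∪ C = A ∪ B ∪ C := by rw [Finset.union_comm B A]
  have e2 : C ∪ A ∪ B = A ∪ B ∪ C := by ext z; simp only [Finset.mem_union]; tauto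
  have e3 : B ∪ C ∪ A = A ∪ B ∪ C := by ext z; simp only [Finset.mem_union]; tauto
  have s1 : Sl pos V u c' c p q (B ∪ A ∪ C) := by rw [e1]; exact hS
  have s2 : Sl pos V u c' c p q (C ∪ A ∪ B) := by rw [e2]; exact hS
  have s3 : Sl pos V u c' c p q (B ∪ C ∪ A) := by rw [e3]; exact hS
  refine ⟨?_, ?_, ?_⟩
  · have a1 := h1 pos V u c' c p q mono mono mono A B C hm hm hm hS
    have a2 := (h2 pos V u c' c p q mono mono mono B A C hm hm hm s1).1
    have a3 := (h2 pos V u c' c p q mono mono mono C A B hm hm hm s2).1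
    have a4 := h3 pos V g u c' c p q allc mono mono A B C hg ha hm hm hS
    have a5 := h3 pos V g u c' c p q mono allc mono A B C hg hm ha hm hS
    have a6 := h5 pos V g u c' c p q mono mono noc B C A hg hm hm hn s3
    have a7 := h5 pos V g u c' c p q allc mono mono B C A hg ha hm hm s3
    simp only [SlEq] at a1 a2 a3 a4 a5 a6 a7
    simp only [SlEq, FF]
    linear_combination a1 + a2 + a3 + a4 + a5 + a6 + a7
  · have a1 := (h2 pos V u c' c p q mono mono mono A B C hm hm hm hS).1
    have a2 := h1 pos V u c' c p q mono mono mono B A C hm hm hm s1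
    have a3 := (h2 pos V u c' c p q mono mono mono C A B hm hm hm s2).2
    have a4 := h4 pos V g u c' c p q allc mono mono A B C hg ha hm hm hS
    have a5 := h4 pos V g u c' c p q mono allc mono A B C hg hm ha hm hS
    have a6 := h3 pos V g u c' c p q mono mono noc B C A hg hm hm hn s3
    have a7 := h3 pos V g u c' c p q allc mono mono B C A hg ha hm hm s3
    simp only [SlEq] at a1 a2 a3 a4 a5 a6 a7
    simp only [SlEq, FF]
    linear_combination a1 + a2 + a3 + a4 + a5 + a6 + a7
  · have a1 := (h2 pos V u c' c p q mono mono mono A B C hm hm hm hS).2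
    have a2 := (h2 pos V u c' c p q mono mono mono B A C hm hm hm s1).2
    have a3 := h1 pos V u c' c p q mono mono mono C A B hm hm hm s2
    have a4 := h5 pos V g u c' c p q allc mono mono A B C hg ha hm hm hS
    have a5 := h5 pos V g u c' c p q mono allc mono A B C hg hm ha hm hS
    have a6 := h4 pos V g u c' c p q mono mono noc B C A hg hm hm hn s3
    have a7 := h4 pos V g u c' c p q allc mono mono B C A hg ha hm hm s3
    simp only [SlEq] at a1 a2 a3 a4 a5 a6 a7
    simp only [SlEq, FF]
    linear_combination a1 + a2 + a3 + a4 + a5 + a6 + a7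

end Pool.Agent.Work.MP_7794fd_co.T
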