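import Pool.Agent.Work.MP_7794fd_co.T.Stmts
import Pool.Agent.Work.MP_7794fd_co.R.Main
import Pool.Agent.Work.MP_7794fd_co.R.Equiv

/-! Project MP_7794fd_co, module T, item Three: three outside components with three neighbours. -/

set_option autoImplicit false

namespace Pool.Agent.Work.MP_7794fd_co.T

open Finset
open Pool.Agent.Work.MP_7794fd_co.R

namespace Three

/-- rotation of indices -/
theorem mod_inj {n r i j : ℕ} (hi : i < n) (hj : j < n) (h : (i + r) % n = (j + r) % n) :
    i = j := by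
  have h1 : i + r ≡ j + r [MOD n] := h
  have h2 : i ≡ j [MOD n] := Nat.ModEq.add_right_cancel' r h1
  have h3 : i % n = j % n := h2
  rwa [Nat.mod_eq_of_lt hi, Nat.mod_eq_of_lt hj] at h3

theorem mod_surj {n r i : ℕ} (hr : r < n) (hi : i < n) : ∃ j < n, (j + r) % n = i := by
  refine ⟨(i + (n - r)) % n, Nat.mod_lt _ (by omega), ?_⟩
  rw [Nat.mod_add_mod]
  have e : i + (n - r) + r = i + n := by omega
  rw [e, Nat.add_mod_right, Nat.mod_eq_of_lt hi]

variable {V E : Type} [Fintype V] [DecidableEq V] [Fintype E] [DecidableEq E]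

omit [Fintype V] [DecidableEq V] [Fintype E] [DecidableEq E] in
theorem cyc_rot {G : MG V E} {C : Finset E} {n r : ℕ} {f : ℕ → V} {c : ℕ → E} (hr : r < n)
    (h : IsCyc G C n f c) : IsCyc G C n (fun i => f ((i + r) % n)) (fun i => c ((i + r) % n)) := by
  have hn : 0 < n := by omega
  have hlt : ∀ i, (i + r) % n < n := fun i => Nat.mod_lt _ hn
  refine ⟨h.two, ?_, ?_, ?_, ?_, ?_⟩
  · intro i hi j hj hij
    exact mod_inj hi hj (h.injf _ (hlt i) _ (hlt j) hij)
  · intro i hi j hj hij
    exact mod_inj hi hj (h.injc _ (hlt i) _ (hlt j) hij)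
  · intro e
    rw [h.memc]
    constructor
    · rintro ⟨i, hi, he⟩
      obtain ⟨j, hj, hji⟩ := mod_surj hr hi
      exact ⟨j, hj, by simp only [hji]; exact he⟩
    · rintro ⟨i, _, he⟩
      exact ⟨_, hlt i, he⟩
  · intro v
    rw [h.memf]
    constructor
    · rintro ⟨i, hi, he⟩
      obtain ⟨j, hj, hji⟩ := mod_surj hr hi
      exact ⟨j, hj, by simp only [hji]; exact he⟩
    · rintro ⟨i, _, he⟩
      exact ⟨_, hlt i, he⟩
  · intro i hi
    have e := h.ends _ (hlt i)
    have e2 : ((i + r) % n + 1) % n = ((i + 1) % n + r) % n := by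
      rw [Nat.mod_add_mod, Nat.mod_add_mod]
      congr 1
      ring
    rw [e2] at e
    exact e

/-- two outside vertices with a common neighbour on `C` are in the same component -/
theorem common {G : MG V E} {C : Finset E} (hG : Cubic G) (hC : IsCircuit G C) {a b w : V}
    (ha : a ∉ verts G C) (hb : b ∉ verts G C) (h1 : w ∈ att G C ∅ a) (h2 : w ∈ att G C ∅ b) :
    Reach G (verts G C)ᶜ Finset.univ a b := by
  obtain ⟨q₁, e₁, r₁, d₁, n₁, c₁⟩ := R.Equiv.att_edge G (P := ∅)
    (by rw [Finset.union_empty]; exact ha) h1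
  obtain ⟨q₂, e₂, r₂, d₂, n₂, c₂⟩ := R.Equiv.att_edge G (P := ∅)
    (by rw [Finset.union_empty]; exact hb) h2
  have he : e₁ = e₂ := R.Equiv.third G hG hC h1.1 c₁ c₂ (by rw [d₁]; simp) (by rw [d₂]; simp)
  have hq : q₁ = q₂ := by
    rw [← he, d₁] at d₂
    rcases Sym2.eq_iff.1 d₂ with h | h
    · exact h.1
    · rw [h.1, h.2]
  rw [Finset.union_empty] at r₁ r₂
  rw [← hq] at r₂
  exact r₁.trans (R.Equiv.reach_symm G r₂)

end Three

open Three in
theorem I_Three (h1 : StCore3) (h2 : StCyc) (h3 : StCPath) (h4 : StRel) (h5 : StEq0)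
    (h6 : StPaths) (h7 : StAssemble) : StThree := by
  classical
  intro V E _ _ _ _ G hG C hC a b c ha hb hc hab hac hbc ka kb kc hbig
  -- enumeration
  have hane : (att G C ∅ a).Nonempty := by
    apply Set.nonempty_of_ncard_ne_zero
    rw [ka]; norm_num
  obtain ⟨x0, hx0⟩ := hane
  obtain ⟨n, f, ce, hf, _⟩ := h2 G C hC x0 hx0.1
  obtain ⟨hsymm, htrans, hthree, hclosed⟩ := h5 G C hG hC
  have hmem : ∀ i < n, f i ∈ verts G C := fun i hi => (hf.memf (f i)).mpr ⟨i, hi, rfl⟩
  have hCe : ∀ u, u ∉ verts G C → u ∉ verts G (C ∪ ∅) := fun u hu => by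
    rw [Finset.union_empty]; exact hu
  -- the relation
  set R : ℕ → ℕ → Prop := fun i j => i = j ∨ (i < n ∧ j < n ∧ SameBridge G C ∅ (f i) (f j)) with hR
  have Rr : ∀ i, R i i := fun i => Or.inl rfl
  have Rs : ∀ i j, R i j → R j i := by
    rintro i j (h | ⟨h1, h2, h3⟩)
    · exact Or.inl h.symm
    · exact Or.inr ⟨h2, h1, hsymm _ _ h3⟩
  have Rt : ∀ i j k, R i j → R j k → R i k := by
    rintro i j k (h | ⟨h1, h2, h3⟩) (h' | ⟨h1', h2', h3'⟩)
    · exact Or.inl (h.trans h')
    · exact Or.inr ⟨by omega, h2', by rw [h]; exact h3'⟩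
    · exact Or.inr ⟨h1, by omega, by rw [← h']; exact h3⟩
    · exact Or.inr ⟨h1, h2', htrans _ _ _ (hmem i h1) (hmem j h2) (hmem k h2') h3 h3'⟩
  -- the classes
  set cl : V → Finset ℕ := fun u => (range n).filter (fun i => f i ∈ att G C ∅ u) with hcl
  have mcl : ∀ u i, i ∈ cl u ↔ i < n ∧ f i ∈ att G C ∅ u := by
    intro u i
    rw [hcl, Finset.mem_filter, Finset.mem_range]
  have ccard : ∀ u, (cl u).card = (att G C ∅ u).ncard := by
    intro u
    have e : att G C ∅ u = f '' (cl u : Set ℕ) := by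
      ext v
      constructor
      · intro hv
        obtain ⟨i, hi, hfi⟩ := (hf.memf v).1 hv.1
        exact ⟨i, by rw [Finset.mem_coe, mcl]; exact ⟨hi, by rw [hfi]; exact hv⟩, hfi⟩
      · rintro ⟨i, hi, rfl⟩
        rw [Finset.mem_coe, mcl] at hi
        exact hi.2
    have hinj : Set.InjOn f (cl u : Set ℕ) := by
      intro i hi j hj hij
      rw [Finset.mem_coe, mcl] at hi hj
      exact hf.injf i hi.1 j hj.1 hij
    rw [e, hinj.ncard_image, Set.ncard_coe_finset]
  have cdis : ∀ u v, u ∉ verts G C → v ∉ verts G C → ¬ Reach G (verts G C)ᶜ Finset.univ u v →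
      Disjoint (cl u) (cl v) := by
    intro u v hu hv huv
    rw [Finset.disjoint_left]
    intro i hi hi'
    rw [mcl] at hi hi'
    exact huv (common hG hC hu hv hi.2 hi'.2)
  have cclo : ∀ u, u ∉ verts G C → ∀ i ∈ cl u, ∀ j < n, R i j ↔ j ∈ cl u := by
    intro u hu i hi j hj
    rw [mcl] at hi
    rw [mcl]
    constructor
    · rintro (h | ⟨_, _, h⟩)
      · rw [← h]; exact hi
      · exact ⟨hj, hclosed u hu _ hi.2 _ (hmem j hj) h⟩
    · rintro ⟨_, h⟩
      exact Or.inr ⟨hi.1, hj, Or.inr (Or.inr ⟨u, hCe u hu, hi.2, h⟩)⟩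
  have csub : ∀ u, cl u ⊆ range n := fun u => Finset.filter_subset _ _
  obtain ⟨r, s, hrs, hsn, hr, hs, Rrs, pr, col, hgp⟩ := h1 n R Rr Rs Rt (cl a) (cl b) (cl c)
    (by rw [ccard, ka]) (by rw [ccard, kb]) (by rw [ccard, kc]) (csub a) (csub b) (csub c)
    (cdis a b ha hb hab) (cdis a c ha hc hac) (cdis b c hb hc hbc) (cclo a ha) (cclo b hb)
    (cclo c hc) (by
      intro i hi j hj k hk hin hij Rij Rik
      by_contra hcon
      push Not at hcon
      obtain ⟨hki, hkj⟩ := hcon
      rcases Rij with h | ⟨_, _, sij⟩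
      · exact hij h
      rcases Rik with h | ⟨_, _, sik⟩
      · exact hki h.symm
      have sjk := htrans _ _ _ (hmem j hj) (hmem i hi) (hmem k hk) (hsymm _ _ sij) sik
      have e1 : f i ≠ f j := fun h => hij (hf.injf i hi j hj h)
      have e2 : f j ≠ f k := fun h => hkj (hf.injf j hj k hk h).symm
      have e3 : f i ≠ f k := fun h => hki (hf.injf i hi k hk h).symm
      obtain ⟨u, hu, m1, m2, m3⟩ := hthree _ (hmem i hi) _ (hmem j hj) _ (hmem k hk) e1 e2 e3 sij sjk
      have h3u := Pool.Agent.Work.MP_7794fd_co.R.Main.three_le G C ∅ u (f i) (f j) (f k) e1 e2 e3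
        m1 m2 m3
      have tr : ∀ v, Reach G (verts G C)ᶜ Finset.univ v u → i ∈ cl v := by
        intro v hv
        rw [mcl]
        refine ⟨hi, Pool.Agent.Work.MP_7794fd_co.R.Main.att_trans G C ∅ v u _ ?_ m1⟩
        rw [Finset.union_empty]
        exact hv
      apply hin
      rcases hbig u hu h3u with h | h | h
      · exact Finset.mem_union_left _ (Finset.mem_union_left _ (tr a h))
      · exact Finset.mem_union_left _ (Finset.mem_union_right _ (tr b h))
      · exact Finset.mem_union_right _ (tr c h))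
  have hrn : r < n := by omega
  have hn0 : 0 < n := by omega
  -- the component
  obtain ⟨u0, hu0, k0, hru, hsu⟩ : ∃ u0, u0 ∉ verts G C ∧ (att G C ∅ u0).ncard = 3 ∧
      r ∈ cl u0 ∧ s ∈ cl u0 := by
    rw [Finset.mem_union, Finset.mem_union] at hr
    rcases hr with (h | h) | h
    · exact ⟨a, ha, ka, h, (cclo a ha r h s hsn).1 Rrs⟩
    · exact ⟨b, hb, kb, h, (cclo b hb r h s hsn).1 Rrs⟩
    · exact ⟨c, hc, kc, h, (cclo c hc r h s hsn).1 Rrs⟩
  have hxa := ((mcl u0 r).1 hru).2
  have hya := ((mcl u0 s).1 hsu).2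
  have hxy : f r ≠ f s := fun h => by
    have := hf.injf r hrn s hsn h
    omega
  obtain ⟨P, hP, hPr⟩ := h3 G C u0 (f r) (f s) hG hC hu0 hxa hya hxy
  obtain ⟨rel1, rel2, _⟩ := h4 G C P u0 (f r) (f s) hG hC hu0 hP hxa hya k0 hPr
  -- the rotated enumeration
  have hcyc := cyc_rot hrn hf
  have hm : ∀ i, (i + r) % n < n := fun i => Nat.mod_lt _ hn0
  have hf0 : f ((0 + r) % n) = f r := by rw [Nat.zero_add, Nat.mod_eq_of_lt hrn]
  have hfs : f ((s - r + r) % n) = f s := by
    rw [Nat.sub_add_cancel hrs.le, Nat.mod_eq_of_lt hsn]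
  have toR : ∀ i j, SameBridge G C P (f ((i + r) % n)) (f ((j + r) % n)) →
      R ((i + r) % n) ((j + r) % n) := fun i j h =>
    Or.inr ⟨hm i, hm j, rel1 _ _ (hmem _ (hm i)) (hmem _ (hm j)) h⟩
  have hgp' : GoodPairing n (s - r)
      (fun i j => SameBridge G C P (f ((i + r) % n)) (f ((j + r) % n))) pr col := by
    refine ⟨hgp.lt, hgp.inv, hgp.root, ?_, ?_, hgp.col0, hgp.coln, hgp.flip, ?_, hgp.conn⟩
    · intro i h0 hi hy hne
      have hpi := hgp.lt i hi
      rcases hgp.rel i h0 hi hy hne with h | ⟨_, _, h⟩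
      · exact absurd (mod_inj hi hpi h).symm hne
      · apply rel2 _ _ (hmem _ (hm i)) (hmem _ (hm (pr i))) _ h
        intro hia
        have hja := hclosed u0 hu0 _ hia _ (hmem _ (hm (pr i))) h
        -- the three elements of the class
        have hi1 : (i + r) % n ≠ r := fun h8 => by
          have := mod_inj (n := n) (r := r) hi hn0 (by rw [h8, Nat.zero_add, Nat.mod_eq_of_lt hrn])
          omega
        have hi2 : (i + r) % n ≠ s := fun h8 => by
          have := mod_inj (n := n) (r := r) hi (by omega : s - r < n)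
            (by rw [h8, Nat.sub_add_cancel hrs.le, Nat.mod_eq_of_lt hsn])
          omega
        have hsub : ({r, s, (i + r) % n} : Finset ℕ) ⊆ cl u0 := by
          intro k hk
          simp only [Finset.mem_insert, Finset.mem_singleton] at hk
          rcases hk with rfl | rfl | rfl
          · exact hru
          · exact hsu
          · rw [mcl]; exact ⟨hm i, hia⟩
        have hcard3 : ({r, s, (i + r) % n} : Finset ℕ).card = 3 := by
          rw [Finset.card_eq_three]
          exact ⟨r, s, (i + r) % n, by omega, hi1.symm, hi2.symm, rfl⟩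
        have heq : ({r, s, (i + r) % n} : Finset ℕ) = cl u0 :=
          Finset.eq_of_subset_of_card_le hsub (by rw [hcard3, ccard, k0])
        have hjm : (pr i + r) % n ∈ cl u0 := by
          rw [mcl]; exact ⟨hm (pr i), hja⟩
        rw [← heq] at hjm
        simp only [Finset.mem_insert, Finset.mem_singleton] at hjm
        rcases hjm with h8 | h8 | h8
        · have h9 := mod_inj (n := n) (r := r) hpi hn0
            (by rw [h8, Nat.zero_add, Nat.mod_eq_of_lt hrn])
          have h10 := hgp.inv i hi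
          rw [h9, hgp.root] at h10
          exact hy h10.symm
        · have h9 := mod_inj (n := n) (r := r) hpi (by omega : s - r < n)
            (by rw [h8, Nat.sub_add_cancel hrs.le, Nat.mod_eq_of_lt hsn])
          have h10 := hgp.inv i hi
          have h11 := hgp.inv 0 hn0
          rw [hgp.root] at h11
          rw [h9, h11] at h10
          omega
        · exact hne (mod_inj hpi hi h8)
    · intro i j h0 hi hy h0' hj hy' hne hne' hs'
      exact hgp.one i j h0 hi hy h0' hj hy' hne hne' (toR i j hs')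
    · intro i j h0 hi hy h0' hj hy' hs' g1 g2
      exact hgp.same i j h0 hi hy h0' hj hy' (toR i j hs') g1 g2
  obtain ⟨Q, hQ⟩ := h6 G C P (f r) (f s) hG hC hP n _ _ (s - r) pr col hcyc hf0 (by omega)
    (by omega) hfs hgp'
  obtain ⟨D, hD, _⟩ := h7 G C P (f r) (f s) hG hC hP n _ _ (s - r) pr col Q hcyc hf0 (by omega)
    (by omega) hfs hgp' hQ
  exact ⟨D, hD⟩

end Pool.Agent.Work.MP_7794fd_co.T
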